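import Pool.Agent.Helper95.QSys

/-!
Queen-level data attached to an exact system.
-/

set_option autoImplicit false

namespace Pool.Agent.Helper95.Queens

open Finset

/-- Queens `D` on a board of side `2g+1` whose columns are numbered `-a, ..., 2g - a` and whose
rows are numbered `-c, ..., 2g - c`, forming an exact system in the box `[0,δ]²`. -/
structure QData (g : ℕ) (δ a c : ℤ) (D : Finset (ℤ × ℤ)) (I J P Q : Finset ℤ) : Prop where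
  sys : QSys g δ I J P Q
  a0 : 0 ≤ a
  aδ : δ + a ≤ 2 * (g : ℤ)
  c0 : 0 ≤ c
  cδ : δ + c ≤ 2 * (g : ℤ)
  Dcard : D.card = g
  xinj : ∀ p ∈ D, ∀ q ∈ D, p.1 = q.1 → p = q
  yinj : ∀ p ∈ D, ∀ q ∈ D, p.2 = q.2 → p = q
  sinj : ∀ p ∈ D, ∀ q ∈ D, p.2 - p.1 = q.2 - q.1 → p = q
  tinj : ∀ p ∈ D, ∀ q ∈ D, p.1 + p.2 = q.1 + q.2 → p = q
  cols : ∀ x, x ∈ D.image Prod.fst ↔ (-a ≤ x ∧ x ≤ 2 * (g : ℤ) - a ∧ x ∉ I)
  rows : ∀ y, y ∈ D.image Prod.snd ↔ (-c ≤ y ∧ y ≤ 2 * (g : ℤ) - c ∧ y ∉ J)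
  Pdef : P = D.image (fun p => p.2 - p.1)
  Qdef : Q = D.image (fun p => p.1 + p.2 - δ)

end Pool.Agent.Helper95.Queens
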