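import Mathlib

/-!
Definitions for problem MP_1da4e9_nt (upper and lower densities in the sense of the problem file).
-/

namespace Pool.Agent.Helper95.Densities

/-- The three ground sets of the problem, as subsets of the integers. -/
def IsGround (H : Set ℤ) : Prop :=
  H = Set.univ ∨ H = {n : ℤ | 0 ≤ n} ∨ H = {n : ℤ | 0 < n}

/-- The set `k·X + h`. -/
def affine (k : ℤ) (h : ℤ) (X : Set ℤ) : Set ℤ := {y : ℤ | ∃ x ∈ X, y = k * x + h}

/-- Upper quasi-density on `H` (only the values of `μ` on subsets of `H` matter). -/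
structure IsUpperQuasiDensity (H : Set ℤ) (μ : Set ℤ → ℝ) : Prop where
  total : μ H = 1
  subadd : ∀ X Y : Set ℤ, X ⊆ H → Y ⊆ H → μ (X ∪ Y) ≤ μ X + μ Y
  affine : ∀ X : Set ℤ, X ⊆ H → ∀ h k : ℕ, 0 < h → 0 < k →
    μ (affine (k : ℤ) (h : ℤ) X) = (1 / (k : ℝ)) * μ X
  le_one : ∀ X : Set ℤ, X ⊆ H → μ X ≤ 1

/-- Upper density on `H`: a monotone upper quasi-density. -/
structure IsUpperDensity (H : Set ℤ) (μ : Set ℤ → ℝ) : Prop extends IsUpperQuasiDensity H μ where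
  mono : ∀ X Y : Set ℤ, X ⊆ Y → Y ⊆ H → μ X ≤ μ Y

/-- The lower dual of `μ` on `H`. -/
def lowerDual (H : Set ℤ) (μ : Set ℤ → ℝ) (X : Set ℤ) : ℝ := 1 - μ (H \ X)

end Pool.Agent.Helper95.Densities
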