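import Pool.Agent.Helper17.FQSetup

/-!
# Piece B of MP_9dd525_an: mean value with weight
-/

open scoped BigOperators SchwartzMap FourierTransform RealInnerProductSpace ContDiff
open MeasureTheory Complex Filter Topology

noncomputable section

namespace FQ

variable {d n : ℕ}

lemma wgt_integrable (d : ℕ) :
    Integrable (fun z : E d => ((1 + ‖z‖) ^ (2 * d + 1))⁻¹) := by
  have h := integrable_one_add_norm (E := E d) (μ := volume) (r := ((2 * d + 1 : ℕ) : ℝ)) (by
    rw [finrank_euclideanSpace, Fintype.card_fin]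
    push_cast
    have : (0:ℝ) ≤ d := Nat.cast_nonneg d
    linarith)
  refine h.congr (Eventually.of_forall fun z => ?_)
  simp only
  rw [Real.rpow_neg (by positivity), Real.rpow_natCast]

lemma wgt_integrable_scale (d : ℕ) {T : ℝ} (hT : 0 < T) :
    Integrable (fun z : E d => ((1 + ‖z‖ / T) ^ (2 * d + 1))⁻¹) := by
  have h := (wgt_integrable d).comp_smul (R := T⁻¹) (inv_ne_zero hT.ne')
  refine h.congr (Eventually.of_forall fun z => ?_)
  simp only
  rw [norm_smul, norm_inv, Real.norm_eq_abs, abs_of_pos hT, inv_mul_eq_div]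

lemma rl_aux (p : E d) (hp : p ≠ 0) :
    Tendsto (fun T : ℝ => ∫ w : E d, ex p (cx (T • w)) * ((((1 + ‖w‖) ^ (2 * d + 1))⁻¹ : ℝ) : ℂ))
      atTop (𝓝 0) := by
  have h := tendsto_integral_exp_inner_smul_cocompact (V := E d) (E := ℂ)
    (fun w : E d => ((((1 + ‖w‖) ^ (2 * d + 1))⁻¹ : ℝ) : ℂ))
  have hT : Tendsto (fun T : ℝ => -(T • p)) atTop (cocompact (E d)) := by
    rw [← Metric.cobounded_eq_cocompact, ← tendsto_norm_atTop_iff_cobounded]
    simp only [norm_neg, norm_smul]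
    exact (tendsto_norm_atTop_atTop).atTop_mul_const (norm_pos_iff.mpr hp)
  have h2 := h.comp hT
  refine h2.congr fun T => ?_
  simp only [Function.comp_apply]
  congr 1
  ext w
  rw [Circle.smul_def, Real.fourierChar_apply, smul_eq_mul, ex_cx]
  congr 2
  rw [inner_neg_right, inner_smul_right, inner_smul_right, real_inner_comm]
  push_cast
  ring

lemma sq_expand (S : Finset (E d)) (a : E d → ℂ) (z : E d) :
    ((‖∑ p ∈ S, a p * ex p (cx z)‖ ^ 2 : ℝ) : ℂ) =
      ∑ p ∈ S, ∑ q ∈ S, a p * (starRingEnd ℂ) (a q) * ex (p - q) (cx z) := by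
  rw [← Complex.normSq_eq_norm_sq, ← Complex.mul_conj, map_sum, Finset.sum_mul_sum]
  refine Finset.sum_congr rfl fun p _ => Finset.sum_congr rfl fun q _ => ?_
  rw [map_mul, conj_ex_cx, sub_eq_add_neg, ex_add_left]
  ring

theorem mean_weight (S : Finset (E d)) (a : E d → ℂ) :
    Integrable (fun z : E d => ((1 + ‖z‖) ^ (2 * d + 1))⁻¹) ∧
    (∀ T : ℝ, 0 < T → Integrable (fun z : E d =>
      ‖∑ p ∈ S, a p * ex p (cx z)‖ ^ 2 * ((1 + ‖z‖ / T) ^ (2 * d + 1))⁻¹)) ∧
    Tendsto (fun T : ℝ => (T ^ d)⁻¹ * ∫ z : E d,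
      ‖∑ p ∈ S, a p * ex p (cx z)‖ ^ 2 * ((1 + ‖z‖ / T) ^ (2 * d + 1))⁻¹) atTop
      (𝓝 ((∑ p ∈ S, ‖a p‖ ^ 2) * ∫ z : E d, ((1 + ‖z‖) ^ (2 * d + 1))⁻¹)) := by
  classical
  have hW := wgt_integrable d
  refine ⟨hW, fun T hT => ?_, ?_⟩
  · refine (wgt_integrable_scale d hT).bdd_mul (c := (∑ p ∈ S, ‖a p‖) ^ 2) ?_
      (Eventually.of_forall fun z => ?_)
    · exact (by fun_prop : Continuous fun z : E d =>
        ‖∑ p ∈ S, a p * ex p (cx z)‖ ^ 2).aestronglyMeasurable
    · rw [Real.norm_eq_abs, abs_of_nonneg (by positivity)]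
      gcongr
      refine (norm_sum_le _ _).trans (Finset.sum_le_sum fun p _ => ?_)
      rw [norm_mul, norm_ex_cx, mul_one]
  · -- complex version
    set W : E d → ℝ := fun z => ((1 + ‖z‖) ^ (2 * d + 1))⁻¹ with hWdef
    have hWc : Integrable (fun z : E d => ((W z : ℝ) : ℂ)) := hW.ofReal
    have key : Tendsto (fun T : ℝ => ∑ p ∈ S, ∑ q ∈ S, a p * (starRingEnd ℂ) (a q) *
        ∫ w : E d, ex (p - q) (cx (T • w)) * ((W w : ℝ) : ℂ)) atTop
        (𝓝 (∑ p ∈ S, ∑ q ∈ S, if p = q then ((‖a p‖ ^ 2 : ℝ) : ℂ) * ∫ w : E d, ((W w : ℝ) : ℂ)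
          else 0)) := by
      refine tendsto_finsetSum _ fun p _ => tendsto_finsetSum _ fun q _ => ?_
      by_cases hpq : p = q
      · rw [if_pos hpq]
        subst hpq
        simp only [sub_self, ex_zero_left, one_mul]
        rw [Complex.mul_conj, Complex.normSq_eq_norm_sq]
        exact tendsto_const_nhds
      · rw [if_neg hpq]
        have := (rl_aux (p - q) (sub_ne_zero.mpr hpq)).const_mul (a p * (starRingEnd ℂ) (a q))
        rw [mul_zero] at this
        exact this
    have hlim : (∑ p ∈ S, ∑ q ∈ S, if p = q then ((‖a p‖ ^ 2 : ℝ) : ℂ) * ∫ w : E d, ((W w : ℝ) : ℂ)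
          else 0) = (((∑ p ∈ S, ‖a p‖ ^ 2) * ∫ z : E d, W z : ℝ) : ℂ) := by
      rw [integral_complex_ofReal]
      push_cast
      rw [Finset.sum_mul]
      refine Finset.sum_congr rfl fun p hp => ?_
      rw [Finset.sum_ite_eq, if_pos hp]
    rw [hlim] at key
    have hre := (Complex.continuous_re.tendsto _).comp key
    rw [Complex.ofReal_re] at hre
    refine hre.congr' ?_
    filter_upwards [eventually_gt_atTop 0] with T hT
    simp only [Function.comp_apply]
    have h1 : (T ^ d)⁻¹ * ∫ z : E d,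
      ‖∑ p ∈ S, a p * ex p (cx z)‖ ^ 2 * ((1 + ‖z‖ / T) ^ (2 * d + 1))⁻¹ =
        ∫ w : E d, ‖∑ p ∈ S, a p * ex p (cx (T • w))‖ ^ 2 * W w := by
      have h2 := MeasureTheory.Measure.integral_comp_smul_of_nonneg (μ := (volume : Measure (E d)))
        (fun z : E d => ‖∑ p ∈ S, a p * ex p (cx z)‖ ^ 2 * ((1 + ‖z‖ / T) ^ (2 * d + 1))⁻¹) T
        (hR := hT.le)
      rw [finrank_euclideanSpace, Fintype.card_fin, smul_eq_mul] at h2
      rw [← h2]
      congr 1
      ext w
      simp only [hWdef]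
      rw [norm_smul, Real.norm_eq_abs, abs_of_pos hT, mul_div_assoc, mul_div_cancel₀ _ hT.ne']
    rw [h1]
    have h3 : ((∫ w : E d, ‖∑ p ∈ S, a p * ex p (cx (T • w))‖ ^ 2 * W w : ℝ) : ℂ) =
        ∑ p ∈ S, ∑ q ∈ S, a p * (starRingEnd ℂ) (a q) *
        ∫ w : E d, ex (p - q) (cx (T • w)) * ((W w : ℝ) : ℂ) := by
      rw [← integral_complex_ofReal]
      have h4 : ∀ w : E d, ((‖∑ p ∈ S, a p * ex p (cx (T • w))‖ ^ 2 * W w : ℝ) : ℂ) =
          ∑ p ∈ S, ∑ q ∈ S, a p * (starRingEnd ℂ) (a q) *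
            (ex (p - q) (cx (T • w)) * ((W w : ℝ) : ℂ)) := by
        intro w
        rw [Complex.ofReal_mul, sq_expand, Finset.sum_mul]
        refine Finset.sum_congr rfl fun p _ => ?_
        rw [Finset.sum_mul]
        exact Finset.sum_congr rfl fun q _ => by ring
      have hint : ∀ p q : E d, Integrable (fun w : E d => a p * (starRingEnd ℂ) (a q) *
            (ex (p - q) (cx (T • w)) * ((W w : ℝ) : ℂ))) := by
        intro p q
        refine Integrable.const_mul ?_ _
        refine hWc.bdd_mul (c := 1) ?_ (Eventually.of_forall fun z => ?_)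
        · exact (by fun_prop : Continuous fun w : E d =>
            ex (p - q) (cx (T • w))).aestronglyMeasurable
        · rw [norm_ex_cx]
      calc ∫ w : E d, ((‖∑ p ∈ S, a p * ex p (cx (T • w))‖ ^ 2 * W w : ℝ) : ℂ)
          = ∫ w : E d, ∑ p ∈ S, ∑ q ∈ S, a p * (starRingEnd ℂ) (a q) *
            (ex (p - q) (cx (T • w)) * ((W w : ℝ) : ℂ)) := by
            congr 1; ext w; exact h4 w
        _ = _ := by
            rw [integral_finsetSum _ fun p _ => integrable_finsetSum _ fun q _ => hint p q]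
            refine Finset.sum_congr rfl fun p _ => ?_
            rw [integral_finsetSum _ fun q _ => hint p q]
            refine Finset.sum_congr rfl fun q _ => ?_
            rw [integral_const_mul]
    rw [← h3, Complex.ofReal_re]

end FQ
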