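import Pool.Agent.Helper17.FQFlow

/-!
# Piece D of MP_9dd525_an: positive density of the points where the field is large
-/

open scoped BigOperators SchwartzMap FourierTransform RealInnerProductSpace ContDiff
open MeasureTheory Complex Filter Topology

noncomputable section

namespace FQ

variable {d n : ℕ}

namespace FQG

variable (G : FQG d n)

lemma fq_scaled (f : A n) {h : E d → ℂ} (H : TF h 0 1) : ∃ T₁ : ℝ, 1 ≤ T₁ ∧ ∀ T : ℝ, T₁ ≤ T →
    Summable (fun x : G.F.L => psi h (cx (T⁻¹ • (x : E d)))) ∧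
    ∑' x : G.F.L, G.ev (cx x) f * psi h (cx (T⁻¹ • (x : E d))) =
      G.Cc f 0 * (((T ^ d : ℝ) : ℂ) * h 0) := by
  classical
  have hfin := G.Cc_fin f 1
  set Z : Finset (Gm n) := hfin.toFinset.erase 0 with hZ
  have hZmem : ∀ r, r ∈ Z ↔ r ≠ 0 ∧ G.Cc f r ≠ 0 ∧ ‖G.L r‖ ≤ 1 := by
    intro r; simp [hZ]
  have hsum0 : 0 ≤ ∑ r ∈ Z, ‖G.L r‖⁻¹ := Finset.sum_nonneg fun _ _ => by positivity
  refine ⟨1 + ∑ r ∈ Z, ‖G.L r‖⁻¹, by linarith, fun T hT => ?_⟩
  have hT1 : 1 ≤ T := by linarith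
  have hT0 : 0 < T := by linarith
  have hTi : 0 < T⁻¹ := inv_pos.mpr hT0
  have HT := H.scale hTi
  set hh : E d → ℂ := fun ξ => (((T⁻¹) ^ d : ℝ) : ℂ)⁻¹ * h ((T⁻¹)⁻¹ • ξ) with hhdef
  have hpsi : ∀ x : E d, psi hh (cx x) = psi h (cx (T⁻¹ • x)) := by
    intro x
    rw [hhdef, psi_scale h hTi, cx_smul]
  constructor
  · have h1 := G.F.summ hh 0 _ HT 0
    refine h1.congr fun x => ?_
    rw [sub_zero, hpsi]
  · have h1 := G.fq_elf f HT 0
    simp only [sub_zero, hpsi] at h1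
    rw [h1, G.ev_eq]
    have hval : (G.elf f hh).coeff 0 = G.Cc f 0 * (((T ^ d : ℝ) : ℂ) * h 0) := by
      rw [G.coeff_elf f HT, map_zero, hhdef]
      simp only [smul_zero]
      congr 2
      rw [inv_pow, Complex.ofReal_inv, inv_inv]
    rw [← hval]
    rw [Finset.sum_eq_single 0]
    · rw [ex_zero_right, mul_one]
    · intro r hr hr0
      exfalso
      rw [Finsupp.mem_support_iff, G.coeff_elf f HT] at hr
      have hc := left_ne_zero_of_mul hr
      have h2 := right_ne_zero_of_mul hr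
      have h3 : ‖G.L r‖ < T⁻¹ := by
        by_contra hcon
        push Not at hcon
        apply h2
        apply HT.supp
        rw [sub_zero, mul_one]
        exact hcon
      have h4 : T⁻¹ ≤ 1 := inv_le_one_of_one_le₀ hT1
      have h5 : r ∈ Z := (hZmem r).mpr ⟨hr0, hc, h3.le.trans h4⟩
      have h6 : 0 < ‖G.L r‖ := by
        rw [norm_pos_iff]
        intro h0
        exact hr0 (G.inj (by rw [h0, map_zero]))
      have h7 : ‖G.L r‖⁻¹ ≤ ∑ r ∈ Z, ‖G.L r‖⁻¹ :=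
        Finset.single_le_sum (f := fun r => ‖G.L r‖⁻¹) (fun _ _ => by positivity) h5
      have h8 : T < ‖G.L r‖⁻¹ := by
        rw [lt_inv_comm₀ hT0 h6]
        exact h3
      linarith
    · intro h0
      have : (G.elf f hh).coeff 0 = 0 := by simpa using h0
      rw [this, zero_mul]

/-- the square of the length of the field, as a trigonometric polynomial -/
def sqf (β : Fin d → A n) : A n := ∑ j, β j ^ 2

lemma ev_sqf {β : Fin d → A n} (hβ : ∀ j, G.IsR (β j)) (x : E d) :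
    G.ev (cx x) (sqf β) = ((‖G.vf β x‖ ^ 2 : ℝ) : ℂ) := by
  rw [sqf, map_sum, EuclideanSpace.norm_sq_eq]
  push_cast
  refine Finset.sum_congr rfl fun j _ => ?_
  rw [map_pow, ← G.ofReal_vf hβ]
  norm_cast
  rw [Real.norm_eq_abs, sq_abs]

/-- nonnegative real weights -/
lemma summable_weighted {φ : G.F.L → ℝ}
    (hφ0 : ∀ x, 0 ≤ φ x) (hφs : Summable φ) (β : Fin d → A n) :
    Summable (fun x : G.F.L => ‖G.vf β x‖ ^ 2 * φ x) := by
  obtain ⟨M, hM, hMb⟩ := G.vf_bdd β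
  refine Summable.of_nonneg_of_le (fun x => mul_nonneg (by positivity) (hφ0 x)) (fun x => ?_)
    (hφs.mul_left (M ^ 2))
  refine mul_le_mul_of_nonneg_right ?_ (hφ0 x)
  have := hMb x
  gcongr

lemma Cc_sqf_pos {β : Fin d → A n} (hβ : ∀ j, G.IsR (β j)) (hne : ∃ j, β j ∉ G.I) :
    0 < (G.Cc (sqf β) 0).re := by
  obtain ⟨h, H, h1, ⟨α, hα, hα2⟩, hnn, -⟩ := exists_pos_test d one_pos
  choose a ha0 ha1 ha using hnn
  have hev : ∀ t : E d, G.ev (cx t) (G.elf (sqf β) h) =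
      ((∑' x : G.F.L, ‖G.vf β x‖ ^ 2 * a ((x : E d) - t) : ℝ) : ℂ) := by
    intro t
    rw [← G.fq_elf _ H, Complex.ofReal_tsum]
    congr 1
    ext x
    rw [G.ev_sqf hβ, ← cx_sub, ha, ← Complex.ofReal_mul]
  have hsum : ∀ t : E d, Summable (fun x : G.F.L => a ((x : E d) - t)) := by
    intro t
    have h2 := G.F.summ h 0 1 H (cx t)
    have h3 := (Complex.hasSum_re h2.hasSum).summable
    refine h3.congr fun x => ?_
    rw [← cx_sub, ha, Complex.ofReal_re]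
  have hws : ∀ t : E d, Summable (fun x : G.F.L => ‖G.vf β x‖ ^ 2 * a ((x : E d) - t)) := fun t =>
    G.summable_weighted (fun x => ha0 _) (hsum t) β
  have hpos := G.coeff_zero_pos (G.elf (sqf β) h) (fun t => ⟨_, tsum_nonneg fun x =>
    mul_nonneg (by positivity) (ha0 _), hev t⟩) ?_
  · rw [G.coeff_elf _ H, map_zero, hα2, Complex.re_mul_ofReal] at hpos
    exact pos_of_mul_pos_left hpos hα.le
  · obtain ⟨j, hj⟩ := hne
    rw [G.mem_I] at hj
    push Not at hj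
    obtain ⟨x₀, hx₀, hx₀2⟩ := hj
    refine ⟨x₀, ?_⟩
    rw [hev x₀]
    have h4 : 0 < ‖G.vf β x₀‖ := by
      rw [norm_pos_iff]
      intro h0
      apply hx₀2
      rw [← G.ofReal_vf hβ, h0]
      simp
    have h5 : a (x₀ - x₀) = 1 := by
      have h6 := ha (x₀ - x₀)
      rw [sub_self, cx_zero, h1] at h6
      have h7 : a 0 = 1 := by exact_mod_cast h6.symm
      rw [sub_self, h7]
    have h8 : 0 < ∑' x : G.F.L, ‖G.vf β x‖ ^ 2 * a ((x : E d) - x₀) := by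
      refine (hws x₀).tsum_pos (fun x => mul_nonneg (by positivity) (ha0 _)) ⟨x₀, hx₀⟩ ?_
      simp only
      rw [h5]
      positivity
    exact_mod_cast h8.ne'

/-- PIECE D (positive density of the points where the field is large). -/
theorem density {β : Fin d → A n} (hβ : ∀ j, G.IsR (β j)) (hne : ∃ j, β j ∉ G.I) :
    ∃ δ : ℝ, 0 < δ ∧ ∃ c : ℝ, 0 < c ∧ ∃ T₀ : ℝ, 1 ≤ T₀ ∧ ∀ T : ℝ, T₀ ≤ T →
      ∃ S : Finset (E d), (∀ x ∈ S, x ∈ G.F.L ∧ δ ≤ ‖G.vf β x‖) ∧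
        c * T ^ d ≤ ∑ x ∈ S, ((1 + ‖x‖ / T) ^ (2 * d + 1))⁻¹ := by
  classical
  obtain ⟨h, H, h1, ⟨α, hα, hα2⟩, hnn, -⟩ := exists_pos_test d one_pos
  choose a ha0 ha1 ha using hnn
  obtain ⟨M, hM, hMb⟩ := G.vf_bdd β
  obtain ⟨C, hC, hdec⟩ := H.decay (2 * d + 1)
  obtain ⟨T₁, hT₁, hs1⟩ := G.fq_scaled (sqf β) H
  obtain ⟨T₂, hT₂, hs2⟩ := G.fq_scaled 1 H
  have hAg0 := G.Cc_sqf_pos hβ hne
  set Ag : ℝ := (G.Cc (sqf β) 0).re * α with hAg
  have hAgpos : 0 < Ag := mul_pos hAg0 hα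
  set A1 : ℝ := |(G.Cc 1 0).re * α| with hA1
  have hA10 : 0 ≤ A1 := abs_nonneg _
  set δ : ℝ := Real.sqrt (Ag / (4 * (A1 + 1))) with hδ
  have hδpos : 0 < δ := Real.sqrt_pos.mpr (by positivity)
  have hδsq : δ ^ 2 = Ag / (4 * (A1 + 1)) := Real.sq_sqrt (by positivity)
  refine ⟨δ, hδpos, Ag / (4 * (M ^ 2 * C)), by positivity, max T₁ T₂, le_max_of_le_left hT₁,
    fun T hT => ?_⟩
  have hTT1 : T₁ ≤ T := (le_max_left _ _).trans hT
  have hTT2 : T₂ ≤ T := (le_max_right _ _).trans hT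
  have hT0 : 0 < T := by linarith
  have hTd : 0 < T ^ d := by positivity
  obtain ⟨hsm, hv1⟩ := hs1 T hTT1
  obtain ⟨-, hv2⟩ := hs2 T hTT2
  set φ : G.F.L → ℝ := fun x => a (T⁻¹ • (x : E d)) with hφ
  have hφ0 : ∀ x, 0 ≤ φ x := fun x => ha0 _
  have hφs : Summable φ := by
    have h3 := (Complex.hasSum_re hsm.hasSum).summable
    refine h3.congr fun x => ?_
    rw [ha, Complex.ofReal_re]
  have hws := G.summable_weighted hφ0 hφs β
  -- values
  have hv1' : ∑' x : G.F.L, ‖G.vf β x‖ ^ 2 * φ x = Ag * T ^ d := by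
    have e1 : ((∑' x : G.F.L, ‖G.vf β x‖ ^ 2 * φ x : ℝ) : ℂ) =
        G.Cc (sqf β) 0 * (((T ^ d : ℝ) : ℂ) * h 0) := by
      rw [← hv1, Complex.ofReal_tsum]
      congr 1
      ext x
      rw [G.ev_sqf hβ, ha, ← Complex.ofReal_mul]
    have e2 := congrArg Complex.re e1
    rw [Complex.ofReal_re, hα2, ← Complex.ofReal_mul, Complex.re_mul_ofReal] at e2
    rw [e2, hAg]
    ring
  have hv2' : ∑' x : G.F.L, φ x ≤ A1 * T ^ d := by
    have e1 : ((∑' x : G.F.L, φ x : ℝ) : ℂ) =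
        G.Cc 1 0 * (((T ^ d : ℝ) : ℂ) * h 0) := by
      rw [← hv2, Complex.ofReal_tsum]
      congr 1
      ext x
      rw [map_one, one_mul, ha]
    have e2 := congrArg Complex.re e1
    rw [Complex.ofReal_re, hα2, ← Complex.ofReal_mul, Complex.re_mul_ofReal] at e2
    rw [e2]
    calc (G.Cc 1 0).re * (T ^ d * α) = (G.Cc 1 0).re * α * T ^ d := by ring
      _ ≤ A1 * T ^ d := mul_le_mul_of_nonneg_right (le_abs_self _) hTd.le
  by_contra hcon
  push Not at hcon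
  -- bound all finite sums
  have hW : ∀ x : G.F.L, φ x ≤ C * ((1 + ‖(x : E d)‖ / T) ^ (2 * d + 1))⁻¹ := by
    intro x
    have h3 := hdec (T⁻¹ • (x : E d))
    rw [ha, Complex.norm_real, Real.norm_eq_abs, abs_of_nonneg (ha0 _), norm_smul, norm_inv,
      Real.norm_eq_abs, abs_of_pos hT0, inv_mul_eq_div] at h3
    exact h3
  have hbound : ∀ s : Finset G.F.L, ∑ x ∈ s, ‖G.vf β x‖ ^ 2 * φ x ≤
      δ ^ 2 * (A1 * T ^ d) + M ^ 2 * (C * (Ag / (4 * (M ^ 2 * C)) * T ^ d)) := by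
    intro s
    rw [← Finset.sum_filter_add_sum_filter_not s (fun x : G.F.L => ‖G.vf β x‖ < δ)]
    refine add_le_add ?_ ?_
    · calc ∑ x ∈ s.filter (fun x : G.F.L => ‖G.vf β x‖ < δ), ‖G.vf β x‖ ^ 2 * φ x
          ≤ ∑ x ∈ s.filter (fun x : G.F.L => ‖G.vf β x‖ < δ), δ ^ 2 * φ x := by
            refine Finset.sum_le_sum fun x hx => ?_
            have := (Finset.mem_filter.mp hx).2
            refine mul_le_mul_of_nonneg_right ?_ (hφ0 x)
            gcongr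
        _ = δ ^ 2 * ∑ x ∈ s.filter (fun x : G.F.L => ‖G.vf β x‖ < δ), φ x := by
            rw [Finset.mul_sum]
        _ ≤ δ ^ 2 * ∑' x : G.F.L, φ x := by
            gcongr
            exact hφs.sum_le_tsum _ fun x _ => hφ0 x
        _ ≤ _ := by gcongr
    · set S : Finset (E d) := (s.filter (fun x : G.F.L => ¬ ‖G.vf β x‖ < δ)).map
        (Function.Embedding.subtype _) with hS
      have hSlt := hcon S (fun x hx => by
        rw [hS, Finset.mem_map] at hx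
        obtain ⟨y, hy, rfl⟩ := hx
        exact ⟨y.2, not_lt.mp (Finset.mem_filter.mp hy).2⟩)
      calc ∑ x ∈ s.filter (fun x : G.F.L => ¬ ‖G.vf β x‖ < δ), ‖G.vf β x‖ ^ 2 * φ x
          ≤ ∑ x ∈ s.filter (fun x : G.F.L => ¬ ‖G.vf β x‖ < δ),
              M ^ 2 * (C * ((1 + ‖(x : E d)‖ / T) ^ (2 * d + 1))⁻¹) := by
            refine Finset.sum_le_sum fun x _ => ?_
            have h4 := hMb x
            have h5 := hW x
            have h6 := hφ0 x
            gcongr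
        _ = M ^ 2 * (C * ∑ x ∈ S, ((1 + ‖x‖ / T) ^ (2 * d + 1))⁻¹) := by
            rw [hS, Finset.sum_map, Finset.mul_sum, Finset.mul_sum]
            rfl
        _ ≤ _ := by
            have := hSlt.le
            gcongr
  have hle := hws.tsum_le_of_sum_le hbound
  rw [hv1'] at hle
  have e3 : δ ^ 2 * (A1 * T ^ d) ≤ Ag / 4 * T ^ d := by
    rw [hδsq]
    have : Ag / (4 * (A1 + 1)) * A1 ≤ Ag / 4 := by
      rw [div_mul_eq_mul_div, div_le_div_iff₀ (by positivity) (by norm_num)]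
      nlinarith
    calc Ag / (4 * (A1 + 1)) * (A1 * T ^ d) = Ag / (4 * (A1 + 1)) * A1 * T ^ d := by ring
      _ ≤ _ := by gcongr
  have e4 : M ^ 2 * (C * (Ag / (4 * (M ^ 2 * C)) * T ^ d)) = Ag / 4 * T ^ d := by
    field_simp
  have e5 : 0 < Ag * T ^ d := mul_pos hAgpos hTd
  nlinarith

end FQG

end FQ
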