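import Pool.Agent.Helper17.FQSetup

/-!
# Piece E of MP_9dd525_an: dimension of the space of non-null polynomials
-/

open scoped BigOperators SchwartzMap FourierTransform RealInnerProductSpace ContDiff
open MeasureTheory Complex Filter Topology

noncomputable section

namespace FQ

variable {d n : ℕ}

lemma finite_norm_le (n M : ℕ) : {q : Gm n | ‖q‖ ≤ M}.Finite := by
  have h : {q : Gm n | ‖q‖ ≤ M} ⊆ Metric.closedBall (0 : Gm n) M := by
    intro q hq
    rw [mem_closedBall_zero_iff]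
    exact hq
  exact (Metric.finite_isBounded_inter_isClosed DiscreteTopology.isDiscrete
    Metric.isBounded_closedBall isClosed_univ).subset (by simpa using h)

/-- polynomial attached to a vector of coefficients -/
def pf (w : Finset (Gm n)) : EuclideanSpace ℂ w →ₗ[ℂ] A n where
  toFun b := ∑ q : w, AddMonoidAlgebra.single (q : Gm n) (b q)
  map_add' b c := by
    rw [← Finset.sum_add_distrib]
    refine Finset.sum_congr rfl fun q _ => ?_
    rw [PiLp.add_apply, AddMonoidAlgebra.single_add]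
  map_smul' a b := by
    rw [Finset.smul_sum]
    refine Finset.sum_congr rfl fun q _ => ?_
    rw [PiLp.smul_apply, AddMonoidAlgebra.smul_single, RingHom.id_apply]

lemma pf_apply (w : Finset (Gm n)) (b : EuclideanSpace ℂ w) :
    pf w b = ∑ q : w, AddMonoidAlgebra.single (q : Gm n) (b q) := rfl

lemma coeff_pf (w : Finset (Gm n)) (b : EuclideanSpace ℂ w) (p : Gm n) :
    (pf w b).coeff p = if h : p ∈ w then b ⟨p, h⟩ else 0 := by
  classical
  rw [pf_apply, AddMonoidAlgebra.coeff_sum, Finsupp.finsetSum_apply]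
  simp only [AddMonoidAlgebra.coeff_single, Finsupp.single_apply]
  split_ifs with h
  · rw [Finset.sum_eq_single ⟨p, h⟩]
    · simp
    · intro q _ hq
      rw [if_neg]
      intro h2
      exact hq (Subtype.ext h2)
    · simp
  · apply Finset.sum_eq_zero
    intro q _
    rw [if_neg]
    rintro rfl
    exact h q.2

namespace FQG

variable (G : FQG d n)

lemma Cc_add (f g : A n) (r : Gm n) : G.Cc (f + g) r = G.Cc f r + G.Cc g r := by
  classical
  have h : ∀ f : A n, ∀ s : Finset (Gm n), f.coeff.support ⊆ s →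
      G.Cc f r = ∑ q ∈ s, f.coeff q * G.cc (r - q) := by
    intro f s hs
    unfold Cc
    refine Finset.sum_subset hs fun q _ hq => ?_
    have : f.coeff q = 0 := by simpa using hq
    rw [this, zero_mul]
  set s := (f + g).coeff.support ∪ (f.coeff.support ∪ g.coeff.support) with hs
  rw [h (f + g) s Finset.subset_union_left,
    h f s (Finset.subset_union_left.trans Finset.subset_union_right),
    h g s (Finset.subset_union_right.trans Finset.subset_union_right), ← Finset.sum_add_distrib]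
  refine Finset.sum_congr rfl fun q _ => ?_
  rw [AddMonoidAlgebra.coeff_add, Finsupp.add_apply]
  ring

lemma Cc_smul (a : ℂ) (f : A n) (r : Gm n) : G.Cc (a • f) r = a * G.Cc f r := by
  classical
  have h : ∀ f : A n, ∀ s : Finset (Gm n), f.coeff.support ⊆ s →
      G.Cc f r = ∑ q ∈ s, f.coeff q * G.cc (r - q) := by
    intro f s hs
    unfold Cc
    refine Finset.sum_subset hs fun q _ hq => ?_
    have : f.coeff q = 0 := by simpa using hq
    rw [this, zero_mul]
  set s := (a • f).coeff.support ∪ f.coeff.support with hs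
  rw [h (a • f) s Finset.subset_union_left, h f s Finset.subset_union_right, Finset.mul_sum]
  refine Finset.sum_congr rfl fun q _ => ?_
  rw [AddMonoidAlgebra.coeff_smul, Finsupp.smul_apply, smul_eq_mul]
  ring

lemma Cc_pf (w : Finset (Gm n)) (b : EuclideanSpace ℂ w) (r : Gm n) :
    G.Cc (pf w b) r = ∑ q : w, b q * G.cc (r - (q : Gm n)) := by
  classical
  unfold Cc
  have h1 : (pf w b).coeff.support ⊆ w := by
    intro q hq
    rw [Finsupp.mem_support_iff, coeff_pf] at hq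
    by_contra hn
    rw [dif_neg hn] at hq
    exact hq rfl
  have h2 : ∑ q ∈ (pf w b).coeff.support, (pf w b).coeff q * G.cc (r - q) =
      ∑ q ∈ w, (pf w b).coeff q * G.cc (r - q) := by
    refine Finset.sum_subset h1 fun q _ hq => ?_
    have : (pf w b).coeff q = 0 := by simpa using hq
    rw [this, zero_mul]
  rw [h2, ← Finset.sum_coe_sort w]
  refine Finset.sum_congr rfl fun q _ => ?_
  rw [coeff_pf, dif_pos q.2]

lemma ev_pf (w : Finset (Gm n)) (b : EuclideanSpace ℂ w) (z : Fin d → ℂ) :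
    G.ev z (pf w b) = ∑ q : w, b q * ex (G.L (q : Gm n)) z := by
  rw [pf_apply, map_sum]
  exact Finset.sum_congr rfl fun q _ => G.ev_single z _ _

/-- PIECE E (dimension of the space of non-null polynomials). -/
theorem dim_bound : ∃ R : ℝ, ∀ L₀ : ℝ, ∃ Cf : ℕ, ∀ N : ℕ,
    {q : Gm n | ‖G.L q‖ ≤ L₀ ∧ ‖q‖ ≤ N}.Finite ∧
    ∃ (k : ℕ) (u : Fin k → A n),
      (k : ℝ) ≤ ({r : Gm n | ‖G.L r‖ < R ∧ ‖r‖ ≤ (N + Cf : ℕ)}.ncard : ℝ) ∧
      (∀ j, SuppIn (u j) {q : Gm n | ‖G.L q‖ ≤ L₀ ∧ ‖q‖ ≤ N}) ∧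
      (∀ j, ∑ q ∈ (u j).coeff.support, ‖(u j).coeff q‖ ^ 2 ≤ 1) ∧
      ∀ y : E d, (∀ f ∈ G.I, G.ev (cx y) f = 0) →
        ({q : Gm n | ‖G.L q‖ ≤ L₀ ∧ ‖q‖ ≤ N}.ncard : ℝ) ≤ ∑ j, ‖G.ev (cx y) (u j)‖ ^ 2 := by
  classical
  obtain ⟨R, hR, hnull⟩ := G.null_criterion
  refine ⟨R, fun L₀ => ?_⟩
  -- bound on the frequencies of the spectrum
  have hfin1 := G.fin (R + L₀)
  obtain ⟨Cf, hCf⟩ : ∃ Cf : ℕ, ∀ p : Gm n, G.cc p ≠ 0 → ‖G.L p‖ ≤ R + L₀ → ‖p‖ ≤ Cf := by
    obtain ⟨C, hC⟩ := (hfin1.image (fun p : Gm n => ‖p‖)).bddAbove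
    refine ⟨⌈C⌉₊, fun p hp hp2 => (hC ⟨p, ⟨hp, hp2⟩, rfl⟩).trans (Nat.le_ceil C)⟩
  refine ⟨Cf, fun N => ?_⟩
  have hfinW : {q : Gm n | ‖G.L q‖ ≤ L₀ ∧ ‖q‖ ≤ N}.Finite :=
    (finite_norm_le n N).subset fun q hq => hq.2
  have hfinR : {r : Gm n | ‖G.L r‖ < R ∧ ‖r‖ ≤ (N + Cf : ℕ)}.Finite :=
    (finite_norm_le n (N + Cf)).subset fun q hq => hq.2
  refine ⟨hfinW, ?_⟩
  set w : Finset (Gm n) := hfinW.toFinset with hw
  set rr : Finset (Gm n) := hfinR.toFinset with hrr
  have hwm : ∀ q, q ∈ w ↔ ‖G.L q‖ ≤ L₀ ∧ ‖q‖ ≤ N := fun q => by simp [hw]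
  have hrm : ∀ r, r ∈ rr ↔ ‖G.L r‖ < R ∧ ‖r‖ ≤ (N + Cf : ℕ) := fun q => by
    rw [hrr, Set.Finite.mem_toFinset]; rfl
  have hwcard : {q : Gm n | ‖G.L q‖ ≤ L₀ ∧ ‖q‖ ≤ N}.ncard = w.card := by
    rw [Set.ncard_eq_toFinset_card _ hfinW]
  have hrcard : {r : Gm n | ‖G.L r‖ < R ∧ ‖r‖ ≤ (N + Cf : ℕ)}.ncard = rr.card := by
    rw [Set.ncard_eq_toFinset_card _ hfinR]
  rw [hwcard, hrcard]
  -- the null space
  let V := EuclideanSpace ℂ w
  let Nn : Submodule ℂ V := (G.I.restrictScalars ℂ).comap (pf w)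
  have hNn : ∀ b : V, b ∈ Nn ↔ pf w b ∈ G.I := fun b => Iff.rfl
  let Φ : V →ₗ[ℂ] (rr → ℂ) :=
    { toFun := fun b r => G.Cc (pf w b) r
      map_add' := fun b c => by ext r; rw [map_add, G.Cc_add]; rfl
      map_smul' := fun a b => by ext r; rw [map_smul, G.Cc_smul]; rfl }
  have hker : LinearMap.ker Φ ≤ Nn := by
    intro b hb
    rw [LinearMap.mem_ker] at hb
    rw [hNn]
    apply hnull
    intro r hr
    by_cases hrr2 : r ∈ rr
    · exact congrFun hb ⟨r, hrr2⟩
    · rw [G.Cc_pf]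
      apply Finset.sum_eq_zero
      intro q _
      by_cases hc : G.cc (r - (q : Gm n)) = 0
      · rw [hc, mul_zero]
      · exfalso
        apply hrr2
        rw [hrm]
        refine ⟨hr, ?_⟩
        have hq := (hwm q).mp q.2
        have h1 : ‖G.L (r - (q : Gm n))‖ ≤ R + L₀ := by
          rw [map_sub]
          exact (norm_sub_le _ _).trans (add_le_add hr.le hq.1)
        have h2 := hCf _ hc h1
        have h3 : ‖r‖ ≤ ‖r - (q : Gm n)‖ + ‖(q : Gm n)‖ := by
          calc ‖r‖ = ‖(r - (q : Gm n)) + q‖ := by rw [sub_add_cancel]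
            _ ≤ _ := norm_add_le _ _
        push_cast
        linarith [hq.2]
  have hdim : Module.finrank ℂ (Nnᗮ : Submodule ℂ V) ≤ rr.card := by
    have h1 := Submodule.finrank_add_finrank_orthogonal (𝕜 := ℂ) Nn
    have h2 := LinearMap.finrank_range_add_finrank_ker Φ
    have h3 := Submodule.finrank_mono hker
    have h4 : Module.finrank ℂ (LinearMap.range Φ) ≤ rr.card := by
      refine (Submodule.finrank_le _).trans (le_of_eq ?_)
      rw [Module.finrank_fintype_fun_eq_card, Fintype.card_coe]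
    omega
  let bb := stdOrthonormalBasis ℂ (Nnᗮ : Submodule ℂ V)
  refine ⟨Module.finrank ℂ (Nnᗮ : Submodule ℂ V), fun j => pf w ((bb j : Nnᗮ) : V),
    by exact_mod_cast hdim, fun j q hq => ?_, fun j => ?_, fun y hy => ?_⟩
  · rw [coeff_pf] at hq
    by_contra hn
    have : q ∉ w := fun h => hn ((hwm q).mp h)
    rw [dif_neg this] at hq
    exact hq rfl
  · have hn1 : ‖((bb j : Nnᗮ) : V)‖ = 1 := bb.orthonormal.1 j
    have h1 : (pf w ((bb j : Nnᗮ) : V)).coeff.support ⊆ w := by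
      intro q hq
      rw [Finsupp.mem_support_iff, coeff_pf] at hq
      by_contra hn
      rw [dif_neg hn] at hq
      exact hq rfl
    calc ∑ q ∈ (pf w ((bb j : Nnᗮ) : V)).coeff.support, ‖(pf w ((bb j : Nnᗮ) : V)).coeff q‖ ^ 2
        ≤ ∑ q ∈ w, ‖(pf w ((bb j : Nnᗮ) : V)).coeff q‖ ^ 2 :=
          Finset.sum_le_sum_of_subset_of_nonneg h1 fun _ _ _ => by positivity
      _ = ∑ q : w, ‖((bb j : Nnᗮ) : V) q‖ ^ 2 := by
          rw [← Finset.sum_coe_sort w]
          refine Finset.sum_congr rfl fun q _ => ?_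
          rw [coeff_pf, dif_pos q.2]
      _ = ‖((bb j : Nnᗮ) : V)‖ ^ 2 := by rw [EuclideanSpace.norm_sq_eq]
      _ ≤ 1 := by rw [hn1]; norm_num
  · -- the evaluation vector
    let ay : V := WithLp.toLp 2 fun q : w => (starRingEnd ℂ) (ex (G.L (q : Gm n)) (cx y))
    have hinner : ∀ b : V, inner ℂ ay b = G.ev (cx y) (pf w b) := by
      intro b
      rw [G.ev_pf, PiLp.inner_apply]
      refine Finset.sum_congr rfl fun q _ => ?_
      rw [RCLike.inner_apply]
      change b q * (starRingEnd ℂ) ((starRingEnd ℂ) (ex (G.L (q : Gm n)) (cx y))) = _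
      rw [Complex.conj_conj]
    have hay : ay ∈ (Nnᗮ : Submodule ℂ V) := by
      rw [Submodule.mem_orthogonal']
      intro b hb
      rw [hinner]
      exact hy _ hb
    have hnorm : ‖ay‖ ^ 2 = w.card := by
      rw [EuclideanSpace.norm_sq_eq]
      have : ∀ q : w, ‖ay q‖ ^ 2 = 1 := by
        intro q
        change ‖(starRingEnd ℂ) (ex (G.L (q : Gm n)) (cx y))‖ ^ 2 = 1
        rw [RCLike.norm_conj, norm_ex_cx, one_pow]
      simp only [this]
      simp
    rw [← hnorm]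
    have hpars := bb.sum_sq_norm_inner_left (⟨ay, hay⟩ : (Nnᗮ : Submodule ℂ V))
    have h5 : ‖(⟨ay, hay⟩ : (Nnᗮ : Submodule ℂ V))‖ = ‖ay‖ := rfl
    rw [h5] at hpars
    rw [← hpars]
    refine Finset.sum_le_sum fun j _ => ?_
    rw [← hinner, Submodule.coe_inner]

end FQG

end FQ
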