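import Mathlib

/-!
Vectors of `ℤ²`, the hexagonal norm, and the lattice `Z v + N Z²` (problem MP_f9e819_nt).
-/

namespace Pool.Agent.Helper95.FareyVec

/-- hexagonal norm -/
def Hn (v : ℤ × ℤ) : ℕ := max (max v.1.natAbs v.2.natAbs) (v.1 + v.2).natAbs

/-- rotation by 60 degrees -/
def rot (v : ℤ × ℤ) : ℤ × ℤ := (-v.2, v.1 + v.2)

/-- the quarter turn coming from `S` -/
def flip (v : ℤ × ℤ) : ℤ × ℤ := (v.2, -v.1)

/-- same point of `P¹(ℤ/N)`; also membership of `w` in the lattice of `v` -/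
def eqv (N : ℤ) (v w : ℤ × ℤ) : Prop := N ∣ v.1 * w.2 - v.2 * w.1

/-- not in `pℤ²` -/
def All (p : ℤ) (v : ℤ × ℤ) : Prop := ¬ (p ∣ v.1 ∧ p ∣ v.2)

def TriEq (N : ℤ) (v w : ℤ × ℤ) : Prop :=
  eqv N v w ∨ eqv N v (rot w) ∨ eqv N v (rot (rot w))

def Ell (N : ℤ) (v : ℤ × ℤ) : Prop := N ∣ v.1 ^ 2 + v.1 * v.2 + v.2 ^ 2

/-- lexicographic key for vectors with `0 < x`, `0 ≤ y` -/
def K (v : ℤ × ℤ) : ℤ := (v.1 + v.2) ^ 2 + v.1

def IsMinVec (N p : ℤ) (v m : ℤ × ℤ) : Prop :=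
  0 < m.1 ∧ 0 < m.2 ∧ All p m ∧ eqv N v m ∧
    ∀ x : ℤ × ℤ, 0 < x.1 → 0 ≤ x.2 → All p x → TriEq N v x → K m ≤ K x

def Dir (N p : ℤ) (v : ℤ × ℤ) : Prop := ¬ Ell N v ∧ ∃ m, IsMinVec N p v m

/-! ### basic algebra -/

lemma eqv_refl (N : ℤ) (v : ℤ × ℤ) : eqv N v v := by
  unfold eqv
  have : v.1 * v.2 - v.2 * v.1 = 0 := by ring
  rw [this]; exact dvd_zero _

lemma eqv_symm {N : ℤ} {v w : ℤ × ℤ} (h : eqv N v w) : eqv N w v := by
  unfold eqv at *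
  have : w.1 * v.2 - w.2 * v.1 = -(v.1 * w.2 - v.2 * w.1) := by ring
  rw [this]; exact (dvd_neg).2 h

lemma eqv_comm {N : ℤ} {v w : ℤ × ℤ} : eqv N v w ↔ eqv N w v := ⟨eqv_symm, eqv_symm⟩

lemma eqv_rot {N : ℤ} {v w : ℤ × ℤ} : eqv N (rot v) (rot w) ↔ eqv N v w := by
  unfold eqv rot
  have : -v.2 * (w.1 + w.2) - (v.1 + v.2) * -w.2 = v.1 * w.2 - v.2 * w.1 := by ring
  simp only
  rw [this]

lemma eqv_flip {N : ℤ} {v w : ℤ × ℤ} : eqv N (flip v) (flip w) ↔ eqv N v w := by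
  unfold eqv flip
  have : v.2 * -w.1 - -v.1 * w.2 = v.1 * w.2 - v.2 * w.1 := by ring
  simp only
  rw [this]

lemma rot3 (v : ℤ × ℤ) : rot (rot (rot v)) = (-v.1, -v.2) := by
  unfold rot
  ext <;> simp

lemma flip2 (v : ℤ × ℤ) : flip (flip v) = (-v.1, -v.2) := by
  unfold flip
  ext <;> simp

lemma eqv_neg_right {N : ℤ} {v w : ℤ × ℤ} : eqv N v (-w.1, -w.2) ↔ eqv N v w := by
  unfold eqv
  have : v.1 * -w.2 - v.2 * -w.1 = -(v.1 * w.2 - v.2 * w.1) := by ring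
  simp only
  rw [this, dvd_neg]

lemma eqv_neg_left {N : ℤ} {v w : ℤ × ℤ} : eqv N (-v.1, -v.2) w ↔ eqv N v w := by
  rw [eqv_comm, eqv_neg_right, eqv_comm]

lemma eqv_rot3_right {N : ℤ} {v w : ℤ × ℤ} : eqv N v (rot (rot (rot w))) ↔ eqv N v w := by
  rw [rot3]; exact eqv_neg_right

lemma eqv_rot3_left {N : ℤ} {v w : ℤ × ℤ} : eqv N (rot (rot (rot v))) w ↔ eqv N v w := by
  rw [rot3]; exact eqv_neg_left

lemma eqv_flip2_left {N : ℤ} {v w : ℤ × ℤ} : eqv N (flip (flip v)) w ↔ eqv N v w := by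
  rw [flip2]; exact eqv_neg_left

lemma eqv_flip2_right {N : ℤ} {v w : ℤ × ℤ} : eqv N v (flip (flip w)) ↔ eqv N v w := by
  rw [flip2]; exact eqv_neg_right

lemma all_rot {p : ℤ} {v : ℤ × ℤ} : All p (rot v) ↔ All p v := by
  unfold All rot
  simp only
  constructor
  · rintro h ⟨h1, h2⟩
    exact h ⟨(dvd_neg).2 h2, dvd_add h1 h2⟩
  · rintro h ⟨h1, h2⟩
    have h3 : p ∣ v.2 := (dvd_neg).1 h1
    exact h ⟨(dvd_add_left h3).1 h2, h3⟩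

lemma all_flip {p : ℤ} {v : ℤ × ℤ} : All p (flip v) ↔ All p v := by
  unfold All flip
  simp only
  constructor
  · rintro h ⟨h1, h2⟩
    exact h ⟨h2, (dvd_neg).2 h1⟩
  · rintro h ⟨h1, h2⟩
    exact h ⟨(dvd_neg).1 h2, h1⟩

/-- transitivity through an allowed vector -/
lemma eqv_trans {p : ℤ} {n : ℕ} (hp : Prime p) {u v w : ℤ × ℤ} (hv : All p v)
    (h1 : eqv (p ^ n) u v) (h2 : eqv (p ^ n) v w) : eqv (p ^ n) u w := by
  unfold eqv at *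
  have hcop : ∀ x : ℤ, ¬ p ∣ x → IsCoprime (p ^ n) x := fun x hx =>
    IsCoprime.pow_left ((Prime.coprime_iff_not_dvd hp).2 hx)
  by_cases hx : p ∣ v.1
  · have hy : ¬ p ∣ v.2 := fun hy => hv ⟨hx, hy⟩
    refine (hcop _ hy).dvd_of_dvd_mul_left ?_
    have : v.2 * (u.1 * w.2 - u.2 * w.1) =
        (u.1 * v.2 - u.2 * v.1) * w.2 + u.2 * (v.1 * w.2 - v.2 * w.1) := by ring
    rw [this]
    exact dvd_add (Dvd.dvd.mul_right h1 _) (Dvd.dvd.mul_left h2 _)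
  · refine (hcop _ hx).dvd_of_dvd_mul_left ?_
    have : v.1 * (u.1 * w.2 - u.2 * w.1) =
        (u.1 * v.2 - u.2 * v.1) * w.1 + u.1 * (v.1 * w.2 - v.2 * w.1) := by ring
    rw [this]
    exact dvd_add (Dvd.dvd.mul_right h1 _) (Dvd.dvd.mul_left h2 _)

lemma ell_iff {N : ℤ} {v : ℤ × ℤ} : Ell N v ↔ eqv N v (rot v) := by
  unfold Ell eqv rot
  have : v.1 * (v.1 + v.2) - v.2 * -v.2 = v.1 ^ 2 + v.1 * v.2 + v.2 ^ 2 := by ring
  simp only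
  rw [this]

lemma ell_rot {N : ℤ} {v : ℤ × ℤ} : Ell N (rot v) ↔ Ell N v := by
  rw [ell_iff, ell_iff, eqv_rot]

lemma ell_congr {p : ℤ} {n : ℕ} (hp : Prime p) {v w : ℤ × ℤ} (hv : All p v)
    (h : eqv (p ^ n) v w) : Ell (p ^ n) v → Ell (p ^ n) w := by
  rw [ell_iff, ell_iff]
  intro h1
  have h2 : eqv (p ^ n) (rot v) (rot w) := eqv_rot.2 h
  exact eqv_trans hp hv (eqv_symm h) (eqv_trans hp (all_rot.2 hv) h1 h2)

lemma triEq_congr {p : ℤ} {n : ℕ} (hp : Prime p) {v w x : ℤ × ℤ} (hv : All p v)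
    (h : eqv (p ^ n) v w) (h2 : TriEq (p ^ n) v x) : TriEq (p ^ n) w x := by
  rcases h2 with h2 | h2 | h2
  · exact Or.inl (eqv_trans hp hv (eqv_symm h) h2)
  · exact Or.inr (Or.inl (eqv_trans hp hv (eqv_symm h) h2))
  · exact Or.inr (Or.inr (eqv_trans hp hv (eqv_symm h) h2))

lemma triEq_rot_left {N : ℤ} {v x : ℤ × ℤ} : TriEq N (rot v) x ↔ TriEq N v x := by
  unfold TriEq
  rw [eqv_rot, eqv_rot]
  have : eqv N (rot v) x ↔ eqv N v (rot (rot x)) := by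
    rw [← eqv_rot (v := rot v) (w := x), ← eqv_rot (v := rot (rot v)) (w := rot x), eqv_rot3_left]
  rw [this]
  tauto

lemma triEq_rot_right {N : ℤ} {v x : ℤ × ℤ} : TriEq N v (rot x) ↔ TriEq N v x := by
  unfold TriEq
  rw [eqv_rot3_right]
  tauto

/-! ### norm -/

lemma natAbs_le_iff' (x : ℤ) (k : ℤ) : (x.natAbs : ℤ) ≤ k ↔ -k ≤ x ∧ x ≤ k := by
  omega

lemma Hn_le_iff (v : ℤ × ℤ) (k : ℤ) : (Hn v : ℤ) ≤ k ↔
    (-k ≤ v.1 ∧ v.1 ≤ k) ∧ (-k ≤ v.2 ∧ v.2 ≤ k) ∧ (-k ≤ v.1 + v.2 ∧ v.1 + v.2 ≤ k) := by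
  unfold Hn
  rw [Nat.cast_max, Nat.cast_max, max_le_iff, max_le_iff, natAbs_le_iff', natAbs_le_iff',
    natAbs_le_iff', and_assoc]

lemma Hn_lt_iff (v : ℤ × ℤ) (k : ℤ) : (Hn v : ℤ) < k ↔
    (-k < v.1 ∧ v.1 < k) ∧ (-k < v.2 ∧ v.2 < k) ∧ (-k < v.1 + v.2 ∧ v.1 + v.2 < k) := by
  have h := Hn_le_iff v (k - 1)
  constructor
  · intro h1
    have := h.1 (by omega)
    omega
  · intro h1
    have := h.2 (by omega)
    omega

lemma Hn_bounds (v : ℤ × ℤ) :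
    (-(Hn v : ℤ) ≤ v.1 ∧ v.1 ≤ Hn v) ∧ (-(Hn v : ℤ) ≤ v.2 ∧ v.2 ≤ Hn v) ∧
      (-(Hn v : ℤ) ≤ v.1 + v.2 ∧ v.1 + v.2 ≤ Hn v) :=
  (Hn_le_iff v _).1 le_rfl

lemma Hn_add (v w : ℤ × ℤ) : Hn (v + w) ≤ Hn v + Hn w := by
  have h : (Hn (v + w) : ℤ) ≤ (Hn v : ℤ) + Hn w := by
    rw [Hn_le_iff]
    have h1 := Hn_bounds v
    have h2 := Hn_bounds w
    simp only [Prod.fst_add, Prod.snd_add]
    omega
  exact_mod_cast h

lemma Hn_sub (v w : ℤ × ℤ) : Hn (v - w) ≤ Hn v + Hn w := by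
  have h : (Hn (v - w) : ℤ) ≤ (Hn v : ℤ) + Hn w := by
    rw [Hn_le_iff]
    have h1 := Hn_bounds v
    have h2 := Hn_bounds w
    simp only [Prod.fst_sub, Prod.snd_sub]
    omega
  exact_mod_cast h

lemma Hn_smul (k : ℤ) (v : ℤ × ℤ) : Hn (k • v) = k.natAbs * Hn v := by
  unfold Hn
  simp only [Prod.smul_fst, Prod.smul_snd, smul_eq_mul]
  rw [← mul_add, Int.natAbs_mul, Int.natAbs_mul, Int.natAbs_mul, Nat.mul_max_mul_left,
    Nat.mul_max_mul_left]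

lemma Hn_rot (v : ℤ × ℤ) : Hn (rot v) = Hn v := by
  apply le_antisymm
  · have h : (Hn (rot v) : ℤ) ≤ (Hn v : ℤ) := by
      rw [Hn_le_iff]
      have h1 := Hn_bounds v
      unfold rot
      simp only
      omega
    exact_mod_cast h
  · have h : (Hn v : ℤ) ≤ (Hn (rot v) : ℤ) := by
      rw [Hn_le_iff]
      have h1 := Hn_bounds (rot v)
      unfold rot at *
      simp only at *
      omega
    exact_mod_cast h

lemma Hn_pos {v : ℤ × ℤ} (h : v ≠ 0) : 0 < Hn v := by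
  by_contra hc
  apply h
  have h1 := Hn_bounds v
  ext
  · simp only [Prod.fst_zero]; omega
  · simp only [Prod.snd_zero]; omega

lemma Hn_of_pos {v : ℤ × ℤ} (h1 : 0 < v.1) (h2 : 0 ≤ v.2) : (Hn v : ℤ) = v.1 + v.2 := by
  apply le_antisymm
  · rw [Hn_le_iff]
    omega
  · have := Hn_bounds v
    omega

/-- every nonzero vector is, up to rotation and sign, in the sector `0 < x`, `0 ≤ y` -/
lemma exists_sector {v : ℤ × ℤ} (h : v ≠ 0) :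
    ∃ y : ℤ × ℤ, 0 < y.1 ∧ 0 ≤ y.2 ∧ Hn y = Hn v ∧
      (∀ p, All p v → All p y) ∧ ∀ N w, eqv N w v → TriEq N w y := by
  have hne : v.1 ≠ 0 ∨ v.2 ≠ 0 := by
    by_contra hc
    push Not at hc
    apply h
    ext
    · exact hc.1
    · exact hc.2
  have hnegA : ∀ (p : ℤ) (u : ℤ × ℤ), All p u → All p (-u.1, -u.2) := by
    intro p u hu
    unfold All at *
    simpa using hu
  have hnegH : ∀ u : ℤ × ℤ, Hn (-u.1, -u.2) = Hn u := by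
    intro u
    have h1 := Hn_smul (-1) u
    have e : ((-1 : ℤ) • u) = (-u.1, -u.2) := by ext <;> simp
    rw [e] at h1
    simpa using h1
  -- six cases
  have key : (0 < v.1 ∧ 0 ≤ v.2) ∨ (v.1 < 0 ∧ v.2 ≤ 0) ∨ (0 < -v.2 ∧ 0 ≤ v.1 + v.2) ∨
      (0 < v.2 ∧ v.1 + v.2 ≤ 0) ∨ (v.1 + v.2 < 0 ∧ 0 ≤ v.1) ∨ (0 < v.1 + v.2 ∧ v.1 ≤ 0) := by
    omega
  rcases key with h1 | h1 | h1 | h1 | h1 | h1
  · exact ⟨v, h1.1, h1.2, rfl, fun _ h => h, fun _ _ h => Or.inl h⟩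
  · refine ⟨(-v.1, -v.2), by simpa using h1.1, by simpa using h1.2, hnegH v, fun p h => hnegA p v h,
      fun N w h => Or.inl (eqv_neg_right.2 h)⟩
  · refine ⟨rot v, h1.1, h1.2, Hn_rot v, fun p h => all_rot.2 h, fun N w h => ?_⟩
    right; right
    rwa [eqv_rot3_right]
  · refine ⟨(-(rot v).1, -(rot v).2), by simpa [rot] using h1.1, ?_, ?_,
      fun p h => hnegA p _ (all_rot.2 h), fun N w h => ?_⟩
    · show 0 ≤ -(v.1 + v.2)
      omega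
    · rw [hnegH, Hn_rot]
    · right; right
      have : rot (rot (-(rot v).1, -(rot v).2)) = (-(rot (rot (rot v))).1, -(rot (rot (rot v))).2) := by
        unfold rot
        ext <;> simp
      rw [this, eqv_neg_right, eqv_rot3_right]
      exact h
  · refine ⟨rot (rot v), ?_, ?_, ?_, fun p h => all_rot.2 (all_rot.2 h), fun N w h => ?_⟩
    · show 0 < -(v.1 + v.2)
      omega
    · show 0 ≤ -v.2 + (v.1 + v.2)
      omega
    · rw [Hn_rot, Hn_rot]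
    · right; left
      rwa [eqv_rot3_right]
  · refine ⟨(-(rot (rot v)).1, -(rot (rot v)).2), ?_, ?_, ?_,
      fun p h => hnegA p _ (all_rot.2 (all_rot.2 h)), fun N w h => ?_⟩
    · show 0 < -(-(v.1 + v.2))
      omega
    · show 0 ≤ -(-v.2 + (v.1 + v.2))
      omega
    · rw [hnegH, Hn_rot, Hn_rot]
    · right; left
      have : rot (-(rot (rot v)).1, -(rot (rot v)).2) = (-(rot (rot (rot v))).1, -(rot (rot (rot v))).2) := by
        unfold rot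
        ext <;> simp
      rw [this, eqv_neg_right, eqv_rot3_right]
      exact h

lemma le_of_K_le {a b : ℤ × ℤ} (ha : 0 < a.1) (hb1 : 0 < b.1) (hb2 : 0 ≤ b.2)
    (h : K a ≤ K b) : a.1 + a.2 ≤ b.1 + b.2 := by
  unfold K at h
  by_contra hc
  push Not at hc
  nlinarith

lemma eq_of_K_eq {a b : ℤ × ℤ} (ha : 0 < a.1) (ha2 : 0 ≤ a.2) (hb1 : 0 < b.1) (hb2 : 0 ≤ b.2)
    (h : K a = K b) : a = b := by
  have h1 := le_of_K_le ha hb1 hb2 h.le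
  have h2 := le_of_K_le hb1 ha ha2 h.ge
  have h3 : a.1 + a.2 = b.1 + b.2 := le_antisymm h1 h2
  unfold K at h
  rw [h3] at h
  ext <;> linarith

/-- minimality in the norm -/
lemma IsMinVec.min {N p : ℤ} {v m : ℤ × ℤ} (hm : IsMinVec N p v m) {x : ℤ × ℤ}
    (hx : eqv N v x) (hax : All p x) : Hn m ≤ Hn x := by
  obtain ⟨h1, h2, -, -, h5⟩ := hm
  have hx0 : x ≠ 0 := by
    rintro rfl
    exact hax ⟨dvd_zero _, dvd_zero _⟩
  obtain ⟨y, hy1, hy2, hy3, hy4, hy5⟩ := exists_sector hx0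
  have h6 := h5 y hy1 hy2 (hy4 p hax) (hy5 N v hx)
  have h7 := le_of_K_le h1 hy1 hy2 h6
  rw [← hy3]
  have e1 := Hn_of_pos h1 h2.le
  have e2 := Hn_of_pos hy1 hy2
  omega

/-- A vector `z ∈ pℤ²` shorter than the minimal vector has strictly mixed signs. -/
lemma mixed {m z : ℤ × ℤ} (h1 : 0 < m.1) (h2 : 0 < m.2) (hz : z ≠ 0) (hlt : Hn z < Hn m)
    (hp : Hn m ≤ Hn (m - z)) (hq : Hn m ≤ Hn (m + z)) :
    (0 < z.1 ∧ z.2 < 0) ∨ (z.1 < 0 ∧ 0 < z.2) := by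
  have hne : z.1 ≠ 0 ∨ z.2 ≠ 0 := by
    by_contra hc
    push Not at hc
    apply hz
    ext
    · exact hc.1
    · exact hc.2
  have hm := Hn_of_pos h1 h2.le
  have hz1 := (Hn_lt_iff z (m.1 + m.2)).1 (by omega)
  by_contra hc
  have hcase : (0 ≤ z.1 ∧ 0 ≤ z.2) ∨ (z.1 ≤ 0 ∧ z.2 ≤ 0) := by omega
  rcases hcase with hs | hs
  · have h3 : ¬ (Hn (m - z) : ℤ) < m.1 + m.2 := by omega
    rw [Hn_lt_iff] at h3
    simp only [Prod.fst_sub, Prod.snd_sub] at h3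
    omega
  · have h3 : ¬ (Hn (m + z) : ℤ) < m.1 + m.2 := by omega
    rw [Hn_lt_iff] at h3
    simp only [Prod.fst_add, Prod.snd_add] at h3
    omega

/-- height of the vector seen from the parent triangle -/
def Hp (v : ℤ × ℤ) : ℕ := max (max v.1.natAbs v.2.natAbs) (v.1 - v.2).natAbs

lemma Hp_le_iff (v : ℤ × ℤ) (k : ℤ) : (Hp v : ℤ) ≤ k ↔
    (-k ≤ v.1 ∧ v.1 ≤ k) ∧ (-k ≤ v.2 ∧ v.2 ≤ k) ∧ (-k ≤ v.1 - v.2 ∧ v.1 - v.2 ≤ k) := by
  unfold Hp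
  rw [Nat.cast_max, Nat.cast_max, max_le_iff, max_le_iff, natAbs_le_iff', natAbs_le_iff',
    natAbs_le_iff', and_assoc]

lemma Hp_lt_iff (v : ℤ × ℤ) (k : ℤ) : (Hp v : ℤ) < k ↔
    (-k < v.1 ∧ v.1 < k) ∧ (-k < v.2 ∧ v.2 < k) ∧ (-k < v.1 - v.2 ∧ v.1 - v.2 < k) := by
  have h := Hp_le_iff v (k - 1)
  constructor
  · intro h1
    have := h.1 (by omega)
    omega
  · intro h1
    have := h.2 (by omega)
    omega

lemma Hp_of_pos {v : ℤ × ℤ} (h1 : 0 < v.1) (h2 : 0 < v.2) : (Hp v : ℤ) = max v.1 v.2 := by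
  apply le_antisymm
  · rw [Hp_le_iff]
    omega
  · have := (Hp_le_iff v _).1 le_rfl
    omega

lemma key1 {m v : ℤ × ℤ} (h1 : 0 < m.1) (h2 : 0 < m.2) (hv1 : 0 < v.1) (hv2 : 0 < v.2)
    (hle : Hp v ≤ Hp m) (hlt : Hn m < Hn v) : Hn (m - v) < Hn m := by
  have hm := Hn_of_pos h1 h2.le
  have hv := Hn_of_pos hv1 hv2.le
  have pm := Hp_of_pos h1 h2
  have pv := Hp_of_pos hv1 hv2
  have h3 : (Hn (m - v) : ℤ) < m.1 + m.2 := by
    rw [Hn_lt_iff]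
    simp only [Prod.fst_sub, Prod.snd_sub]
    omega
  omega

lemma key2 {m z : ℤ × ℤ} (h1 : 0 < m.1) (h2 : 0 < m.2)
    (hlt : Hp z < Hp m) (hle : Hn m ≤ Hn z) : Hn (m - z) < Hn m ∨ Hn (m + z) < Hn m := by
  have hm := Hn_of_pos h1 h2.le
  have pm := Hp_of_pos h1 h2
  have hz := (Hp_lt_iff z (max m.1 m.2)).1 (by omega)
  have hz2 : ¬ (Hn z : ℤ) < m.1 + m.2 := by omega
  rw [Hn_lt_iff] at hz2
  have hcase : (0 < z.1 ∧ 0 < z.2) ∨ (z.1 < 0 ∧ z.2 < 0) := by omega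
  rcases hcase with hs | hs
  · left
    have h3 : (Hn (m - z) : ℤ) < m.1 + m.2 := by
      rw [Hn_lt_iff]
      simp only [Prod.fst_sub, Prod.snd_sub]
      omega
    omega
  · right
    have h3 : (Hn (m + z) : ℤ) < m.1 + m.2 := by
      rw [Hn_lt_iff]
      simp only [Prod.fst_add, Prod.snd_add]
      omega
    omega

end Pool.Agent.Helper95.FareyVec
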