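import Mathlib
import Pool.Agent.Helper95.FareyVec

/-!
Short vectors in a lattice with basis `e1, e2` (problem MP_f9e819_nt).
-/

namespace Pool.Agent.Helper95.FareyVec

lemma not_all_iff {p : ℤ} {v : ℤ × ℤ} : ¬ All p v ↔ (p ∣ v.1 ∧ p ∣ v.2) := by
  unfold All; tauto

/-- the lattice vector with coordinates `i, j` -/
def Lc (e1 e2 : ℤ × ℤ) (i j : ℤ) : ℤ × ℤ := i • e1 + j • e2

lemma Lc_comb (e1 e2 : ℤ × ℤ) (i j i' j' a b : ℤ) :
    a • Lc e1 e2 i j + b • Lc e1 e2 i' j' = Lc e1 e2 (a * i + b * i') (a * j + b * j') := by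
  unfold Lc
  ext <;> simp <;> ring

lemma notAll_comb {p : ℤ} {v w : ℤ × ℤ} (hv : ¬ All p v) (hw : ¬ All p w) (a b : ℤ) :
    ¬ All p (a • v + b • w) := by
  rw [not_all_iff] at *
  simp only [Prod.fst_add, Prod.snd_add, Prod.smul_fst, Prod.smul_snd, smul_eq_mul]
  exact ⟨dvd_add (Dvd.dvd.mul_left hv.1 _) (Dvd.dvd.mul_left hw.1 _),
    dvd_add (Dvd.dvd.mul_left hv.2 _) (Dvd.dvd.mul_left hw.2 _)⟩

/-- rounding: for `k ≠ 0` there is `s` with `2|t - k s| ≤ |k|` -/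
lemma exists_round (t k : ℤ) (hk : k ≠ 0) : ∃ s : ℤ, 2 * (t - k * s).natAbs ≤ k.natAbs := by
  refine ⟨(2 * t + k.natAbs) / (2 * k.natAbs) * k.sign, ?_⟩
  have hk' : (0 : ℤ) < k.natAbs := by omega
  have h1 : k * ((2 * t + k.natAbs) / (2 * k.natAbs) * k.sign) =
      (k.natAbs : ℤ) * ((2 * t + k.natAbs) / (2 * k.natAbs)) := by
    have : k * k.sign = k.natAbs := by
      rw [mul_comm]; exact Int.sign_mul_self_eq_natAbs k
    calc k * ((2 * t + k.natAbs) / (2 * k.natAbs) * k.sign)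
        = (k * k.sign) * ((2 * t + k.natAbs) / (2 * k.natAbs)) := by ring
      _ = _ := by rw [this]
  rw [h1]
  set q := (2 * t + (k.natAbs : ℤ)) / (2 * k.natAbs) with hq
  have h2 := Int.emod_add_mul_ediv (2 * t + (k.natAbs : ℤ)) (2 * k.natAbs)
  have h3 := Int.emod_nonneg (2 * t + (k.natAbs : ℤ)) (show (2 * (k.natAbs : ℤ)) ≠ 0 by omega)
  have h4 := Int.emod_lt_of_pos (2 * t + (k.natAbs : ℤ)) (show (0 : ℤ) < 2 * (k.natAbs : ℤ) by omega)
  rw [← hq] at h2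
  have h5 : 2 * (k.natAbs : ℤ) * q = 2 * ((k.natAbs : ℤ) * q) := by ring
  omega

/-- main reduction: a primitive short vector of `pℤ²` together with a minimal allowed vector is a
basis. -/
lemma unimod {p : ℤ} {e1 e2 : ℤ × ℤ} {im jm i0 j0 s t : ℤ}
    (hm : All p (Lc e1 e2 im jm))
    (hmin : ∀ i j, All p (Lc e1 e2 i j) → Hn (Lc e1 e2 im jm) ≤ Hn (Lc e1 e2 i j))
    (hst : i0 * s + j0 * t = 1) (hz : ¬ All p (Lc e1 e2 i0 j0))
    (hlt : Hn (Lc e1 e2 i0 j0) < Hn (Lc e1 e2 im jm)) :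
    (i0 * jm - j0 * im).natAbs = 1 := by
  set k := i0 * jm - j0 * im with hk
  set μ := Hn (Lc e1 e2 im jm) with hμ
  -- m = k w + τ z0
  set τ := im * s + jm * t with hτ
  have hmi : k * (-t) + τ * i0 = im := by
    rw [hk, hτ]; linear_combination im * hst
  have hmj : k * s + τ * j0 = jm := by
    rw [hk, hτ]; linear_combination jm * hst
  have hk0 : k ≠ 0 := by
    intro h0
    apply notAll_comb hz hz τ 0 |> fun h => h ?_
    rw [Lc_comb]
    have e1' : τ * i0 + 0 * i0 = im := by rw [← hmi, h0]; ring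
    have e2' : τ * j0 + 0 * j0 = jm := by rw [← hmj, h0]; ring
    rw [e1', e2']; exact hm
  by_contra hne
  have hk2 : 2 ≤ k.natAbs := by omega
  obtain ⟨r, hr⟩ := exists_round τ k hk0
  -- w' = w + r z0
  set iw := -t + r * i0 with hiw
  set jw := s + r * j0 with hjw
  have hkw : k • Lc e1 e2 iw jw = (1 : ℤ) • Lc e1 e2 im jm + (-(τ - k * r)) • Lc e1 e2 i0 j0 := by
    have h1 : k • Lc e1 e2 iw jw = k • Lc e1 e2 iw jw + (0 : ℤ) • Lc e1 e2 i0 j0 := by simp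
    rw [h1, Lc_comb, Lc_comb]
    congr 1
    · rw [hiw]; linear_combination hmi
    · rw [hjw]; linear_combination hmj
  have hH : k.natAbs * Hn (Lc e1 e2 iw jw) ≤ μ + (τ - k * r).natAbs * Hn (Lc e1 e2 i0 j0) := by
    rw [← Hn_smul, hkw]
    refine (Hn_add _ _).trans ?_
    rw [Hn_smul, Hn_smul, Int.natAbs_neg]
    simp [hμ]
  have hlt2 : Hn (Lc e1 e2 iw jw) < μ := by
    by_contra hge
    push Not at hge
    have h1 : k.natAbs * μ ≤ k.natAbs * Hn (Lc e1 e2 iw jw) := Nat.mul_le_mul_left _ hge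
    have h2 : 2 * ((τ - k * r).natAbs * Hn (Lc e1 e2 i0 j0)) ≤ k.natAbs * Hn (Lc e1 e2 i0 j0) := by
      rw [← mul_assoc]; exact Nat.mul_le_mul_right _ hr
    have h3 : k.natAbs * (Hn (Lc e1 e2 i0 j0) + 1) ≤ k.natAbs * μ := Nat.mul_le_mul_left _ hlt
    have h4 : 2 * μ ≤ k.natAbs * μ := Nat.mul_le_mul_right _ hk2
    have h5 : k.natAbs * (Hn (Lc e1 e2 i0 j0) + 1) = k.natAbs * Hn (Lc e1 e2 i0 j0) + k.natAbs := by
      ring
    omega
  have hw : ¬ All p (Lc e1 e2 iw jw) := fun h => absurd (hmin iw jw h) (by omega)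
  apply notAll_comb hw hz k (τ - k * r) |> fun h => h ?_
  rw [Lc_comb]
  have e1' : k * iw + (τ - k * r) * i0 = im := by rw [hiw]; linear_combination hmi
  have e2' : k * jw + (τ - k * r) * j0 = jm := by rw [hjw]; linear_combination hmj
  rw [e1', e2']; exact hm

/-- primitive part of a short vector in `pℤ²` -/
lemma prim_part {p : ℤ} {e1 e2 : ℤ × ℤ} {μ : ℕ} {i j : ℤ}
    (hmin : ∀ i j, All p (Lc e1 e2 i j) → μ ≤ Hn (Lc e1 e2 i j))
    (h0 : ¬ (i = 0 ∧ j = 0)) (hlt : Hn (Lc e1 e2 i j) < μ) :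
    ∃ i0 j0 s t : ℤ, i0 * s + j0 * t = 1 ∧ i = i0 * Int.gcd i j ∧ j = j0 * Int.gcd i j ∧
      ¬ All p (Lc e1 e2 i0 j0) ∧ Hn (Lc e1 e2 i0 j0) < μ := by
  have hg : 0 < Int.gcd i j := by
    rw [Int.gcd_pos_iff]; tauto
  obtain ⟨i0, j0, hc, hi, hj⟩ := Int.exists_gcd_one hg
  have hb := Int.gcd_eq_gcd_ab i0 j0
  rw [hc] at hb
  have hz : Lc e1 e2 i j = (Int.gcd i j : ℤ) • Lc e1 e2 i0 j0 := by
    have h1 : (Int.gcd i j : ℤ) • Lc e1 e2 i0 j0 =
      (Int.gcd i j : ℤ) • Lc e1 e2 i0 j0 + (0 : ℤ) • Lc e1 e2 i0 j0 := by simp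
    rw [h1, Lc_comb]
    congr 1
    · rw [zero_mul, add_zero, mul_comm]; exact hi
    · rw [zero_mul, add_zero, mul_comm]; exact hj
  have hH : Hn (Lc e1 e2 i0 j0) < μ := by
    refine lt_of_le_of_lt ?_ hlt
    rw [hz, Hn_smul, Int.natAbs_natCast]
    exact Nat.le_mul_of_pos_left _ hg
  refine ⟨i0, j0, i0.gcdA j0, i0.gcdB j0, ?_, hi, hj, ?_, hH⟩
  · exact_mod_cast hb.symm
  · intro h
    exact absurd (hmin i0 j0 h) (by omega)

/-- F4 -/
lemma det_eq_gcd {p : ℤ} {e1 e2 : ℤ × ℤ} {im jm i j : ℤ}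
    (hm : All p (Lc e1 e2 im jm))
    (hmin : ∀ i j, All p (Lc e1 e2 i j) → Hn (Lc e1 e2 im jm) ≤ Hn (Lc e1 e2 i j))
    (h0 : ¬ (i = 0 ∧ j = 0)) (hlt : Hn (Lc e1 e2 i j) < Hn (Lc e1 e2 im jm)) :
    (i * jm - j * im).natAbs = Int.gcd i j := by
  obtain ⟨i0, j0, s, t, hst, hi, hj, hz, hH⟩ := prim_part hmin h0 hlt
  have h1 := unimod hm hmin hst hz hH
  have h2 : i * jm - j * im = (i0 * jm - j0 * im) * Int.gcd i j := by
    linear_combination jm * hi - im * hj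
  rw [h2, Int.natAbs_mul, h1, Int.natAbs_natCast, one_mul]

/-- F5 -/
lemma parallel {p : ℤ} (hp : Prime p) {e1 e2 : ℤ × ℤ} {im jm i j i' j' : ℤ}
    (hm : All p (Lc e1 e2 im jm))
    (hmin : ∀ i j, All p (Lc e1 e2 i j) → Hn (Lc e1 e2 im jm) ≤ Hn (Lc e1 e2 i j))
    (h0 : ¬ (i = 0 ∧ j = 0)) (hlt : Hn (Lc e1 e2 i j) < Hn (Lc e1 e2 im jm))
    (hlt' : Hn (Lc e1 e2 i' j') < Hn (Lc e1 e2 im jm)) (hz' : ¬ All p (Lc e1 e2 i' j')) :
    i * j' = j * i' := by
  obtain ⟨i0, j0, s, t, hst, hi, hj, hz, hH⟩ := prim_part hmin h0 hlt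
  have h1 := unimod hm hmin hst hz hH
  set k := i0 * jm - j0 * im with hk
  have hkk : k * k = 1 := by
    rcases Int.natAbs_eq_iff.1 h1 with h | h <;> rw [h] <;> norm_num
  set β := i0 * j' - j0 * i' with hβ
  suffices hβ0 : β = 0 by
    have : i * j' - j * i' = β * Int.gcd i j := by
      rw [hβ]
      linear_combination j' * hi - i' * hj
    rw [hβ0] at this
    linarith
  set μ := Hn (Lc e1 e2 im jm) with hμ
  -- z' = α z0 + β k m
  set α := (i' - β * k * im) * s + (j' - β * k * jm) * t with hα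
  have hpar : i0 * (j' - β * k * jm) - j0 * (i' - β * k * im) = 0 := by
    have : i0 * (j' - β * k * jm) - j0 * (i' - β * k * im) = β - β * (k * k) := by
      rw [hβ]
      have : i0 * (j' - (i0 * j' - j0 * i') * k * jm) - j0 * (i' - (i0 * j' - j0 * i') * k * im) =
        (i0 * j' - j0 * i') - (i0 * j' - j0 * i') * k * (i0 * jm - j0 * im) := by ring
      rw [this, ← hk]
      ring
    rw [this, hkk]; ring
  have hzi : α * i0 + (β * k) * im = i' := by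
    rw [hα]; linear_combination (i' - β * k * im) * hst + t * hpar
  have hzj : α * j0 + (β * k) * jm = j' := by
    rw [hα]; linear_combination (j' - β * k * jm) * hst - s * hpar
  by_contra hβne
  -- p divides β k
  have hpb : p ∣ β * k := by
    have h2 : ¬ All p ((β * k) • Lc e1 e2 im jm) := by
      have h3 : (β * k) • Lc e1 e2 im jm = (1 : ℤ) • Lc e1 e2 i' j' + (-α) • Lc e1 e2 i0 j0 := by
        have h4 : (β * k) • Lc e1 e2 im jm =
          (β * k) • Lc e1 e2 im jm + (0 : ℤ) • Lc e1 e2 im jm := by simp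
        rw [h4, Lc_comb, Lc_comb]
        congr 1
        · linear_combination hzi
        · linear_combination hzj
      rw [h3]
      exact notAll_comb hz' hz _ _
    rw [not_all_iff] at h2
    simp only [Prod.smul_fst, Prod.smul_snd, smul_eq_mul] at h2
    by_contra hnd
    apply hm
    exact ⟨(hp.dvd_or_dvd h2.1).resolve_left hnd, (hp.dvd_or_dvd h2.2).resolve_left hnd⟩
  have hbk : (β * k).natAbs = β.natAbs := by
    rw [Int.natAbs_mul, h1, mul_one]
  have hβ2 : 2 ≤ β.natAbs := by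
    have h2 : p.natAbs ∣ β.natAbs := by
      rw [← hbk]; exact Int.natAbs_dvd_natAbs.2 hpb
    have h3 : 0 < β.natAbs := by omega
    have h4 : p.natAbs ≤ β.natAbs := Nat.le_of_dvd h3 h2
    have h5 : p.natAbs.Prime := Int.prime_iff_natAbs_prime.1 hp
    have := h5.two_le
    omega
  have hbk0 : β * k ≠ 0 := by
    intro h
    rw [h] at hbk
    simp at hbk
    omega
  obtain ⟨r, hr⟩ := exists_round α (β * k) hbk0
  rw [hbk] at hr
  -- m + r z0
  have hAll : All p (Lc e1 e2 (im + r * i0) (jm + r * j0)) := by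
    by_contra hna
    apply notAll_comb hna hz 1 (-r) |> fun h => h ?_
    rw [Lc_comb]
    have e1' : 1 * (im + r * i0) + -r * i0 = im := by ring
    have e2' : 1 * (jm + r * j0) + -r * j0 = jm := by ring
    rw [e1', e2']; exact hm
  have hge := hmin _ _ hAll
  have hkw : (β * k) • Lc e1 e2 (im + r * i0) (jm + r * j0) =
      (1 : ℤ) • Lc e1 e2 i' j' + (-(α - (β * k) * r)) • Lc e1 e2 i0 j0 := by
    have h4 : (β * k) • Lc e1 e2 (im + r * i0) (jm + r * j0) =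
      (β * k) • Lc e1 e2 (im + r * i0) (jm + r * j0) + (0 : ℤ) • Lc e1 e2 i0 j0 := by simp
    rw [h4, Lc_comb, Lc_comb]
    congr 1
    · linear_combination hzi
    · linear_combination hzj
  have hH2 : β.natAbs * Hn (Lc e1 e2 (im + r * i0) (jm + r * j0)) ≤
      Hn (Lc e1 e2 i' j') + (α - (β * k) * r).natAbs * Hn (Lc e1 e2 i0 j0) := by
    rw [← hbk, ← Hn_smul, hkw]
    refine (Hn_add _ _).trans ?_
    rw [Hn_smul, Hn_smul, Int.natAbs_neg]
    simp
  have h6 : β.natAbs * μ ≤ β.natAbs * Hn (Lc e1 e2 (im + r * i0) (jm + r * j0)) :=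
    Nat.mul_le_mul_left _ hge
  have h7 : 2 * ((α - (β * k) * r).natAbs * Hn (Lc e1 e2 i0 j0)) ≤
      β.natAbs * Hn (Lc e1 e2 i0 j0) := by
    rw [← mul_assoc]; exact Nat.mul_le_mul_right _ hr
  have h8 : β.natAbs * (Hn (Lc e1 e2 i0 j0) + 1) ≤ β.natAbs * μ := Nat.mul_le_mul_left _ hH
  have h9 : 2 * μ ≤ β.natAbs * μ := Nat.mul_le_mul_right _ hβ2
  have h10 : β.natAbs * (Hn (Lc e1 e2 i0 j0) + 1) = β.natAbs * Hn (Lc e1 e2 i0 j0) + β.natAbs := by
    ring
  omega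

end Pool.Agent.Helper95.FareyVec
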