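import Mathlib
import Pool.Agent.Helper95.FareyShort

/-!
The inductive step and the height bounds (problem MP_f9e819_nt).
-/

namespace Pool.Agent.Helper95.FareyVec

lemma all_sub {p : ℤ} {m z : ℤ × ℤ} (hm : All p m) (hz : ¬ All p z) : All p (m - z) := by
  rw [not_all_iff] at hz
  rintro ⟨h1, h2⟩
  simp only [Prod.fst_sub, Prod.snd_sub] at h1 h2
  exact hm ⟨(dvd_sub_left hz.1).1 h1, (dvd_sub_left hz.2).1 h2⟩

lemma all_add {p : ℤ} {m z : ℤ × ℤ} (hm : All p m) (hz : ¬ All p z) : All p (m + z) := by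
  rw [not_all_iff] at hz
  rintro ⟨h1, h2⟩
  simp only [Prod.fst_add, Prod.snd_add] at h1 h2
  exact hm ⟨(dvd_add_left hz.1).1 h1, (dvd_add_left hz.2).1 h2⟩

lemma Lc_sub (e1 e2 : ℤ × ℤ) (i j i' j' : ℤ) :
    Lc e1 e2 i j - Lc e1 e2 i' j' = Lc e1 e2 (i - i') (j - j') := by
  unfold Lc
  ext <;> simp <;> ring

lemma Lc_add (e1 e2 : ℤ × ℤ) (i j i' j' : ℤ) :
    Lc e1 e2 i j + Lc e1 e2 i' j' = Lc e1 e2 (i + i') (j + j') := by
  unfold Lc
  ext <;> simp <;> ring

lemma Lc_one (e1 e2 : ℤ × ℤ) : Lc e1 e2 1 0 = e1 := by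
  unfold Lc
  ext <;> simp

lemma Lc_zero (e1 e2 : ℤ × ℤ) : Lc e1 e2 0 0 = 0 := by
  unfold Lc
  ext <;> simp

lemma dvd_of_natAbs_eq_gcd {i j : ℤ} (h : j.natAbs = Int.gcd i j) (h0 : ¬ (i = 0 ∧ j = 0)) :
    j ≠ 0 ∧ j ∣ i := by
  constructor
  · rintro rfl
    rw [Int.natAbs_zero, Int.gcd_zero_right] at h
    apply h0
    exact ⟨by omega, rfl⟩
  · have h1 : (Int.gcd i j : ℤ) ∣ i := Int.gcd_dvd_left ..
    rw [← h] at h1
    exact Int.natAbs_dvd.1 h1

lemma dvd_of_parallel {i j i' j' : ℤ} (h : i * j' = j * i') (h0 : ¬ (i = 0 ∧ j = 0))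
    (hj' : j' ≠ 0) (hd : j' ∣ i') : j ≠ 0 ∧ j ∣ i := by
  obtain ⟨q, rfl⟩ := hd
  have h1 : i = j * q := by
    apply mul_right_cancel₀ hj'
    linarith [h]
  constructor
  · rintro rfl
    apply h0
    exact ⟨by rw [h1, zero_mul], rfl⟩
  · exact ⟨q, h1⟩

lemma inv_step {p : ℤ} (hp : Prime p) {e1 e2 m : ℤ × ℤ} {im jm : ℤ} {μ' : ℕ}
    (hmL : m = Lc e1 e2 im jm) (hm : All p m) (he1 : All p e1)
    (hmin : ∀ i j, All p (Lc e1 e2 i j) → Hn m ≤ Hn (Lc e1 e2 i j))
    (m1 : 0 < m.1) (m2 : 0 < m.2) (v1 : 0 < e1.1) (v2 : 0 < e1.2)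
    (hmin' : ∀ i j, All p (Lc e1 e2 i j) → μ' ≤ Hp (Lc e1 e2 i j))
    (hA' : (∀ i j, ¬ All p (Lc e1 e2 i j) → ¬ (i = 0 ∧ j = 0) → μ' ≤ Hp (Lc e1 e2 i j)) →
      Hp e1 = μ')
    (hB' : ∀ i j, ¬ All p (Lc e1 e2 i j) → ¬ (i = 0 ∧ j = 0) → Hp (Lc e1 e2 i j) < μ' →
      j ≠ 0 ∧ j ∣ i) :
    ((∀ i j, ¬ All p (Lc e1 e2 i j) → ¬ (i = 0 ∧ j = 0) → Hn m ≤ Hn (Lc e1 e2 i j)) →
      Hn e1 = Hn m) ∧
    (∀ i j, ¬ All p (Lc e1 e2 i j) → ¬ (i = 0 ∧ j = 0) → Hn (Lc e1 e2 i j) < Hn m →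
      j ≠ 0 ∧ j ∣ i) := by
  have hm' : All p (Lc e1 e2 im jm) := hmL ▸ hm
  have hminL : ∀ i j, All p (Lc e1 e2 i j) → Hn (Lc e1 e2 im jm) ≤ Hn (Lc e1 e2 i j) := by
    rw [← hmL]; exact hmin
  have hμ : μ' ≤ Hp m := by
    have := hmin' im jm hm'
    rwa [← hmL] at this
  have hsub : ∀ i j, ¬ All p (Lc e1 e2 i j) → Hp (Lc e1 e2 i j) < μ' →
      Hn (Lc e1 e2 i j) < Hn m := by
    intro i j hz hlt
    by_contra hge
    push Not at hge
    rcases key2 m1 m2 (lt_of_lt_of_le hlt hμ) hge with h | h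
    · have h1 := all_sub hm hz
      have h2 : m - Lc e1 e2 i j = Lc e1 e2 (im - i) (jm - j) := by
        rw [hmL]; exact Lc_sub ..
      have h3 := hmin (im - i) (jm - j) (h2 ▸ h1)
      rw [← h2] at h3
      omega
    · have h1 := all_add hm hz
      have h2 : m + Lc e1 e2 i j = Lc e1 e2 (im + i) (jm + j) := by
        rw [hmL]; exact Lc_add ..
      have h3 := hmin (im + i) (jm + j) (h2 ▸ h1)
      rw [← h2] at h3
      omega
  -- a short vector with integral slope settles everything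
  have finish : ∀ i' j', ¬ All p (Lc e1 e2 i' j') → ¬ (i' = 0 ∧ j' = 0) →
      Hn (Lc e1 e2 i' j') < Hn m → j' ≠ 0 → j' ∣ i' →
      ((∀ i j, ¬ All p (Lc e1 e2 i j) → ¬ (i = 0 ∧ j = 0) → Hn m ≤ Hn (Lc e1 e2 i j)) →
        Hn e1 = Hn m) ∧
      (∀ i j, ¬ All p (Lc e1 e2 i j) → ¬ (i = 0 ∧ j = 0) → Hn (Lc e1 e2 i j) < Hn m →
        j ≠ 0 ∧ j ∣ i) := by
    intro i' j' hz' h0' hlt' hj' hd'
    constructor
    · intro hall
      have := hall i' j' hz' h0'
      omega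
    · intro i j hz h0 hlt
      have h1 := parallel hp hm' hminL h0 (by rw [← hmL]; exact hlt) (by rw [← hmL]; exact hlt') hz'
      exact dvd_of_parallel h1 h0 hj' hd'
  by_cases hshort : ∃ i' j', ¬ All p (Lc e1 e2 i' j') ∧ ¬ (i' = 0 ∧ j' = 0) ∧
      Hp (Lc e1 e2 i' j') < μ'
  · obtain ⟨i', j', hz', h0', hlt'⟩ := hshort
    obtain ⟨hj', hd'⟩ := hB' i' j' hz' h0' hlt'
    exact finish i' j' hz' h0' (hsub i' j' hz' hlt') hj' hd'
  · push Not at hshort
    have hpe := hA' (fun i j hz h0 => by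
      rcases Nat.lt_or_ge (Hp (Lc e1 e2 i j)) μ' with h | h
      · exact absurd (hshort i j hz (fun hi hj => h0 ⟨hi, hj⟩)) (by omega)
      · exact h)
    have hpe' : Hp e1 ≤ Hp m := by omega
    rcases Nat.lt_or_ge (Hn m) (Hn e1) with hlt | hge
    · have hk := key1 m1 m2 v1 v2 hpe' hlt
      have h2 : m - e1 = Lc e1 e2 (im - 1) jm := by
        rw [hmL]
        conv_lhs => rw [← Lc_one e1 e2]
        rw [Lc_one, ← Lc_one e1 e2, Lc_one]
        have := Lc_sub e1 e2 im jm 1 0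
        rw [Lc_one, sub_zero] at this
        exact this
      have hz : ¬ All p (Lc e1 e2 (im - 1) jm) := by
        intro h
        have := hmin _ _ h
        rw [← h2] at this
        omega
      have h0 : ¬ (im - 1 = 0 ∧ jm = 0) := by
        rintro ⟨h3, h4⟩
        have h5 : im = 1 := by omega
        rw [h5, h4, Lc_one] at hmL
        rw [hmL] at hlt
        omega
      rw [h2] at hk
      have h3 := det_eq_gcd hm' hminL h0 (by rw [← hmL]; exact hk)
      have h4 : (im - 1) * jm - jm * im = -jm := by ring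
      rw [h4, Int.natAbs_neg] at h3
      obtain ⟨h5, h6⟩ := dvd_of_natAbs_eq_gcd h3 h0
      exact finish _ _ hz h0 hk h5 h6
    · have heq : Hn e1 = Hn m := by
        apply le_antisymm hge
        have := hmin 1 0 (by rw [Lc_one]; exact he1)
        rwa [Lc_one] at this
      refine ⟨fun _ => heq, ?_⟩
      intro i j hz h0 hlt
      have h3 := det_eq_gcd (p := p) (e1 := e1) (e2 := e2) (im := 1) (jm := 0) (i := i) (j := j)
        (by rw [Lc_one]; exact he1)
        (fun i j h => by rw [Lc_one, heq]; exact hmin i j h) h0 (by rw [Lc_one, heq]; exact hlt)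
      have h4 : i * 0 - j * 1 = -j := by ring
      rw [h4, Int.natAbs_neg] at h3
      exact dvd_of_natAbs_eq_gcd h3 h0

/-! ### bounds -/

lemma boundA {c d a b N : ℤ} (hdet : a * d - b * c = 1) (hc : 0 < c) (hd : 0 < d) (hN : 0 < N)
    (h : ∀ i j, ¬ (i = 0 ∧ j = 0) → c + d ≤ Hn (Lc (c, d) (N * a, N * b) i j)) :
    c * (c + d) ≤ N ∧ d * (c + d) ≤ N := by
  constructor
  · set t : ℤ := (N * a) / c with ht
    have e1 := Int.emod_add_mul_ediv (N * a) c
    have e2 := Int.emod_nonneg (N * a) hc.ne'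
    have e3 := Int.emod_lt_of_pos (N * a) hc
    rw [← ht] at e1
    set w1 : ℤ := t * c - N * a with hw1
    set w2 : ℤ := t * d - N * b with hw2
    have f1 : -c < w1 := by rw [hw1]; linarith [mul_comm c t]
    have f2 : w1 ≤ 0 := by rw [hw1]; linarith [mul_comm c t]
    have f3 : c * w2 - d * w1 = N := by
      rw [hw1, hw2]
      linear_combination N * hdet
    have g1 : Lc (c, d) (N * a, N * b) t (-1) = (w1, w2) := by
      unfold Lc
      ext
      · simp; rw [hw1]; ring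
      · simp; rw [hw2]; ring
    have g2 : Lc (c, d) (N * a, N * b) (t + 1) (-1) = (w1 + c, w2 + d) := by
      unfold Lc
      ext
      · simp; rw [hw1]; ring
      · simp; rw [hw2]; ring
    have h1 := h t (-1) (by omega)
    have h2 := h (t + 1) (-1) (by omega)
    rw [g1] at h1
    rw [g2] at h2
    have h1' : ¬ (Hn (w1, w2) : ℤ) < c + d := by omega
    have h2' : ¬ (Hn (w1 + c, w2 + d) : ℤ) < c + d := by omega
    rw [Hn_lt_iff] at h1' h2'
    simp only at h1' h2'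
    rcases le_or_gt 0 w2 with hs | hs
    · have h3 : c + d ≤ w2 := by omega
      nlinarith
    · exfalso
      apply h2'
      have h4 : -d < w2 := by nlinarith
      omega
  · set t : ℤ := (-(N * b)) / d with ht
    have e1 := Int.emod_add_mul_ediv (-(N * b)) d
    have e2 := Int.emod_nonneg (-(N * b)) hd.ne'
    have e3 := Int.emod_lt_of_pos (-(N * b)) hd
    rw [← ht] at e1
    set w1 : ℤ := t * c + N * a with hw1
    set w2 : ℤ := t * d + N * b with hw2
    have f1 : -d < w2 := by rw [hw2]; linarith [mul_comm d t]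
    have f2 : w2 ≤ 0 := by rw [hw2]; linarith [mul_comm d t]
    have f3 : d * w1 - c * w2 = N := by
      rw [hw1, hw2]
      linear_combination N * hdet
    have g1 : Lc (c, d) (N * a, N * b) t 1 = (w1, w2) := by
      unfold Lc
      ext
      · simp; rw [hw1]
      · simp; rw [hw2]
    have g2 : Lc (c, d) (N * a, N * b) (t + 1) 1 = (w1 + c, w2 + d) := by
      unfold Lc
      ext
      · simp; rw [hw1]; ring
      · simp; rw [hw2]; ring
    have h1 := h t 1 (by omega)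
    have h2 := h (t + 1) 1 (by omega)
    rw [g1] at h1
    rw [g2] at h2
    have h1' : ¬ (Hn (w1, w2) : ℤ) < c + d := by omega
    have h2' : ¬ (Hn (w1 + c, w2 + d) : ℤ) < c + d := by omega
    rw [Hn_lt_iff] at h1' h2'
    simp only at h1' h2'
    rcases le_or_gt 0 w1 with hs | hs
    · have h3 : c + d ≤ w1 := by omega
      nlinarith
    · exfalso
      apply h2'
      have h4 : -c < w1 := by nlinarith
      omega

lemma boundB {p c d a b N : ℤ} (hdet : a * d - b * c = 1) (hc : 0 < c) (hd : 0 < d)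
    (hN : 0 < N) {m : ℤ × ℤ} {im jm i j : ℤ} (hmL : m = Lc (c, d) (N * a, N * b) im jm)
    (hm : All p m) (m1 : 0 < m.1) (m2 : 0 < m.2)
    (hmin : ∀ i j, All p (Lc (c, d) (N * a, N * b) i j) →
      Hn m ≤ Hn (Lc (c, d) (N * a, N * b) i j))
    (hj : j ≠ 0) (hji : j ∣ i) (hlt : Hn (Lc (c, d) (N * a, N * b) i j) < Hn m) :
    p * (c + d) ≤ N := by
  obtain ⟨q, rfl⟩ := hji
  set z0 := Lc (c, d) (N * a, N * b) q 1 with hz0
  have hz : Lc (c, d) (N * a, N * b) (j * q) j = j • z0 := by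
    rw [hz0]; unfold Lc
    ext <;> simp <;> ring
  have hH : Hn z0 < Hn m := by
    refine lt_of_le_of_lt ?_ hlt
    rw [hz, Hn_smul]
    exact Nat.le_mul_of_pos_left _ (by omega)
  have hna : ¬ All p z0 := by
    intro h
    have h' := hmin q 1 h
    rw [← hz0] at h'
    omega
  have hdet0 : z0.1 * d - z0.2 * c = N := by
    rw [hz0]; unfold Lc
    simp only [Prod.fst_add, Prod.snd_add, Prod.smul_fst, Prod.smul_snd, smul_eq_mul]
    linear_combination N * hdet
  have hne : z0 ≠ 0 := by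
    intro h
    rw [h] at hdet0
    simp at hdet0
    omega
  have hmix := mixed m1 m2 hne hH
    (by
      have h1 := all_sub hm hna
      have h2 : m - z0 = Lc (c, d) (N * a, N * b) (im - q) (jm - 1) := by
        rw [hmL, hz0]; exact Lc_sub ..
      rw [h2] at h1 ⊢
      exact hmin _ _ h1)
    (by
      have h1 := all_add hm hna
      have h2 : m + z0 = Lc (c, d) (N * a, N * b) (im + q) (jm + 1) := by
        rw [hmL, hz0]; exact Lc_add ..
      rw [h2] at h1 ⊢
      exact hmin _ _ h1)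
  rw [not_all_iff] at hna
  rcases hmix with ⟨h1, h2⟩ | ⟨h1, h2⟩
  · have h3 : p ≤ z0.1 := Int.le_of_dvd h1 hna.1
    have h4 : p ≤ -z0.2 := Int.le_of_dvd (by omega) ((dvd_neg).2 hna.2)
    nlinarith
  · exfalso
    nlinarith

end Pool.Agent.Helper95.FareyVec
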