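import Mathlib
import Pool.Agent.Helper95.FareyStep

/-!
The tree of Farey edges for `Γ₀(pⁿ)` (problem MP_f9e819_nt).
-/

namespace Pool.Agent.Helper95.FareyVec

open Matrix

abbrev SL2Z := Matrix.SpecialLinearGroup (Fin 2) ℤ

def Lm : SL2Z := ⟨!![1, 0; 1, 1], by simp [Matrix.det_fin_two]⟩
def Rm : SL2Z := ⟨!![0, 1; -1, 1], by simp [Matrix.det_fin_two]⟩

/-- bottom row -/
def row (g : SL2Z) : ℤ × ℤ := (g.1 1 0, g.1 1 1)
/-- top row -/
def top (g : SL2Z) : ℤ × ℤ := (g.1 0 0, g.1 0 1)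

lemma mul_val (A B : SL2Z) : (A * B).1 = A.1 * B.1 := rfl

lemma det_eq (g : SL2Z) : (top g).1 * (row g).2 - (top g).2 * (row g).1 = 1 := by
  have h := g.2
  rw [Matrix.det_fin_two] at h
  exact h

lemma row_mul_L (g : SL2Z) : row (g * Lm) = ((row g).1 + (row g).2, (row g).2) := by
  unfold row
  rw [mul_val]
  ext <;> simp [Lm, Matrix.mul_apply, Fin.sum_univ_two]

lemma row_mul_T (g : SL2Z) : row (g * ModularGroup.T) = ((row g).1, (row g).1 + (row g).2) := by
  unfold row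
  rw [mul_val]
  ext <;> simp [ModularGroup.T, Matrix.mul_apply, Fin.sum_univ_two]

lemma row_mul_R (g : SL2Z) : row (g * Rm) = rot (row g) := by
  unfold row rot
  rw [mul_val]
  ext <;> simp [Rm, Matrix.mul_apply, Fin.sum_univ_two]

lemma row_mul_S (g : SL2Z) : row (g * ModularGroup.S) = flip (row g) := by
  unfold row flip
  rw [mul_val]
  ext <;> simp [ModularGroup.S, Matrix.mul_apply, Fin.sum_univ_two]

lemma top_mul_L (g : SL2Z) : top (g * Lm) = ((top g).1 + (top g).2, (top g).2) := by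
  unfold top
  rw [mul_val]
  ext <;> simp [Lm, Matrix.mul_apply, Fin.sum_univ_two]

lemma top_mul_T (g : SL2Z) : top (g * ModularGroup.T) = ((top g).1, (top g).1 + (top g).2) := by
  unfold top
  rw [mul_val]
  ext <;> simp [ModularGroup.T, Matrix.mul_apply, Fin.sum_univ_two]

lemma L_eq : Lm = Rm * ModularGroup.S := by decide

lemma T_eq : ModularGroup.T = Rm * Rm * ModularGroup.S := by decide

lemma R3 : Rm * Rm * Rm = -1 := by decide

lemma S2 : ModularGroup.S * ModularGroup.S = -1 := by decide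

/-- row of `g * L` in terms of `flip` and `rot` -/
lemma row_mul_L' (g : SL2Z) : row (g * Lm) = flip (rot (row g)) := by
  rw [L_eq, ← mul_assoc, row_mul_S, row_mul_R]

lemma row_mul_T' (g : SL2Z) : row (g * ModularGroup.T) = flip (rot (rot (row g))) := by
  rw [T_eq, ← mul_assoc, ← mul_assoc, row_mul_S, row_mul_R, row_mul_R]

lemma all_row {p : ℤ} (hp : Prime p) (g : SL2Z) : All p (row g) := by
  rintro ⟨h1, h2⟩
  have h3 := det_eq g
  have h4 : p ∣ 1 := by
    rw [← h3]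
    exact dvd_sub (Dvd.dvd.mul_left h2 _) (Dvd.dvd.mul_left h1 _)
  exact hp.not_isUnit (isUnit_of_dvd_one h4)

/-- The Farey edges of the tree: the edge from `0` to `1`, and the two lower edges of every
triangle whose upper edge has the direction property. -/
inductive Edge (N p : ℤ) : SL2Z → Prop
  | root : Edge N p Lm
  | left {g : SL2Z} : Edge N p g → Dir N p (row g) → Edge N p (g * Lm)
  | right {g : SL2Z} : Edge N p g → Dir N p (row g) → Edge N p (g * ModularGroup.T)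

lemma row_Lm : row Lm = (1, 1) := by decide

lemma top_Lm : top Lm = (1, 0) := by decide

lemma Edge.pos {N p : ℤ} {g : SL2Z} (h : Edge N p g) : 0 < (row g).1 ∧ 0 < (row g).2 := by
  induction h with
  | root => rw [row_Lm]; simp
  | left _ _ ih => rw [row_mul_L]; simp only; omega
  | right _ _ ih => rw [row_mul_T]; simp only; omega

/-- lattice coordinates -/
lemma eqv_Lc (N : ℤ) (g : SL2Z) (i j : ℤ) : eqv N (row g) (Lc (row g) (N • top g) i j) := by
  unfold eqv Lc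
  simp only [Prod.fst_add, Prod.snd_add, Prod.smul_fst, Prod.smul_snd, smul_eq_mul]
  refine ⟨-j, ?_⟩
  linear_combination (-N * j) * det_eq g

lemma exists_Lc {N : ℤ} {g : SL2Z} {z : ℤ × ℤ} (h : eqv N (row g) z) :
    ∃ i j, z = Lc (row g) (N • top g) i j := by
  obtain ⟨k, hk⟩ := h
  refine ⟨(top g).1 * z.2 - (top g).2 * z.1, -k, ?_⟩
  unfold Lc
  have hd := det_eq g
  ext
  · simp only [Prod.fst_add, Prod.smul_fst, smul_eq_mul]
    linear_combination (-z.1) * hd - (top g).1 * hk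
  · simp only [Prod.snd_add, Prod.smul_snd, smul_eq_mul]
    linear_combination (-z.2) * hd - (top g).2 * hk

lemma Lc_ne {N : ℤ} (hN : N ≠ 0) {g : SL2Z} {i j : ℤ} (h : ¬ (i = 0 ∧ j = 0)) :
    Lc (row g) (N • top g) i j ≠ 0 := by
  intro h0
  apply h
  have h1 := congrArg Prod.fst h0
  have h2 := congrArg Prod.snd h0
  unfold Lc at h1 h2
  simp only [Prod.fst_add, Prod.snd_add, Prod.smul_fst, Prod.smul_snd, smul_eq_mul, Prod.fst_zero,
    Prod.snd_zero] at h1 h2
  have hd := det_eq g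
  have hj : N * j = 0 := by
    linear_combination (row g).2 * h1 - (row g).1 * h2 - (N * j) * hd
  have hi : i = 0 := by
    linear_combination (top g).1 * h2 - (top g).2 * h1 - i * hd
  exact ⟨hi, (mul_eq_zero.1 hj).resolve_left hN⟩

/-- invariant along the tree -/
def Inv (N p : ℤ) (g : SL2Z) : Prop :=
  ∀ m, IsMinVec N p (row g) m →
    ((∀ i j, ¬ All p (Lc (row g) (N • top g) i j) → ¬ (i = 0 ∧ j = 0) →
      Hn m ≤ Hn (Lc (row g) (N • top g) i j)) → Hn (row g) = Hn m) ∧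
    (∀ i j, ¬ All p (Lc (row g) (N • top g) i j) → ¬ (i = 0 ∧ j = 0) →
      Hn (Lc (row g) (N • top g) i j) < Hn m → j ≠ 0 ∧ j ∣ i)

lemma two_le_prime {p : ℤ} (hp : Prime p) (hp0 : 0 < p) : 2 ≤ p := by
  have h5 : p.natAbs.Prime := Int.prime_iff_natAbs_prime.1 hp
  have := h5.two_le
  omega

lemma le_Hn_of_not_all {p : ℤ} {z : ℤ × ℤ} (hz : ¬ All p z) (h0 : z ≠ 0) : p ≤ Hn z := by
  rw [not_all_iff] at hz
  have h3 := Hn_bounds z
  have hne : z.1 ≠ 0 ∨ z.2 ≠ 0 := by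
    by_contra hc
    push Not at hc
    apply h0
    ext
    · exact hc.1
    · exact hc.2
  rcases hne with h | h
  · have h6 := Int.le_of_dvd (abs_pos.2 h) ((dvd_abs _ _).2 hz.1)
    have h7 : |z.1| ≤ Hn z := abs_le.2 ⟨h3.1.1, h3.1.2⟩
    omega
  · have h6 := Int.le_of_dvd (abs_pos.2 h) ((dvd_abs _ _).2 hz.2)
    have h7 : |z.2| ≤ Hn z := abs_le.2 ⟨h3.2.1.1, h3.2.1.2⟩
    omega

lemma inv_root {N p : ℤ} (hN : 0 < N) (hp : Prime p) (hp0 : 0 < p) : Inv N p Lm := by
  intro m hm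
  have hmin := hm.min (x := (1, 1)) (by rw [row_Lm]; exact eqv_refl _ _) (by
    rw [← row_Lm]; exact all_row hp _)
  have h2 : Hn ((1, 1) : ℤ × ℤ) = 2 := by decide
  have hm2 := Hn_of_pos hm.1 hm.2.1.le
  have hm3 : Hn m = 2 := by
    have h3 := hm.1
    have h4 := hm.2.1
    omega
  constructor
  · intro _
    rw [row_Lm, h2, hm3]
  · intro i j hz h0 hlt
    exfalso
    have h3 := le_Hn_of_not_all hz (Lc_ne hN.ne' h0)
    have h4 := two_le_prime hp hp0
    omega

lemma Lc_mul_L (N : ℤ) (g : SL2Z) (i j : ℤ) :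
    Lc (row (g * Lm)) (N • top (g * Lm)) i j =
      ((Lc (row g) (N • top g) i j).1 + (Lc (row g) (N • top g) i j).2,
        (Lc (row g) (N • top g) i j).2) := by
  rw [row_mul_L, top_mul_L]
  unfold Lc
  ext
  · simp only [Prod.fst_add, Prod.snd_add, Prod.smul_fst, Prod.smul_snd, smul_eq_mul]
    ring
  · simp only [Prod.snd_add, Prod.smul_snd, smul_eq_mul]

lemma Lc_mul_T (N : ℤ) (g : SL2Z) (i j : ℤ) :
    Lc (row (g * ModularGroup.T)) (N • top (g * ModularGroup.T)) i j =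
      ((Lc (row g) (N • top g) i j).1,
        (Lc (row g) (N • top g) i j).1 + (Lc (row g) (N • top g) i j).2) := by
  rw [row_mul_T, top_mul_T]
  unfold Lc
  ext
  · simp only [Prod.fst_add, Prod.smul_fst, smul_eq_mul]
  · simp only [Prod.fst_add, Prod.snd_add, Prod.smul_fst, Prod.smul_snd, smul_eq_mul]
    ring

lemma Hp_L (z : ℤ × ℤ) : Hp (z.1 + z.2, z.2) = Hn z := by
  apply le_antisymm
  · have h : (Hp (z.1 + z.2, z.2) : ℤ) ≤ (Hn z : ℤ) := by
      rw [Hp_le_iff]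
      have h1 := Hn_bounds z
      simp only
      omega
    exact_mod_cast h
  · have h : (Hn z : ℤ) ≤ (Hp (z.1 + z.2, z.2) : ℤ) := by
      rw [Hn_le_iff]
      have h1 := (Hp_le_iff (z.1 + z.2, z.2) _).1 le_rfl
      simp only at h1
      omega
    exact_mod_cast h

lemma Hp_T (z : ℤ × ℤ) : Hp (z.1, z.1 + z.2) = Hn z := by
  apply le_antisymm
  · have h : (Hp (z.1, z.1 + z.2) : ℤ) ≤ (Hn z : ℤ) := by
      rw [Hp_le_iff]
      have h1 := Hn_bounds z
      simp only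
      omega
    exact_mod_cast h
  · have h : (Hn z : ℤ) ≤ (Hp (z.1, z.1 + z.2) : ℤ) := by
      rw [Hn_le_iff]
      have h1 := (Hp_le_iff (z.1, z.1 + z.2) _).1 le_rfl
      simp only at h1
      omega
    exact_mod_cast h

lemma all_L {p : ℤ} {z : ℤ × ℤ} : All p (z.1 + z.2, z.2) ↔ All p z := by
  unfold All
  simp only
  constructor
  · rintro h ⟨h1, h2⟩
    exact h ⟨dvd_add h1 h2, h2⟩
  · rintro h ⟨h1, h2⟩
    exact h ⟨(dvd_add_left h2).1 h1, h2⟩

lemma all_T {p : ℤ} {z : ℤ × ℤ} : All p (z.1, z.1 + z.2) ↔ All p z := by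
  unfold All
  simp only
  constructor
  · rintro h ⟨h1, h2⟩
    exact h ⟨h1, dvd_add h1 h2⟩
  · rintro h ⟨h1, h2⟩
    exact h ⟨h1, (dvd_add_right h1).1 h2⟩

lemma inv_left {N p : ℤ} (hp : Prime p) {g : SL2Z} (hg : Edge N p g) (hd : Dir N p (row g))
    (hi : Inv N p g) : Inv N p (g * Lm) := by
  intro m hm
  obtain ⟨m', hm'⟩ := hd.2
  obtain ⟨im, jm, hmL⟩ := exists_Lc hm.2.2.2.1
  have hpos := (Edge.left hg hd).pos
  obtain ⟨hA, hB⟩ := hi m' hm'
  refine inv_step hp hmL hm.2.2.1 (all_row hp _) (fun i j h => hm.min (eqv_Lc _ _ _ _) h) hm.1 hm.2.1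
    hpos.1 hpos.2 (μ' := Hn m') ?_ ?_ ?_
  · intro i j h
    rw [Lc_mul_L, Hp_L]
    rw [Lc_mul_L, all_L] at h
    exact hm'.min (eqv_Lc _ _ _ _) h
  · intro h
    rw [row_mul_L, Hp_L]
    apply hA
    intro i j hz h0
    have := h i j (by rw [Lc_mul_L, all_L]; exact hz) h0
    rwa [Lc_mul_L, Hp_L] at this
  · intro i j hz h0 hlt
    rw [Lc_mul_L, all_L] at hz
    rw [Lc_mul_L, Hp_L] at hlt
    exact hB i j hz h0 hlt

lemma inv_right {N p : ℤ} (hp : Prime p) {g : SL2Z} (hg : Edge N p g) (hd : Dir N p (row g))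
    (hi : Inv N p g) : Inv N p (g * ModularGroup.T) := by
  intro m hm
  obtain ⟨m', hm'⟩ := hd.2
  obtain ⟨im, jm, hmL⟩ := exists_Lc hm.2.2.2.1
  have hpos := (Edge.right hg hd).pos
  obtain ⟨hA, hB⟩ := hi m' hm'
  refine inv_step hp hmL hm.2.2.1 (all_row hp _) (fun i j h => hm.min (eqv_Lc _ _ _ _) h) hm.1 hm.2.1
    hpos.1 hpos.2 (μ' := Hn m') ?_ ?_ ?_
  · intro i j h
    rw [Lc_mul_T, Hp_T]
    rw [Lc_mul_T, all_T] at h
    exact hm'.min (eqv_Lc _ _ _ _) h
  · intro h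
    rw [row_mul_T, Hp_T]
    apply hA
    intro i j hz h0
    have := h i j (by rw [Lc_mul_T, all_T]; exact hz) h0
    rwa [Lc_mul_T, Hp_T] at this
  · intro i j hz h0 hlt
    rw [Lc_mul_T, all_T] at hz
    rw [Lc_mul_T, Hp_T] at hlt
    exact hB i j hz h0 hlt

lemma Edge.inv {N p : ℤ} (hN : 0 < N) (hp : Prime p) (hp0 : 0 < p) {g : SL2Z}
    (h : Edge N p g) : Inv N p g := by
  induction h with
  | root => exact inv_root hN hp hp0
  | left hg hd ih => exact inv_left hp hg hd ih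
  | right hg hd ih => exact inv_right hp hg hd ih

/-- **Height bound.** -/
lemma Edge.height {N p : ℤ} (hN : 0 < N) (hp : Prime p) (hp0 : 0 < p) {g : SL2Z}
    (h : Edge N p g) (hd : Dir N p (row g)) :
    p * ((row g).1 + (row g).2) ≤ N ∨ ((row g).1 + (row g).2) ^ 2 ≤ 2 * N := by
  obtain ⟨m, hm⟩ := hd.2
  obtain ⟨hA, hB⟩ := h.inv hN hp hp0 m hm
  have hpos := h.pos
  have hdet : (top g).1 * (row g).2 - (top g).2 * (row g).1 = 1 := det_eq g
  obtain ⟨im, jm, hmL⟩ := exists_Lc hm.2.2.2.1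
  have hrow : row g = ((row g).1, (row g).2) := rfl
  have htop : N • top g = (N * (top g).1, N * (top g).2) := rfl
  by_cases hs : ∃ i j, ¬ All p (Lc (row g) (N • top g) i j) ∧ ¬ (i = 0 ∧ j = 0) ∧
      Hn (Lc (row g) (N • top g) i j) < Hn m
  · left
    obtain ⟨i, j, hz, h0, hlt⟩ := hs
    obtain ⟨hj, hji⟩ := hB i j hz h0 hlt
    exact boundB hdet hpos.1 hpos.2 hN hmL hm.2.2.1 hm.1 hm.2.1
      (fun i j hh => hm.min (eqv_Lc _ _ _ _) hh) hj hji hlt
  · right
    push Not at hs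
    have hall : ∀ i j, ¬ (i = 0 ∧ j = 0) → Hn m ≤ Hn (Lc (row g) (N • top g) i j) := by
      intro i j h0
      by_cases hz : All p (Lc (row g) (N • top g) i j)
      · exact hm.min (eqv_Lc _ _ _ _) hz
      · exact hs i j hz (fun hi hj => h0 ⟨hi, hj⟩)
    have heq := hA (fun i j _ h0 => hall i j h0)
    have hv := Hn_of_pos hpos.1 hpos.2.le
    have hb := boundA hdet hpos.1 hpos.2 hN (fun i j h0 => by
      have h1 := hall i j h0
      rw [← heq] at h1
      have h2 : ((Hn (row g) : ℕ) : ℤ) ≤ (Hn (Lc (row g) (N • top g) i j) : ℤ) := by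
        exact_mod_cast h1
      rw [hv] at h2
      exact h2)
    nlinarith [hb.1, hb.2]

end Pool.Agent.Helper95.FareyVec
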