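import Mathlib
import Pool.Agent.Helper95.FareyTree

/-!
Coverage, uniqueness and pairing of the tree of Farey edges (problem MP_f9e819_nt).
-/

namespace Pool.Agent.Helper95.FareyVec

open Matrix

def Cand (N p : ℤ) (v x : ℤ × ℤ) : Prop := 0 < x.1 ∧ 0 ≤ x.2 ∧ All p x ∧ TriEq N v x

lemma exists_min_cand {N p : ℤ} {v : ℤ × ℤ} (hv : All p v) :
    ∃ m, Cand N p v m ∧ ∀ x, Cand N p v x → K m ≤ K x := by
  classical
  have hv0 : v ≠ 0 := by
    rintro rfl
    exact hv ⟨dvd_zero _, dvd_zero _⟩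
  obtain ⟨y, hy1, hy2, -, hy4, hy5⟩ := exists_sector hv0
  have hne : ∃ k : ℕ, ∃ m, Cand N p v m ∧ (K m).toNat = k :=
    ⟨_, y, ⟨hy1, hy2, hy4 p hv, hy5 N v (eqv_refl _ _)⟩, rfl⟩
  obtain ⟨m, hm, hmk⟩ := Nat.find_spec hne
  refine ⟨m, hm, ?_⟩
  intro x hx
  have h1 := Nat.find_min' hne ⟨x, hx, rfl⟩
  rw [← hmk] at h1
  have h2 : 0 ≤ K x := by
    unfold K
    have := hx.1
    positivity
  omega

lemma eqv_of_smul {N x : ℤ} (h : IsCoprime N x) {v w : ℤ × ℤ} (h1 : eqv N v (x * w.1, x * w.2)) :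
    eqv N v w := by
  unfold eqv at *
  simp only at h1
  apply h.dvd_of_dvd_mul_left
  have : x * (v.1 * w.2 - v.2 * w.1) = v.1 * (x * w.2) - v.2 * (x * w.1) := by ring
  rw [this]
  exact h1

section
variable {p : ℤ} {n : ℕ}

lemma coprime_of_not_dvd (hp : Prime p) {x : ℤ} (hx : ¬ p ∣ x) : IsCoprime (p ^ n) x :=
  IsCoprime.pow_left ((Prime.coprime_iff_not_dvd hp).2 hx)

lemma triEq_axis (hp : Prime p) {v m : ℤ × ℤ} (hm : All p m) (h2 : m.2 = 0)
    (h : TriEq (p ^ n) v m) : TriEq (p ^ n) v (1, 0) := by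
  have hx : ¬ p ∣ m.1 := by
    intro hx
    exact hm ⟨hx, by rw [h2]; exact dvd_zero _⟩
  have hc := coprime_of_not_dvd (n := n) hp hx
  have hm' : m = (m.1, 0) := by
    ext
    · rfl
    · exact h2
  rcases h with h | h | h
  · left
    apply eqv_of_smul hc
    rw [hm'] at h
    simpa using h
  · right; left
    apply eqv_of_smul hc
    rw [hm'] at h
    simpa [rot] using h
  · right; right
    apply eqv_of_smul hc
    rw [hm'] at h
    simpa [rot] using h

lemma dir_cases (hp : Prime p) {v : ℤ × ℤ} (hv : All p v) (hE : ¬ Ell (p ^ n) v) :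
    TriEq (p ^ n) v (1, 0) ∨ Dir (p ^ n) p v ∨ Dir (p ^ n) p (rot v) ∨
      Dir (p ^ n) p (rot (rot v)) := by
  obtain ⟨m, ⟨h1, h2, h3, h4⟩, hmin⟩ := exists_min_cand (N := p ^ n) hv
  rcases h2.eq_or_lt with h2 | h2
  · left
    exact triEq_axis hp h3 h2.symm h4
  · right
    rcases h4 with h | h | h
    · left
      exact ⟨hE, m, h1, h2, h3, h, fun x a b c d => hmin x ⟨a, b, c, d⟩⟩
    · right; right
      refine ⟨by rw [ell_rot, ell_rot]; exact hE, m, h1, h2, h3, ?_, fun x a b c d =>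
        hmin x ⟨a, b, c, triEq_rot_left.1 (triEq_rot_left.1 d)⟩⟩
      rw [← eqv_rot, eqv_rot3_left]
      exact h
    · right; left
      refine ⟨by rw [ell_rot]; exact hE, m, h1, h2, h3, ?_, fun x a b c d =>
        hmin x ⟨a, b, c, triEq_rot_left.1 d⟩⟩
      rw [← eqv_rot, ← eqv_rot, eqv_rot3_left]
      exact h

lemma isMin_congr (hp : Prime p) {v w m : ℤ × ℤ} (hv : All p v) (hw : All p w)
    (h : eqv (p ^ n) v w) (hm : IsMinVec (p ^ n) p v m) : IsMinVec (p ^ n) p w m := by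
  obtain ⟨h1, h2, h3, h4, h5⟩ := hm
  refine ⟨h1, h2, h3, eqv_trans hp hv (eqv_symm h) h4, fun x a b c d => h5 x a b c ?_⟩
  exact triEq_congr hp hw (eqv_symm h) d

lemma dir_congr (hp : Prime p) {v w : ℤ × ℤ} (hv : All p v) (hw : All p w)
    (h : eqv (p ^ n) v w) (hd : Dir (p ^ n) p v) : Dir (p ^ n) p w := by
  obtain ⟨hE, m, hm⟩ := hd
  refine ⟨fun h1 => hE (ell_congr hp hw (eqv_symm h) h1), m, isMin_congr hp hv hw h hm⟩

lemma dir_all {N : ℤ} {v : ℤ × ℤ} (_ : Dir N p v) : True := trivial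

lemma dir_rot (hp : Prime p) {v : ℤ × ℤ} (h1 : Dir (p ^ n) p v)
    (h2 : Dir (p ^ n) p (rot v)) : False := by
  obtain ⟨hE, m, a1, a2, a3, a4, a5⟩ := h1
  obtain ⟨-, m', b1, b2, b3, b4, b5⟩ := h2
  have e1 := a5 m' b1 b2.le b3 (triEq_rot_left.1 (Or.inl b4))
  have e2 := b5 m a1 a2.le a3 (triEq_rot_left.2 (Or.inl a4))
  have e3 := eq_of_K_eq a1 a2.le b1 b2.le (le_antisymm e1 e2)
  subst e3
  apply hE
  rw [ell_iff]
  exact eqv_trans hp a3 a4 (eqv_symm b4)

lemma dir_rot2 (hp : Prime p) {v : ℤ × ℤ} (h1 : Dir (p ^ n) p v)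
    (h2 : Dir (p ^ n) p (rot (rot v))) : False := by
  obtain ⟨hE, m, a1, a2, a3, a4, a5⟩ := h1
  obtain ⟨-, m', b1, b2, b3, b4, b5⟩ := h2
  have e1 := a5 m' b1 b2.le b3 (triEq_rot_left.1 (triEq_rot_left.1 (Or.inl b4)))
  have e2 := b5 m a1 a2.le a3 (triEq_rot_left.2 (triEq_rot_left.2 (Or.inl a4)))
  have e3 := eq_of_K_eq a1 a2.le b1 b2.le (le_antisymm e1 e2)
  subst e3
  apply hE
  rw [ell_iff]
  have e4 : eqv (p ^ n) v (rot (rot v)) := eqv_trans hp a3 a4 (eqv_symm b4)
  have e5 := eqv_rot.2 e4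
  rw [eqv_rot3_right] at e5
  exact eqv_symm e5

lemma all_one (hp : Prime p) : All p (1, 0) := by
  rintro ⟨h1, -⟩
  exact hp.not_isUnit (isUnit_of_dvd_one h1)

lemma dir_not_axis (hp : Prime p) {v : ℤ × ℤ} (h : Dir (p ^ n) p v) :
    ¬ TriEq (p ^ n) v (1, 0) := by
  intro h1
  obtain ⟨-, m, a1, a2, a3, a4, a5⟩ := h
  have := a5 (1, 0) (by norm_num) le_rfl (all_one hp) h1
  unfold K at this
  simp only at this
  nlinarith

lemma Hn_flip_lt {q : ℤ × ℤ} (h1 : 0 < q.1) (h2 : 0 < q.2) : (Hn (flip q) : ℤ) < q.1 + q.2 := by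
  rw [Hn_lt_iff]
  unfold flip
  simp only
  omega

lemma all_11 (hp : Prime p) : All p (1, 1) := by
  rintro ⟨h1, -⟩
  exact hp.not_isUnit (isUnit_of_dvd_one h1)

lemma eq_11_of_eqv (hp : Prime p) {m : ℤ × ℤ} (hm : IsMinVec (p ^ n) p m m)
    (h : eqv (p ^ n) m (1, 1)) : m = (1, 1) := by
  obtain ⟨a1, a2, a3, a4, a5⟩ := hm
  have h1 := a5 (1, 1) (by norm_num) (by norm_num) (all_11 hp) (Or.inl h)
  unfold K at h1
  simp only at h1
  have h2 : m.1 + m.2 ≤ 2 := by nlinarith
  ext
  · simp only; omega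
  · simp only; omega

/-- one step of the coverage induction -/
lemma cover_step (hp : Prime p) {m q r : ℤ × ℤ} (hm : IsMinVec (p ^ n) p m m)
    (hE : ¬ Ell (p ^ n) m) (hne : m ≠ (1, 1)) (q1 : 0 < q.1) (q2 : 0 < q.2)
    (hqa : All p q) (hr : m = flip r) (hqr : ∀ x, TriEq (p ^ n) q x → TriEq (p ^ n) r x)
    (hEr : Ell (p ^ n) q → eqv (p ^ n) r q)
    (hlt : q.1 + q.2 < m.1 + m.2)
    (ih : ∀ w : ℤ × ℤ, IsMinVec (p ^ n) p w w → ¬ Ell (p ^ n) w → w.1 + w.2 < m.1 + m.2 →
      ∃ g, Edge (p ^ n) p g ∧ Dir (p ^ n) p (row g) ∧ eqv (p ^ n) (row g) w) :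
    ∃ g, Edge (p ^ n) p g ∧ Dir (p ^ n) p (row g) ∧ eqv (p ^ n) (row g) m := by
  have hmH := Hn_of_pos hm.1 hm.2.1.le
  have hra : All p r := by rw [hr] at hm; exact all_flip.1 hm.2.2.1
  have hqE : ¬ Ell (p ^ n) q := by
    intro h
    have h1 := hEr h
    have h2 : eqv (p ^ n) m (flip q) := by rw [hr]; exact eqv_flip.2 h1
    have h3 := hm.min h2 (all_flip.2 hqa)
    have h4 := Hn_flip_lt q1 q2
    omega
  obtain ⟨w, ⟨w1, w2, w3, w4⟩, wmin⟩ := exists_min_cand (N := p ^ n) hqa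
  have hwq : w.1 + w.2 ≤ q.1 + q.2 :=
    le_of_K_le w1 q1 q2.le (wmin q ⟨q1, q2.le, hqa, Or.inl (eqv_refl _ _)⟩)
  rcases w2.eq_or_lt with w2 | w2
  · exfalso
    have h1 := hqr _ (triEq_axis hp w3 w2.symm w4)
    rcases h1 with h | h | h
    · have h2 : eqv (p ^ n) m (flip (1, 0)) := by rw [hr]; exact eqv_flip.2 h
      have h3 := hm.min h2 (all_flip.2 (all_one hp))
      have h4 : Hn (flip (1, 0)) = 1 := by decide
      have := hm.1
      have := hm.2.1
      omega
    · have h2 : eqv (p ^ n) m (flip (rot (1, 0))) := by rw [hr]; exact eqv_flip.2 h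
      have h3 := hm.min h2 (all_flip.2 (all_rot.2 (all_one hp)))
      have h4 : Hn (flip (rot (1, 0))) = 1 := by decide
      have := hm.1
      have := hm.2.1
      omega
    · have h2 : eqv (p ^ n) m (flip (rot (rot (1, 0)))) := by rw [hr]; exact eqv_flip.2 h
      have h3 : flip (rot (rot (1, 0))) = (1, 1) := by decide
      rw [h3] at h2
      exact hne (eq_11_of_eqv hp hm h2)
  · -- a genuine minimal vector
    have hww : IsMinVec (p ^ n) p w w := by
      refine ⟨w1, w2, w3, eqv_refl _ _, fun x a b c d => wmin x ⟨a, b, c, ?_⟩⟩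
      rcases w4 with h | h | h
      · exact triEq_congr hp w3 (eqv_symm h) d
      · have h1 : TriEq (p ^ n) (rot w) x := triEq_rot_left.2 d
        exact triEq_congr hp (all_rot.2 w3) (eqv_symm h) h1
      · have h1 : TriEq (p ^ n) (rot (rot w)) x := triEq_rot_left.2 (triEq_rot_left.2 d)
        exact triEq_congr hp (all_rot.2 (all_rot.2 w3)) (eqv_symm h) h1
    have hwE : ¬ Ell (p ^ n) w := by
      intro h0
      apply hqE
      rcases w4 with h | h | h
      · exact ell_congr hp w3 (eqv_symm h) h0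
      · exact ell_congr hp (all_rot.2 w3) (eqv_symm h) (ell_rot.2 h0)
      · exact ell_congr hp (all_rot.2 (all_rot.2 w3)) (eqv_symm h) (ell_rot.2 (ell_rot.2 h0))
    obtain ⟨g, hg, hd, hgw⟩ := ih w hww hwE (by omega)
    have hga := all_row hp g
    have hqg : TriEq (p ^ n) q (row g) := by
      rcases w4 with h | h | h
      · exact Or.inl (eqv_trans hp w3 h (eqv_symm hgw))
      · exact Or.inr (Or.inl (eqv_trans hp (all_rot.2 w3) h (eqv_rot.2 (eqv_symm hgw))))
      · exact Or.inr (Or.inr (eqv_trans hp (all_rot.2 (all_rot.2 w3)) h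
          (eqv_rot.2 (eqv_rot.2 (eqv_symm hgw)))))
    have hdm : Dir (p ^ n) p m := ⟨hE, m, hm⟩
    rcases hqr _ hqg with h | h | h
    · exfalso
      have h1 : eqv (p ^ n) r w := eqv_trans hp hga h hgw
      have h2 : eqv (p ^ n) m (flip w) := by rw [hr]; exact eqv_flip.2 h1
      have h3 := hm.min h2 (all_flip.2 w3)
      have h4 := Hn_flip_lt w1 w2
      omega
    · have h1 : eqv (p ^ n) m (row (g * Lm)) := by
        rw [row_mul_L', hr]; exact eqv_flip.2 h
      exact ⟨g * Lm, Edge.left hg hd, dir_congr hp hm.2.2.1 (all_row hp _) h1 hdm, eqv_symm h1⟩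
    · have h1 : eqv (p ^ n) m (row (g * ModularGroup.T)) := by
        rw [row_mul_T', hr]; exact eqv_flip.2 h
      exact ⟨g * ModularGroup.T, Edge.right hg hd, dir_congr hp hm.2.2.1 (all_row hp _) h1 hdm,
        eqv_symm h1⟩

lemma cover (hp : Prime p) : ∀ (k : ℕ) (m : ℤ × ℤ), (m.1 + m.2).toNat ≤ k →
    IsMinVec (p ^ n) p m m → ¬ Ell (p ^ n) m →
    ∃ g, Edge (p ^ n) p g ∧ Dir (p ^ n) p (row g) ∧ eqv (p ^ n) (row g) m := by
  intro k
  induction k with
  | zero =>
    intro m hk hm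
    have := hm.1
    have := hm.2.1
    omega
  | succ k ih =>
    intro m hk hm hE
    by_cases h11 : m = (1, 1)
    · refine ⟨Lm, Edge.root, ?_, ?_⟩
      · rw [row_Lm, ← h11]
        exact ⟨hE, m, hm⟩
      · rw [row_Lm, h11]
        exact eqv_refl _ _
    · have hne : m.1 ≠ m.2 := by
        intro heq
        apply h11
        apply eq_11_of_eqv hp hm
        unfold eqv
        have : m.1 * (1, 1).2 - m.2 * (1, 1).1 = (0 : ℤ) := by
          simp only
          rw [heq]; ring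
        rw [this]
        exact dvd_zero _
      have m1 := hm.1
      have m2 := hm.2.1
      have ih' : ∀ w : ℤ × ℤ, IsMinVec (p ^ n) p w w → ¬ Ell (p ^ n) w →
          w.1 + w.2 < m.1 + m.2 →
          ∃ g, Edge (p ^ n) p g ∧ Dir (p ^ n) p (row g) ∧ eqv (p ^ n) (row g) w := by
        intro w hw hwE hlt
        exact ih w (by omega) hw hwE
      rcases lt_or_gt_of_ne hne with hlt | hgt
      · -- m.1 < m.2
        have hq : flip (rot (rot (m.1, m.2 - m.1))) = m := by
          unfold flip rot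
          ext <;> simp
        have hqa : All p (m.1, m.2 - m.1) := by
          have h1 : All p (rot (rot (m.1, m.2 - m.1))) := by
            rw [← all_flip, hq]; exact hm.2.2.1
          exact all_rot.1 (all_rot.1 h1)
        refine cover_step hp (q := (m.1, m.2 - m.1)) (r := rot (rot (m.1, m.2 - m.1))) hm hE h11
          m1 (by simp only; omega) hqa hq.symm
          (fun x hx => triEq_rot_left.2 (triEq_rot_left.2 hx)) ?_ (by simp only; omega) ih'
        intro h
        rw [ell_iff] at h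
        exact eqv_symm (eqv_trans hp (all_rot.2 hqa) h (eqv_rot.2 h))
      · have hq : flip (rot (m.1 - m.2, m.2)) = m := by
          unfold flip rot
          ext <;> simp
        have hqa : All p (m.1 - m.2, m.2) := by
          have h1 : All p (rot (m.1 - m.2, m.2)) := by
            rw [← all_flip, hq]; exact hm.2.2.1
          exact all_rot.1 h1
        refine cover_step hp (q := (m.1 - m.2, m.2)) (r := rot (m.1 - m.2, m.2)) hm hE h11
          (by simp only; omega) m2 hqa hq.symm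
          (fun x hx => triEq_rot_left.2 hx) ?_ (by simp only; omega) ih'
        intro h
        rw [ell_iff] at h
        exact eqv_symm h

/-- every direction class is realised in the tree -/
lemma cover_dir (hp : Prime p) {v : ℤ × ℤ} (hv : All p v) (h : Dir (p ^ n) p v) :
    ∃ g, Edge (p ^ n) p g ∧ Dir (p ^ n) p (row g) ∧ eqv (p ^ n) (row g) v := by
  obtain ⟨hE, m, hm⟩ := h
  have hma := hm.2.2.1
  have hvm := hm.2.2.2.1
  have hmm := isMin_congr hp hv hma hvm hm
  have hmE : ¬ Ell (p ^ n) m := fun h0 => hE (ell_congr hp hma (eqv_symm hvm) h0)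
  obtain ⟨g, hg, hd, hgm⟩ := cover hp _ m le_rfl hmm hmE
  exact ⟨g, hg, hd, eqv_trans hp hma hgm (eqv_symm hvm)⟩

/-! ### uniqueness -/

lemma axis_of_root_left (g : SL2Z)
    (h : eqv (p ^ n) (1, 1) (flip (rot (row g)))) : TriEq (p ^ n) (row g) (1, 0) := by
  have h1 := eqv_flip.2 h
  rw [eqv_flip2_right] at h1
  have h2 : flip (1, 1) = (-(rot (rot (1, 0))).1, -(rot (rot (1, 0))).2) := by decide
  rw [h2, eqv_neg_left, eqv_rot] at h1
  exact Or.inr (Or.inl (eqv_symm h1))

lemma axis_of_root_right (g : SL2Z)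
    (h : eqv (p ^ n) (1, 1) (flip (rot (rot (row g))))) : TriEq (p ^ n) (row g) (1, 0) := by
  have h1 := eqv_flip.2 h
  rw [eqv_flip2_right] at h1
  have h2 : flip (1, 1) = (-(rot (rot (1, 0))).1, -(rot (rot (1, 0))).2) := by decide
  rw [h2, eqv_neg_left, eqv_rot, eqv_rot] at h1
  exact Or.inl (eqv_symm h1)

lemma Edge.unique (hp : Prime p) {g : SL2Z} (hg : Edge (p ^ n) p g) :
    ∀ {g' : SL2Z}, Edge (p ^ n) p g' → eqv (p ^ n) (row g) (row g') → g = g' := by
  induction hg with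
  | root =>
    intro g' hg' h
    rw [row_Lm] at h
    cases hg' with
    | root => rfl
    | @left g hg hd =>
      rw [row_mul_L'] at h
      exact absurd (axis_of_root_left g h) (dir_not_axis hp hd)
    | @right g hg hd =>
      rw [row_mul_T'] at h
      exact absurd (axis_of_root_right g h) (dir_not_axis hp hd)
  | @left g hg hd ih =>
    intro g' hg' h
    cases hg' with
    | root =>
      rw [row_Lm, row_mul_L'] at h
      exact absurd (axis_of_root_left g (eqv_symm h)) (dir_not_axis hp hd)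
    | @left w hw hdw =>
      rw [row_mul_L', row_mul_L', eqv_flip, eqv_rot] at h
      rw [ih hw h]
    | @right w hw hdw =>
      exfalso
      rw [row_mul_L', row_mul_T', eqv_flip, eqv_rot] at h
      exact dir_rot hp hdw (dir_congr hp (all_row hp _) (all_rot.2 (all_row hp _)) h hd)
  | @right g hg hd ih =>
    intro g' hg' h
    cases hg' with
    | root =>
      rw [row_Lm, row_mul_T'] at h
      exact absurd (axis_of_root_right g (eqv_symm h)) (dir_not_axis hp hd)
    | @left w hw hdw =>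
      exfalso
      rw [row_mul_L', row_mul_T', eqv_flip, eqv_rot] at h
      exact dir_rot hp hd (dir_congr hp (all_row hp _) (all_rot.2 (all_row hp _)) (eqv_symm h) hdw)
    | @right w hw hdw =>
      rw [row_mul_T', row_mul_T', eqv_flip, eqv_rot, eqv_rot] at h
      rw [ih hw h]

/-! ### the root and the flipped edges -/

lemma not_dvd_small (hN : 4 ≤ p ^ n) {x : ℤ} (h1 : 0 < x) (h2 : x < 4) : ¬ (p ^ n) ∣ x := by
  intro h
  have := Int.le_of_dvd h1 h
  omega

lemma dir_11 (hp : Prime p) (hN : 4 ≤ p ^ n) : Dir (p ^ n) p (1, 1) := by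
  constructor
  · unfold Ell
    have : ((1 : ℤ), (1 : ℤ)).1 ^ 2 + ((1 : ℤ), (1 : ℤ)).1 * ((1 : ℤ), (1 : ℤ)).2 +
      ((1 : ℤ), (1 : ℤ)).2 ^ 2 = 3 := by norm_num
    rw [this]
    exact not_dvd_small hN (by norm_num) (by norm_num)
  · refine ⟨(1, 1), by norm_num, by norm_num, all_11 hp, eqv_refl _ _, ?_⟩
    intro x x1 x2 xa xt
    by_contra hlt
    push Not at hlt
    unfold K at hlt
    simp only at hlt
    have h1 : x.1 + x.2 < 3 := by nlinarith
    have hcases : x = (1, 0) ∨ x = (2, 0) ∨ x = (1, 1) := by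
      have : (x.1 = 1 ∧ x.2 = 0) ∨ (x.1 = 2 ∧ x.2 = 0) ∨ (x.1 = 1 ∧ x.2 = 1) := by omega
      rcases this with h | h | h
      · left; ext
        · exact h.1
        · exact h.2
      · right; left; ext
        · exact h.1
        · exact h.2
      · right; right; ext
        · exact h.1
        · exact h.2
    rcases hcases with rfl | rfl | rfl
    · rcases xt with h | h | h
      · unfold eqv at h
        have e : (1 : ℤ) * 0 - 1 * 1 = -1 := by norm_num
        simp only at h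
        rw [e, dvd_neg] at h
        exact not_dvd_small hN (by norm_num) (by norm_num) h
      · unfold eqv rot at h
        simp only at h
        have e : (1 : ℤ) * (1 + 0) - 1 * -0 = 1 := by norm_num
        rw [e] at h
        exact not_dvd_small hN (by norm_num) (by norm_num) h
      · unfold eqv rot at h
        simp only at h
        have e : (1 : ℤ) * (-0 + (1 + 0)) - 1 * -(1 + 0) = 2 := by norm_num
        rw [e] at h
        exact not_dvd_small hN (by norm_num) (by norm_num) h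
    · norm_num at hlt
    · norm_num at hlt

lemma ell_neg {N : ℤ} {v : ℤ × ℤ} : Ell N (-v.1, -v.2) ↔ Ell N v := by
  unfold Ell
  have : (-v.1) ^ 2 + (-v.1) * (-v.2) + (-v.2) ^ 2 = v.1 ^ 2 + v.1 * v.2 + v.2 ^ 2 := by ring
  simp only
  rw [this]

lemma all_neg {v : ℤ × ℤ} : All p (-v.1, -v.2) ↔ All p v := by
  unfold All
  simp

/-- facts about the class `r` of the upper side of an edge `flip r` of the tree -/
lemma flip_facts (hp : Prime p) (hN : 4 ≤ p ^ n) {r : ℤ × ℤ} (hr : All p r)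
    (hE : ¬ Ell (p ^ n) r) (hd : ¬ Dir (p ^ n) p r) (ha : ¬ TriEq (p ^ n) r (1, 0)) :
    ¬ Ell (p ^ n) (flip (flip r)) ∧ ¬ Dir (p ^ n) p (flip (flip r)) ∧
      ¬ TriEq (p ^ n) (flip r) (1, 0) := by
  refine ⟨?_, ?_, ?_⟩
  · rw [flip2, ell_neg]; exact hE
  · intro h
    apply hd
    refine dir_congr hp (all_flip.2 (all_flip.2 hr)) hr ?_ h
    rw [eqv_flip2_left]
    exact eqv_refl _ _
  · intro h
    rcases h with h | h | h
    · have h1 := eqv_flip.2 h
      rw [eqv_flip2_left] at h1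
      have h2 : flip (1, 0) = (-(rot (1, 0)).1, -(rot (1, 0)).2) := by decide
      rw [h2, eqv_neg_right] at h1
      exact ha (Or.inr (Or.inl h1))
    · have h1 := eqv_flip.2 h
      rw [eqv_flip2_left] at h1
      have h2 : flip (rot (1, 0)) = (1, 0) := by decide
      rw [h2] at h1
      exact ha (Or.inl h1)
    · have h1 := eqv_flip.2 h
      rw [eqv_flip2_left] at h1
      have h2 : flip (rot (rot (1, 0))) = (1, 1) := by decide
      rw [h2] at h1
      exact hd (dir_congr hp (all_11 hp) hr (eqv_symm h1) (dir_11 hp hN))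

lemma Edge.facts (hp : Prime p) (hN : 4 ≤ p ^ n) {g : SL2Z} (hg : Edge (p ^ n) p g) :
    ¬ Ell (p ^ n) (flip (row g)) ∧ ¬ Dir (p ^ n) p (flip (row g)) ∧
      ¬ TriEq (p ^ n) (row g) (1, 0) := by
  cases hg with
  | root =>
    rw [row_Lm]
    refine ⟨?_, ?_, ?_⟩
    · unfold Ell flip
      have : (1 : ℤ) ^ 2 + 1 * -1 + (-1) ^ 2 = 1 := by norm_num
      simp only
      rw [this]
      exact not_dvd_small hN (by norm_num) (by norm_num)
    · intro h
      apply dir_not_axis hp h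
      right; right
      have h2 : flip (1, 1) = (-(rot (rot (1, 0))).1, -(rot (rot (1, 0))).2) := by decide
      rw [h2, eqv_neg_left]
      exact eqv_refl _ _
    · exact dir_not_axis hp (dir_11 hp hN)
  | @left g hg hd =>
    rw [row_mul_L']
    exact flip_facts hp hN (all_rot.2 (all_row hp _)) (fun h => hd.1 (ell_rot.1 h))
      (fun h => dir_rot hp hd h) (fun h => dir_not_axis hp hd (triEq_rot_left.1 h))
  | @right g hg hd =>
    rw [row_mul_T']
    exact flip_facts hp hN (all_rot.2 (all_rot.2 (all_row hp _)))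
      (fun h => hd.1 (ell_rot.1 (ell_rot.1 h)))
      (fun h => dir_rot2 hp hd h)
      (fun h => dir_not_axis hp hd (triEq_rot_left.1 (triEq_rot_left.1 h)))

/-- **Pairing**: a non-elliptic leaf has a partner leaf. -/
lemma Edge.partner (hp : Prime p) (hN : 4 ≤ p ^ n) {g : SL2Z} (hg : Edge (p ^ n) p g)
    (hd : ¬ Dir (p ^ n) p (row g)) (hE : ¬ Ell (p ^ n) (row g)) :
    ∃ g', Edge (p ^ n) p g' ∧ ¬ Dir (p ^ n) p (row g') ∧ ¬ Ell (p ^ n) (row g') ∧
      eqv (p ^ n) (row g') (flip (row g)) := by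
  obtain ⟨f1, f2, f3⟩ := hg.facts hp hN
  have hva := all_row hp g
  have fin : ∀ g', Edge (p ^ n) p g' → eqv (p ^ n) (row g') (flip (row g)) →
      ∃ g', Edge (p ^ n) p g' ∧ ¬ Dir (p ^ n) p (row g') ∧ ¬ Ell (p ^ n) (row g') ∧
        eqv (p ^ n) (row g') (flip (row g)) := by
    intro g' hg' he
    refine ⟨g', hg', ?_, ?_, he⟩
    · intro h
      exact f2 (dir_congr hp (all_row hp _) (all_flip.2 hva) he h)
    · intro h
      exact f1 (ell_congr hp (all_row hp _) he h)
  rcases dir_cases hp hva hE with h | h | h | h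
  · exact absurd h f3
  · exact absurd h hd
  · obtain ⟨g1, hg1, hd1, he1⟩ := cover_dir hp (all_rot.2 hva) h
    apply fin (g1 * ModularGroup.T) (Edge.right hg1 hd1)
    rw [row_mul_T', eqv_flip]
    have := eqv_rot.2 (eqv_rot.2 he1)
    rwa [eqv_rot3_right] at this
  · obtain ⟨g1, hg1, hd1, he1⟩ := cover_dir hp (all_rot.2 (all_rot.2 hva)) h
    apply fin (g1 * Lm) (Edge.left hg1 hd1)
    rw [row_mul_L', eqv_flip]
    have := eqv_rot.2 he1
    rwa [eqv_rot3_right] at this

end

end Pool.Agent.Helper95.FareyVec
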