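import Mathlib

/-!
Definitions for problem MP_f9e819_nt: special polygons (in the sense of Kulkarni) in terms of their
cusps and side pairings.
-/

namespace Pool.Agent.Helper95.FareyDefs

open Matrix MatrixGroups

/-- The order-three element of `PSL(2,ℤ)` fixing `e^{iπ/3}`; it maps `∞ ↦ 0 ↦ 1 ↦ ∞`. -/
def rho : SL(2, ℤ) := ⟨!![0, 1; -1, 1], by simp [Matrix.det_fin_two]⟩

/-- The combinatorial data of a special polygon whose two outer sides are the vertical half-lines
over `0` and `1`.  Its cusps in `[0,1]` are `num i / den i`, `0 ≤ i ≤ r` (the values of `num`, `den`,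
`odd`, `pair` outside this range are irrelevant).  Consecutive cusps are Farey neighbours.  The
interval `i < r` between the cusps `i` and `i+1` carries either (`odd i`) a pair of odd edges, meeting
at the centre of the Farey triangle below the even line which joins the two cusps, or
(`¬ odd i`) the even edge joining the two cusps, which is paired with the even edge of the interval
`pair i` (possibly with itself, when `pair i = i`). -/
structure SpecialPolygon where
  r : ℕ
  num : ℕ → ℤ
  den : ℕ → ℤ
  den_pos : ∀ i ≤ r, 0 < den i
  first_num : num 0 = 0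
  first_den : den 0 = 1
  last_num : num r = 1
  last_den : den r = 1
  neighbour : ∀ i < r, num (i + 1) * den i - num i * den (i + 1) = 1
  odd : ℕ → Prop
  pair : ℕ → ℕ
  pair_lt : ∀ i < r, pair i < r
  pair_pair : ∀ i < r, pair (pair i) = i
  pair_odd : ∀ i < r, odd i → pair i = i

/-- The element of `SL(2,ℤ)` carrying `0` to the left cusp and `∞` to the right cusp of the
interval `i`; it carries the right half plane to the region below the even line joining them. -/
def SpecialPolygon.edge (P : SpecialPolygon) (i : ℕ) (hi : i < P.r) : SL(2, ℤ) :=
  ⟨!![P.num (i + 1), P.num i; P.den (i + 1), P.den i], by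
    rw [Matrix.det_fin_two_of]; exact P.neighbour i hi⟩

/-- The side pairings: `z ↦ z + 1`; for an odd interval the order-three element fixing the odd
vertex and carrying the right odd edge to the left one; for an even edge the element carrying it to
the even edge it is paired with, and the side of the polygon to the opposite side. -/
def SpecialPolygon.sidePairings (P : SpecialPolygon) : Set SL(2, ℤ) :=
  {g | g = ModularGroup.T ∨
    (∃ (i : ℕ) (hi : i < P.r), P.odd i ∧ g = P.edge i hi * rho * (P.edge i hi)⁻¹) ∨
    (∃ (i : ℕ) (hi : i < P.r), ¬ P.odd i ∧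
      g = P.edge (P.pair i) (P.pair_lt i hi) * ModularGroup.S * (P.edge i hi)⁻¹)}

/-- `P` is a special polygon for `Γ₀(N)`: its side pairings generate the image of `Γ₀(N)` in
`PSL(2,ℤ)`. -/
def SpecialPolygon.IsFor (P : SpecialPolygon) (N : ℕ) : Prop :=
  Subgroup.closure ((QuotientGroup.mk' (Subgroup.center SL(2, ℤ))) '' P.sidePairings) =
    (CongruenceSubgroup.Gamma0 N).map (QuotientGroup.mk' (Subgroup.center SL(2, ℤ)))

end Pool.Agent.Helper95.FareyDefs
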