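import Mathlib
import Pool.Agent.Helper95.FareyCover
import Pool.Agent.Helper95.FareyDefs

/-!
From the tree of Farey edges to a special polygon for `Γ₀(pⁿ)` (problem MP_f9e819_nt).
-/

namespace Pool.Agent.Helper95.FareyVec

open Matrix MatrixGroups Pool.Agent.Helper95.FareyDefs

section leaves

open Classical in
/-- the boundary edges below `g`, from left to right -/
noncomputable def leaves (N p : ℤ) : ℕ → SL2Z → List SL2Z
  | 0, g => [g]
  | k + 1, g => if Dir N p (row g) then
      leaves N p k (g * Lm) ++ leaves N p k (g * ModularGroup.T) else [g]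

lemma leaves_zero (N p : ℤ) (g : SL2Z) : leaves N p 0 g = [g] := rfl

lemma leaves_pos {N p : ℤ} {k : ℕ} {g : SL2Z} (h : Dir N p (row g)) :
    leaves N p (k + 1) g = leaves N p k (g * Lm) ++ leaves N p k (g * ModularGroup.T) := by
  rw [leaves, if_pos h]

lemma leaves_neg {N p : ℤ} {k : ℕ} {g : SL2Z} (h : ¬ Dir N p (row g)) :
    leaves N p k g = [g] := by
  cases k with
  | zero => rfl
  | succ k => rw [leaves, if_neg h]

/-- left end data agree -/
def sameLeft (a b : SL2Z) : Prop := (top a).2 = (top b).2 ∧ (row a).2 = (row b).2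
def sameRight (a b : SL2Z) : Prop := (top a).1 = (top b).1 ∧ (row a).1 = (row b).1
/-- `b` starts where `a` ends; both have positive denominators -/
def Next (a b : SL2Z) : Prop :=
  (top b).2 = (top a).1 ∧ (row b).2 = (row a).1 ∧ 0 < (row a).1 ∧ 0 < (row a).2 ∧
    0 < (row b).1 ∧ 0 < (row b).2

lemma sameLeft_L (g : SL2Z) : sameLeft (g * Lm) g := by
  unfold sameLeft
  rw [top_mul_L, row_mul_L]
  exact ⟨rfl, rfl⟩

lemma sameRight_T (g : SL2Z) : sameRight (g * ModularGroup.T) g := by
  unfold sameRight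
  rw [top_mul_T, row_mul_T]
  exact ⟨rfl, rfl⟩

lemma leaves_pos_rows (N p : ℤ) (k : ℕ) : ∀ g : SL2Z, 0 < (row g).1 → 0 < (row g).2 →
    ∀ x ∈ leaves N p k g, 0 < (row x).1 ∧ 0 < (row x).2 := by
  induction k with
  | zero =>
    intro g h1 h2 x hx
    rw [leaves_zero, List.mem_singleton] at hx
    subst hx
    exact ⟨h1, h2⟩
  | succ k ih =>
    intro g h1 h2 x hx
    by_cases hd : Dir N p (row g)
    · rw [leaves_pos hd, List.mem_append] at hx
      rcases hx with hx | hx
      · refine ih (g * Lm) ?_ ?_ x hx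
        · rw [row_mul_L]; simp only; omega
        · rw [row_mul_L]; exact h2
      · refine ih (g * ModularGroup.T) ?_ ?_ x hx
        · rw [row_mul_T]; exact h1
        · rw [row_mul_T]; simp only; omega
    · rw [leaves_neg hd, List.mem_singleton] at hx
      subst hx
      exact ⟨h1, h2⟩

lemma leaves_chain (N p : ℤ) (k : ℕ) : ∀ g : SL2Z, 0 < (row g).1 → 0 < (row g).2 →
    (leaves N p k g).IsChain Next ∧
    (∃ h, (leaves N p k g).head? = some h ∧ sameLeft h g) ∧
    (∃ t, (leaves N p k g).getLast? = some t ∧ sameRight t g) := by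
  induction k with
  | zero =>
    intro g h1 h2
    rw [leaves_zero]
    exact ⟨List.isChain_singleton _, ⟨g, rfl, rfl, rfl⟩, ⟨g, rfl, rfl, rfl⟩⟩
  | succ k ih =>
    intro g h1 h2
    by_cases hd : Dir N p (row g)
    · rw [leaves_pos hd]
      have hL1 : 0 < (row (g * Lm)).1 := by rw [row_mul_L]; simp only; omega
      have hL2 : 0 < (row (g * Lm)).2 := by rw [row_mul_L]; exact h2
      have hT1 : 0 < (row (g * ModularGroup.T)).1 := by rw [row_mul_T]; exact h1
      have hT2 : 0 < (row (g * ModularGroup.T)).2 := by rw [row_mul_T]; simp only; omega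
      obtain ⟨c1, ⟨a, ha, hal⟩, ⟨b, hb, hbr⟩⟩ := ih (g * Lm) hL1 hL2
      obtain ⟨c2, ⟨a', ha', hal'⟩, ⟨b', hb', hbr'⟩⟩ := ih (g * ModularGroup.T) hT1 hT2
      refine ⟨?_, ⟨a, ?_, ?_⟩, ⟨b', ?_, ?_⟩⟩
      · rw [List.isChain_append]
        refine ⟨c1, c2, ?_⟩
        intro x hx y hy
        rw [hb, Option.mem_some_iff] at hx
        rw [ha', Option.mem_some_iff] at hy
        subst hx
        subst hy
        have hbm : b ∈ leaves N p k (g * Lm) := List.mem_of_getLast? hb
        have ham : a' ∈ leaves N p k (g * ModularGroup.T) := List.mem_of_head? ha'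
        have pb := leaves_pos_rows N p k _ hL1 hL2 b hbm
        have pa := leaves_pos_rows N p k _ hT1 hT2 a' ham
        refine ⟨?_, ?_, pb.1, pb.2, pa.1, pa.2⟩
        · rw [hbr.1, hal'.1, top_mul_L, top_mul_T]
        · rw [hbr.2, hal'.2, row_mul_L, row_mul_T]
      · rw [List.head?_append, ha]; rfl
      · exact ⟨hal.1.trans (sameLeft_L g).1, hal.2.trans (sameLeft_L g).2⟩
      · rw [List.getLast?_append, hb']; rfl
      · exact ⟨hbr'.1.trans (sameRight_T g).1, hbr'.2.trans (sameRight_T g).2⟩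
    · rw [leaves_neg hd]
      exact ⟨List.isChain_singleton _, ⟨g, rfl, rfl, rfl⟩, ⟨g, rfl, rfl, rfl⟩⟩

/-- left end points increase strictly -/
def Lt (a b : SL2Z) : Prop :=
  0 < (row a).2 ∧ 0 < (row b).2 ∧ (top a).2 * (row b).2 < (top b).2 * (row a).2

lemma lt_of_next {a b : SL2Z} (h : Next a b) : Lt a b := by
  obtain ⟨h1, h2, h3, h4, h5, h6⟩ := h
  refine ⟨h4, h6, ?_⟩
  rw [h1, h2]
  have := det_eq a
  linarith

instance : Trans Lt Lt Lt where
  trans := by
    rintro a b c ⟨h1, h2, h3⟩ ⟨-, h4, h5⟩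
    refine ⟨h1, h4, ?_⟩
    have e1 : (top a).2 * (row b).2 * (row c).2 < (top b).2 * (row a).2 * (row c).2 :=
      mul_lt_mul_of_pos_right h3 h4
    have e2 : (top b).2 * (row c).2 * (row a).2 < (top c).2 * (row b).2 * (row a).2 :=
      mul_lt_mul_of_pos_right h5 h1
    have e3 : (row b).2 * ((top a).2 * (row c).2) < (row b).2 * ((top c).2 * (row a).2) := by
      linarith
    exact lt_of_mul_lt_mul_left e3 h2.le

lemma leaves_nodup (N p : ℤ) (k : ℕ) (g : SL2Z) (h1 : 0 < (row g).1) (h2 : 0 < (row g).2) :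
    (leaves N p k g).Nodup := by
  have hc := (leaves_chain N p k g h1 h2).1
  have hc2 : (leaves N p k g).IsChain Lt := hc.imp (fun _ _ h => lt_of_next h)
  have hp := List.isChain_iff_pairwise.1 hc2
  refine hp.imp ?_
  rintro a b ⟨-, -, h⟩ rfl
  exact lt_irrefl _ h

lemma mem_leaves_spec {N p : ℤ} {B : ℤ}
    (hB : ∀ w, Edge N p w → Dir N p (row w) → (row w).1 + (row w).2 ≤ B) (k : ℕ) :
    ∀ g, Edge N p g → B < (row g).1 + (row g).2 + k → ∀ x ∈ leaves N p k g,
      Edge N p x ∧ ¬ Dir N p (row x) := by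
  induction k with
  | zero =>
    intro g hg hlt x hx
    rw [leaves_zero, List.mem_singleton] at hx
    subst hx
    refine ⟨hg, fun hd => ?_⟩
    have := hB x hg hd
    simp only [Nat.cast_zero, add_zero] at hlt
    omega
  | succ k ih =>
    intro g hg hlt x hx
    have hpos := hg.pos
    by_cases hd : Dir N p (row g)
    · rw [leaves_pos hd, List.mem_append] at hx
      push_cast at hlt
      rcases hx with hx | hx
      · refine ih _ (Edge.left hg hd) ?_ x hx
        rw [row_mul_L]; simp only; omega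
      · refine ih _ (Edge.right hg hd) ?_ x hx
        rw [row_mul_T]; simp only; omega
    · rw [leaves_neg hd, List.mem_singleton] at hx
      subst hx
      exact ⟨hg, hd⟩

lemma mem_leaves_complete {N p : ℤ} {B : ℤ}
    (hB : ∀ w, Edge N p w → Dir N p (row w) → (row w).1 + (row w).2 ≤ B) (k0 : ℕ)
    (hk0 : B < 2 + k0) {w : SL2Z} (hw : Edge N p w) :
    ∃ k : ℕ, B < (row w).1 + (row w).2 + k ∧ ∀ x ∈ leaves N p k w, x ∈ leaves N p k0 Lm := by
  induction hw with
  | root =>
    refine ⟨k0, ?_, fun x hx => hx⟩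
    rw [row_Lm]; simp only; omega
  | @left g hg hd ih =>
    obtain ⟨k, hk, hsub⟩ := ih
    have hpos := hg.pos
    have hle := hB g hg hd
    cases k with
    | zero =>
      exfalso
      simp only [Nat.cast_zero, add_zero] at hk
      omega
    | succ k =>
      refine ⟨k, ?_, ?_⟩
      · rw [row_mul_L]; push_cast at hk; simp only; omega
      · intro x hx
        apply hsub
        rw [leaves_pos hd, List.mem_append]
        exact Or.inl hx
  | @right g hg hd ih =>
    obtain ⟨k, hk, hsub⟩ := ih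
    have hpos := hg.pos
    have hle := hB g hg hd
    cases k with
    | zero =>
      exfalso
      simp only [Nat.cast_zero, add_zero] at hk
      omega
    | succ k =>
      refine ⟨k, ?_, ?_⟩
      · rw [row_mul_T]; push_cast at hk; simp only; omega
      · intro x hx
        apply hsub
        rw [leaves_pos hd, List.mem_append]
        exact Or.inr hx

end leaves

/-! ### membership in `Γ₀(N)` -/

lemma mem_Gamma0_iff {N : ℕ} (A M : SL2Z) :
    A * M⁻¹ ∈ CongruenceSubgroup.Gamma0 N ↔ eqv (N : ℤ) (row A) (row M) := by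
  rw [CongruenceSubgroup.Gamma0_mem]
  have h : (A * M⁻¹).1 1 0 = (row A).1 * (row M).2 - (row A).2 * (row M).1 := by
    have e : (A * M⁻¹).1 = A.1 * M.1.adjugate := rfl
    rw [e, Matrix.adjugate_fin_two]
    unfold row
    simp [Matrix.mul_apply, Fin.sum_univ_two]
    ring
  have h' : ((A * M⁻¹) 1 0 : ZMod N) = (((row A).1 * (row M).2 - (row A).2 * (row M).1 : ℤ) : ZMod N) := by
    rw [← h]
  rw [h', ZMod.intCast_zmod_eq_zero_iff_dvd]
  rfl

lemma mem_Gamma0_iff' {N : ℕ} (A : SL2Z) :
    A ∈ CongruenceSubgroup.Gamma0 N ↔ eqv (N : ℤ) (row A) (0, 1) := by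
  have h := mem_Gamma0_iff (N := N) A 1
  have h1 : row (1 : SL2Z) = (0, 1) := by decide
  rw [inv_one, mul_one, h1] at h
  exact h

lemma T_inv : (ModularGroup.T : SL2Z)⁻¹ = ModularGroup.S * Rm := by
  rw [inv_eq_iff_mul_eq_one]
  decide

lemma S_inv : (ModularGroup.S : SL2Z)⁻¹ = (-1) * ModularGroup.S := by
  rw [inv_eq_iff_mul_eq_one]
  decide

/-! ### generation -/

/-- Abstract generation lemma: a subgroup `G` containing `-1`, `T`, the rotations at elliptic
leaves and the pairings of the other leaves contains `Γ₀(pⁿ)`. -/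
lemma generation {q n : ℕ} (hp : Prime (q : ℤ)) (hN : (4 : ℤ) ≤ (q : ℤ) ^ n) (G : Subgroup SL2Z)
    (hneg : (-1 : SL2Z) ∈ G) (hT : ModularGroup.T ∈ G)
    (hle : G ≤ CongruenceSubgroup.Gamma0 (q ^ n))
    (hell : ∀ w, Edge ((q : ℤ) ^ n) q w → Ell ((q : ℤ) ^ n) (row w) → w * Rm * w⁻¹ ∈ G)
    (hpair : ∀ w, Edge ((q : ℤ) ^ n) q w → ¬ Dir ((q : ℤ) ^ n) q (row w) →
      ¬ Ell ((q : ℤ) ^ n) (row w) →
      ∃ w', Edge ((q : ℤ) ^ n) q w' ∧ w' * ModularGroup.S * w⁻¹ ∈ G) :
    CongruenceSubgroup.Gamma0 (q ^ n) ≤ G := by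
  -- elements reachable
  set BaseK : SL2Z → Prop := fun w => w = 1 ∨ (Edge ((q : ℤ) ^ n) q w ∧
    (Dir ((q : ℤ) ^ n) q (row w) ∨ Ell ((q : ℤ) ^ n) (row w))) with hBaseK
  set GK : SL2Z → Prop := fun x => ∃ g ∈ G, ∃ w, BaseK w ∧
    (x = g * w ∨ x = g * w * Rm ∨ x = g * w * Rm * Rm) with hGK
  have hmulG : ∀ g ∈ G, ∀ x, GK x → GK (g * x) := by
    rintro g hg x ⟨g', hg', w, hw, h⟩
    refine ⟨g * g', G.mul_mem hg hg', w, hw, ?_⟩
    rcases h with rfl | rfl | rfl
    · left; rw [mul_assoc]
    · right; left; simp only [mul_assoc]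
    · right; right; simp only [mul_assoc]
  have hnegmul : ∀ x, GK x → GK (-x) := by
    intro x hx
    have := hmulG _ hneg x hx
    rwa [neg_one_mul] at this
  have hR : ∀ x, GK x → GK (x * Rm) := by
    rintro x ⟨g, hg, w, hw, h⟩
    rcases h with rfl | rfl | rfl
    · exact ⟨g, hg, w, hw, Or.inr (Or.inl rfl)⟩
    · exact ⟨g, hg, w, hw, Or.inr (Or.inr rfl)⟩
    · have e : g * w * Rm * Rm * Rm = -(g * w) := by
        have : g * w * Rm * Rm * Rm = g * w * (Rm * Rm * Rm) := by simp only [mul_assoc]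
        rw [this, R3, mul_neg, mul_one]
      rw [e]
      exact hnegmul _ ⟨g, hg, w, hw, Or.inl rfl⟩
  have h1 : GK 1 := ⟨1, G.one_mem, 1, Or.inl rfl, Or.inl (by simp)⟩
  -- the other side of an edge of the tree
  have hBS : ∀ w, Edge ((q : ℤ) ^ n) q w → GK (w * ModularGroup.S) := by
    intro w hw
    cases hw with
    | root =>
      have e : Lm * ModularGroup.S = -(1 * Rm) := by decide
      rw [e]
      exact hnegmul _ (hR _ h1)
    | @left u hu hd =>
      have e : u * Lm * ModularGroup.S = -(u * Rm) := by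
        rw [L_eq]
        have : u * (Rm * ModularGroup.S) * ModularGroup.S =
          u * Rm * (ModularGroup.S * ModularGroup.S) := by simp only [mul_assoc]
        rw [this, S2, mul_neg, mul_one]
      rw [e]
      exact hnegmul _ ⟨1, G.one_mem, u, Or.inr ⟨hu, Or.inl hd⟩, Or.inr (Or.inl (by simp))⟩
    | @right u hu hd =>
      have e : u * ModularGroup.T * ModularGroup.S = -(u * Rm * Rm) := by
        rw [T_eq]
        have : u * (Rm * Rm * ModularGroup.S) * ModularGroup.S =
          u * Rm * Rm * (ModularGroup.S * ModularGroup.S) := by simp only [mul_assoc]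
        rw [this, S2, mul_neg, mul_one]
      rw [e]
      exact hnegmul _ ⟨1, G.one_mem, u, Or.inr ⟨hu, Or.inl hd⟩, Or.inr (Or.inr (by simp))⟩
  have hA : ∀ w, Edge ((q : ℤ) ^ n) q w → GK w := by
    intro w hw
    by_cases hd : Dir ((q : ℤ) ^ n) q (row w)
    · exact ⟨1, G.one_mem, w, Or.inr ⟨hw, Or.inl hd⟩, Or.inl (by simp)⟩
    by_cases hE : Ell ((q : ℤ) ^ n) (row w)
    · exact ⟨1, G.one_mem, w, Or.inr ⟨hw, Or.inr hE⟩, Or.inl (by simp)⟩
    obtain ⟨w', hw', hg⟩ := hpair w hw hd hE
    have h2 := hmulG _ (G.inv_mem hg) _ (hBS w' hw')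
    have e : (w' * ModularGroup.S * w⁻¹)⁻¹ * (w' * ModularGroup.S) = w := by group
    rwa [e] at h2
  have hwS : ∀ w, BaseK w → GK (w * ModularGroup.S) ∧ GK (w * Rm * ModularGroup.S) ∧
      GK (w * Rm * Rm * ModularGroup.S) := by
    rintro w (rfl | ⟨hw, hde⟩)
    · refine ⟨?_, ?_, ?_⟩
      · have e : (1 : SL2Z) * ModularGroup.S = ModularGroup.T⁻¹ * (-(1 * Rm * Rm)) := by
          rw [T_inv]; decide
        rw [e]
        exact hmulG _ (G.inv_mem hT) _ (hnegmul _ (hR _ (hR _ h1)))
      · have e : (1 : SL2Z) * Rm * ModularGroup.S = Lm := by decide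
        rw [e]
        exact hA _ Edge.root
      · have e : (1 : SL2Z) * Rm * Rm * ModularGroup.S = ModularGroup.T * 1 := by decide
        rw [e]
        exact hmulG _ hT _ h1
    · have hS := hBS w hw
      rcases hde with hd | hE
      · refine ⟨hS, ?_, ?_⟩
        · have e : w * Rm * ModularGroup.S = w * Lm := by rw [L_eq, mul_assoc]
          rw [e]
          exact hA _ (Edge.left hw hd)
        · have e : w * Rm * Rm * ModularGroup.S = w * ModularGroup.T := by
            rw [T_eq]; simp only [mul_assoc]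
          rw [e]
          exact hA _ (Edge.right hw hd)
      · have hg := hell w hw hE
        refine ⟨hS, ?_, ?_⟩
        · have e : w * Rm * ModularGroup.S = (w * Rm * w⁻¹) * (w * ModularGroup.S) := by group
          rw [e]
          exact hmulG _ hg _ hS
        · have e : w * Rm * Rm * ModularGroup.S =
              (w * Rm * w⁻¹) * ((w * Rm * w⁻¹) * (w * ModularGroup.S)) := by group
          rw [e]
          exact hmulG _ hg _ (hmulG _ hg _ hS)
  have hSm : ∀ x, GK x → GK (x * ModularGroup.S) := by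
    rintro x ⟨g, hg, w, hw, h⟩
    obtain ⟨k1, k2, k3⟩ := hwS w hw
    rcases h with rfl | rfl | rfl
    · have := hmulG g hg _ k1
      simpa only [mul_assoc] using this
    · have := hmulG g hg _ k2
      simpa only [mul_assoc] using this
    · have := hmulG g hg _ k3
      simpa only [mul_assoc] using this
  have hTm : ∀ x, GK x → GK (x * ModularGroup.T) := by
    intro x hx
    have := hSm _ (hR _ (hR _ hx))
    have e : x * Rm * Rm * ModularGroup.S = x * ModularGroup.T := by
      rw [T_eq]; simp only [mul_assoc]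
    rwa [e] at this
  have hall : ∀ x : SL2Z, GK x := by
    intro x
    have hx : x ∈ Subgroup.closure {ModularGroup.S, ModularGroup.T} := by
      rw [SpecialLinearGroup.SL2Z_generators]; exact Subgroup.mem_top _
    induction hx using Subgroup.closure_induction_right with
    | one => exact h1
    | mul_right x hx y hy ih =>
      rcases hy with rfl | hy
      · exact hSm _ ih
      · rw [Set.mem_singleton_iff] at hy
        subst hy
        exact hTm _ ih
    | mul_inv_cancel x hx y hy ih =>
      rcases hy with rfl | hy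
      · rw [S_inv]
        have := hnegmul _ (hSm _ ih)
        have e : x * (-1 * ModularGroup.S) = -(x * ModularGroup.S) := by
          rw [neg_one_mul, mul_neg]
        rwa [e]
      · rw [Set.mem_singleton_iff] at hy
        subst hy
        rw [T_inv]
        have := hR _ (hSm _ ih)
        rwa [mul_assoc] at this
  -- conclusion
  intro x hx
  obtain ⟨g, hg, w, hw, h⟩ := hall x
  have key : ∀ κ : SL2Z, x = g * κ → eqv ((q : ℤ) ^ n) (row κ) (0, 1) := by
    intro κ hκ
    have h2 : κ = g⁻¹ * x := by rw [hκ]; group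
    have h3 : κ ∈ CongruenceSubgroup.Gamma0 (q ^ n) := by
      rw [h2]
      exact Subgroup.mul_mem _ (Subgroup.inv_mem _ (hle hg)) hx
    rw [mem_Gamma0_iff'] at h3
    exact_mod_cast h3
  have h01 : ((0 : ℤ), (1 : ℤ)) = rot (1, 0) := by decide
  have hnoE : ∀ v, All (q : ℤ) v → Ell ((q : ℤ) ^ n) v → ¬ eqv ((q : ℤ) ^ n) v (0, 1) := by
    intro v hv hE he
    have h4 := ell_congr hp hv he hE
    unfold Ell at h4
    have e : ((0 : ℤ), (1 : ℤ)).1 ^ 2 + ((0 : ℤ), (1 : ℤ)).1 * ((0 : ℤ), (1 : ℤ)).2 +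
      ((0 : ℤ), (1 : ℤ)).2 ^ 2 = 1 := by norm_num
    rw [e] at h4
    exact not_dvd_small hN (by norm_num) (by norm_num) h4
  rcases hw with rfl | ⟨hw, hde⟩
  · rcases h with h | h | h
    · rw [h, mul_one]; exact hg
    · exfalso
      have h2 := key (1 * Rm) (by rw [h]; simp only [mul_assoc])
      have e : row (1 * Rm) = (-1, 1) := by decide
      rw [e] at h2
      unfold eqv at h2
      have e2 : (-1 : ℤ) * 1 - 1 * 0 = -1 := by norm_num
      simp only at h2
      rw [e2, dvd_neg] at h2
      exact not_dvd_small hN (by norm_num) (by norm_num) h2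
    · exfalso
      have h2 := key (1 * Rm * Rm) (by rw [h]; simp only [mul_assoc])
      have e : row (1 * Rm * Rm) = (-1, 0) := by decide
      rw [e] at h2
      unfold eqv at h2
      have e2 : (-1 : ℤ) * 1 - 0 * 0 = -1 := by norm_num
      simp only at h2
      rw [e2, dvd_neg] at h2
      exact not_dvd_small hN (by norm_num) (by norm_num) h2
  · exfalso
    rcases hde with hd | hE
    · apply dir_not_axis hp hd
      rcases h with h | h | h
      · have h2 := key w h
        rw [h01] at h2
        exact Or.inr (Or.inl h2)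
      · have h2 := key (w * Rm) (by rw [h]; simp only [mul_assoc])
        rw [h01, row_mul_R] at h2
        exact triEq_rot_left.1 (Or.inr (Or.inl h2))
      · have h2 := key (w * Rm * Rm) (by rw [h]; simp only [mul_assoc])
        rw [h01, row_mul_R, row_mul_R] at h2
        exact triEq_rot_left.1 (triEq_rot_left.1 (Or.inr (Or.inl h2)))
    · rcases h with h | h | h
      · exact hnoE _ (all_row hp _) hE (key w h)
      · have h2 := key (w * Rm) (by rw [h]; simp only [mul_assoc])
        rw [row_mul_R] at h2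
        exact hnoE _ (all_rot.2 (all_row hp _)) (ell_rot.2 hE) h2
      · have h2 := key (w * Rm * Rm) (by rw [h]; simp only [mul_assoc])
        rw [row_mul_R, row_mul_R] at h2
        exact hnoE _ (all_rot.2 (all_rot.2 (all_row hp _))) (ell_rot.2 (ell_rot.2 hE)) h2

end Pool.Agent.Helper95.FareyVec
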