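import Mathlib

/-!
Hofstadter's set generated by `a * b - 1`, and the grid of reachable cells.
-/

namespace Pool.Agent.Helper95.HofSet

open Finset

/-- Hofstadter's set: the smallest set of integers that contains `2` and `3` and is closed under
`a * b - 1` (with `a = b` allowed), that is, the intersection of all sets with these
properties. -/
def hofSet : Set ℤ :=
  ⋂₀ {S : Set ℤ | (2 : ℤ) ∈ S ∧ (3 : ℤ) ∈ S ∧ ∀ a ∈ S, ∀ b ∈ S, a * b - 1 ∈ S}

lemma two_mem : (2 : ℤ) ∈ hofSet := fun _ hS => hS.1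

lemma three_mem : (3 : ℤ) ∈ hofSet := fun _ hS => hS.2.1

lemma mul_mem {a b : ℤ} (ha : a ∈ hofSet) (hb : b ∈ hofSet) : a * b - 1 ∈ hofSet :=
  fun S hS => hS.2.2 a (ha S hS) b (hb S hS)

lemma five_mem : (5 : ℤ) ∈ hofSet := by
  have := mul_mem two_mem three_mem
  norm_num at this
  exact this

lemma eight_mem : (8 : ℤ) ∈ hofSet := by
  have := mul_mem three_mem three_mem
  norm_num at this
  exact this

lemma nine_mem : (9 : ℤ) ∈ hofSet := by
  have := mul_mem two_mem five_mem
  norm_num at this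
  exact this

/-- exponent of `2` in a letter -/
def e2 (a : ℕ) : ℕ := if a = 2 then 1 else if a = 8 then 3 else 0

/-- exponent of `3` in a letter -/
def e3 (a : ℕ) : ℕ := if a = 3 then 1 else if a = 9 then 2 else 0

/-- exponent of `5` in a letter -/
def e5 (a : ℕ) : ℕ := if a = 5 then 1 else 0

/-- the multiplier with exponents `p, q, r` -/
def mult (p q r : ℕ) : ℕ := 2 ^ p * 3 ^ q * 5 ^ r

lemma mult_pos (p q r : ℕ) : 0 < mult p q r := by
  unfold mult
  positivity

/-- the letters used -/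
def letters : List ℕ := [2, 3, 5, 8, 9]

lemma letters_cases {a : ℕ} (ha : a ∈ letters) : a = 2 ∨ a = 3 ∨ a = 5 ∨ a = 8 ∨ a = 9 := by
  simpa [letters] using ha

lemma letters_mem {a : ℕ} (ha : a ∈ letters) : (a : ℤ) ∈ hofSet := by
  rcases letters_cases ha with rfl | rfl | rfl | rfl | rfl
  · exact two_mem
  · exact three_mem
  · exact five_mem
  · exact eight_mem
  · exact nine_mem

lemma letters_pos {a : ℕ} (ha : a ∈ letters) : 0 < a := by
  rcases letters_cases ha with rfl | rfl | rfl | rfl | rfl <;> norm_num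

lemma mult_step {a : ℕ} (ha : a ∈ letters) (p q r : ℕ) :
    mult (p + e2 a) (q + e3 a) (r + e5 a) = a * mult p q r := by
  unfold mult
  rcases letters_cases ha with rfl | rfl | rfl | rfl | rfl <;> simp [e2, e3, e5, pow_add] <;> ring

lemma weight_step {a : ℕ} (ha : a ∈ letters) :
    1 ≤ e2 a + e3 a + e5 a ∧ e2 a + e3 a + e5 a ≤ 3 := by
  rcases letters_cases ha with rfl | rfl | rfl | rfl | rfl <;> decide

/-- The letter used in cell `j`; the two flags say on which side of the target the exponents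
are. -/
def letter (bA bB : Bool) (j : ℕ) : ℕ :=
  if j = 3 then (if bB then 9 else 8)
  else if j = 4 then 8
  else if j ≤ 7 then 5
  else if j ≤ 11 then 3
  else if j = 12 then (if bB then 3 else 2)
  else if j = 13 then (if bA then 2 else 3)
  else 2

lemma letter_valid : ∀ bA bB : Bool, ∀ j : ℕ, j < 21 → 3 ≤ j →
    letter bA bB j ∈ letters ∧ 24 ≤ letter bA bB j * j ∧ letter bA bB j * (j + 1) ≤ 42 := by
  decide

/-- `y` is the index of a good cell of mesh `1 / (21 m)`, `m = 2^p 3^q 5^r`. -/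
def Good (p q r y : ℕ) : Prop :=
  3 ≤ y % 21 ∧ y < 21 * mult p q r ∧ 2 * (mult p q r : ℤ) - ((y / 21 : ℕ) : ℤ) ∈ hofSet

lemma good_start : Good 0 0 0 20 := by
  refine ⟨by norm_num, by norm_num [mult], ?_⟩
  have : 2 * ((mult 0 0 0 : ℕ) : ℤ) - ((20 / 21 : ℕ) : ℤ) = 2 := by norm_num [mult]
  rw [this]
  exact two_mem

/-- Arithmetic of one step. -/
lemma step_arith {a y u : ℕ} (h1 : 24 ≤ a * (y % 21)) (h2 : a * (y % 21 + 1) ≤ 42) (hu : u < a) :
    (a * y + u) % 21 = a * (y % 21) - 21 + u ∧ (a * y + u) / 21 = a * (y / 21) + 1 := by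
  have hy : y = 21 * (y / 21) + y % 21 := (Nat.div_add_mod y 21).symm
  have h3 : a * y + u = 21 * (a * (y / 21) + 1) + (a * (y % 21) - 21 + u) := by
    have e1 : a * y = 21 * (a * (y / 21)) + a * (y % 21) := by
      conv_lhs => rw [hy]
      ring
    rw [e1]
    omega
  have h4 : a * (y % 21) - 21 + u < 21 := by
    have : a * (y % 21 + 1) = a * (y % 21) + a := by ring
    omega
  constructor
  · rw [h3, Nat.mul_add_mod, Nat.mod_eq_of_lt h4]
  · rw [h3, Nat.mul_add_div (by norm_num), Nat.div_eq_of_lt h4]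

lemma good_step {p q r y : ℕ} (h : Good p q r y) (bA bB : Bool) {a u : ℕ}
    (ha : a = letter bA bB (y % 21)) (hu : u < a) :
    Good (p + e2 a) (q + e3 a) (r + e5 a) (a * y + u) ∧
      (a * y + u) % 21 = a * (y % 21) - 21 + u := by
  obtain ⟨h1, h2, h3⟩ := h
  obtain ⟨hl, h4, h5⟩ := letter_valid bA bB (y % 21) (Nat.mod_lt _ (by norm_num)) h1
  rw [← ha] at hl h4 h5
  obtain ⟨h6, h7⟩ := step_arith h4 h5 hu
  refine ⟨⟨?_, ?_, ?_⟩, h6⟩
  · rw [h6]
    omega
  · rw [mult_step hl]
    calc a * y + u < a * y + a := by omega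
      _ = a * (y + 1) := by ring
      _ ≤ a * (21 * mult p q r) := Nat.mul_le_mul_left _ h2
      _ = 21 * (a * mult p q r) := by ring
  · rw [mult_step hl, h7]
    have h8 := mul_mem (letters_mem hl) h3
    have e : 2 * ((a * mult p q r : ℕ) : ℤ) - ((a * (y / 21) + 1 : ℕ) : ℤ) =
        (a : ℤ) * (2 * (mult p q r : ℤ) - ((y / 21 : ℕ) : ℤ)) - 1 := by
      push_cast
      ring
    rw [e]
    exact h8

end Pool.Agent.Helper95.HofSet
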