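import Mathlib
import Pool.Agent.Helper95.HofSet

/-!
Potential functions for the controlled walk on exponents.
-/

namespace Pool.Agent.Helper95.HofSet

open Finset

/-- first deviation -/
def lA (p q r : ℕ) : ℤ := p + q - 6 * r

/-- second deviation -/
def lB (p q _r : ℕ) : ℤ := p - 2 * q

/-- first table, used when the first deviation is nonnegative -/
def hAp (j : ℕ) : ℕ := [1, 1, 1, 149, 161, 100, 109, 115, 143, 128, 145, 142, 162, 110, 135, 143, 159,
  128, 158, 150, 165].getD j 1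

/-- second table -/
def hAm (j : ℕ) : ℕ := [1, 1, 1, 1194, 1009, 1776, 1457, 1481, 1279, 1355, 1166, 1107, 1095, 1019,
  1330, 1215, 1061, 1132, 1097, 1075, 1000].getD j 1

/-- third table -/
def hBp (j : ℕ) : ℕ := [1, 1, 1, 30, 41, 37, 34, 37, 34, 33, 30, 34, 34, 38, 37, 33, 36, 40, 36, 40,
  45].getD j 1

/-- fourth table -/
def hBm (j : ℕ) : ℕ := [1, 1, 1, 211, 203, 229, 243, 230, 233, 256, 281, 239, 200, 235, 224, 260,
  212, 222, 228, 217, 203].getD j 1

/-- numerator of `(26/25)^(change of the first deviation)` -/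
def nA (a : ℕ) : ℕ := if a = 5 then 25 ^ 6 else if a = 8 then 26 ^ 3 else if a = 9 then 26 ^ 2 else 26

/-- denominator of the same -/
def dA (a : ℕ) : ℕ := if a = 5 then 26 ^ 6 else if a = 8 then 25 ^ 3 else if a = 9 then 25 ^ 2 else 25

/-- numerator of `(26/25)^(change of the second deviation)` -/
def nB (a : ℕ) : ℕ := if a = 2 then 26 else if a = 3 then 25 ^ 2 else if a = 5 then 1 else
  if a = 8 then 26 ^ 3 else 25 ^ 4

/-- denominator of the same -/
def dB (a : ℕ) : ℕ := if a = 2 then 25 else if a = 3 then 26 ^ 2 else if a = 5 then 1 else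
  if a = 8 then 25 ^ 3 else 26 ^ 4

/-- sum of a table over the children of a cell -/
def csum (h : ℕ → ℕ) (a j : ℕ) : ℕ := ((List.range a).map fun u => h (a * j - 21 + u)).sum

lemma checkAp : ∀ bB : Bool, ∀ j : ℕ, j < 21 → 3 ≤ j →
    csum hAp (letter true bB j) j * nA (letter true bB j) * 500 ≤
      letter true bB j * 499 * hAp j * dA (letter true bB j) := by
  decide

lemma checkAm : ∀ bB : Bool, ∀ j : ℕ, j < 21 → 3 ≤ j →
    csum hAm (letter false bB j) j * dA (letter false bB j) * 500 ≤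
      letter false bB j * 499 * hAm j * nA (letter false bB j) := by
  decide

lemma checkBp : ∀ bA : Bool, ∀ j : ℕ, j < 21 → 3 ≤ j →
    csum hBp (letter bA true j) j * nB (letter bA true j) * 500 ≤
      letter bA true j * 499 * hBp j * dB (letter bA true j) := by
  decide

lemma checkBm : ∀ bA : Bool, ∀ j : ℕ, j < 21 → 3 ≤ j →
    csum hBm (letter bA false j) j * dB (letter bA false j) * 500 ≤
      letter bA false j * 499 * hBm j * nB (letter bA false j) := by
  decide

lemma table_le (l : List ℕ) (d H : ℕ) (hd : d ≤ H) (hl : ∀ x ∈ l, x ≤ H) (j : ℕ) :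
    l.getD j d ≤ H := by
  rw [List.getD_eq_getElem?_getD]
  rcases lt_or_ge j l.length with h | h
  · rw [List.getElem?_eq_getElem h]
    exact hl _ (List.getElem_mem h)
  · rw [List.getElem?_eq_none h]
    exact hd

lemma hAp_le (j : ℕ) : hAp j ≤ 165 := table_le _ _ _ (by norm_num) (by decide) j
lemma hAm_le (j : ℕ) : hAm j ≤ 1776 := table_le _ _ _ (by norm_num) (by decide) j
lemma hBp_le (j : ℕ) : hBp j ≤ 45 := table_le _ _ _ (by norm_num) (by decide) j
lemma hBm_le (j : ℕ) : hBm j ≤ 281 := table_le _ _ _ (by norm_num) (by decide) j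

lemma table_ge (l : List ℕ) (d : ℕ) (hd : 1 ≤ d) (hl : ∀ x ∈ l, 1 ≤ x) (j : ℕ) :
    1 ≤ l.getD j d := by
  rw [List.getD_eq_getElem?_getD]
  rcases lt_or_ge j l.length with h | h
  · rw [List.getElem?_eq_getElem h]
    exact hl _ (List.getElem_mem h)
  · rw [List.getElem?_eq_none h]
    exact hd

lemma hAp_ge (j : ℕ) : 1 ≤ hAp j := table_ge _ _ (by norm_num) (by decide) j
lemma hAm_ge (j : ℕ) : 1 ≤ hAm j := table_ge _ _ (by norm_num) (by decide) j
lemma hBp_ge (j : ℕ) : 1 ≤ hBp j := table_ge _ _ (by norm_num) (by decide) j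
lemma hBm_ge (j : ℕ) : 1 ≤ hBm j := table_ge _ _ (by norm_num) (by decide) j

lemma csum_eq (h : ℕ → ℕ) (a j : ℕ) :
    (csum h a j : ℝ) = ∑ u ∈ range a, (h (a * j - 21 + u) : ℝ) := by
  unfold csum
  rw [← Nat.cast_sum]
  congr 1

/-- the base -/
noncomputable def z : ℝ := 26 / 25

lemma z_pos : 0 < z := by unfold z; norm_num
lemma z_one : 1 < z := by unfold z; norm_num

lemma zA {a : ℕ} (ha : a ∈ letters) :
    z ^ ((e2 a : ℤ) + e3 a - 6 * e5 a) = (nA a : ℝ) / dA a := by
  unfold z
  rcases letters_cases ha with rfl | rfl | rfl | rfl | rfl <;>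
    simp [e2, e3, e5, nA, dA] <;> norm_num [zpow_neg, zpow_ofNat]

lemma zB {a : ℕ} (ha : a ∈ letters) :
    z ^ ((e2 a : ℤ) - 2 * e3 a) = (nB a : ℝ) / dB a := by
  unfold z
  rcases letters_cases ha with rfl | rfl | rfl | rfl | rfl <;>
    simp [e2, e3, e5, nB, dB] <;> norm_num [zpow_neg, zpow_ofNat]

end Pool.Agent.Helper95.HofSet
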