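import Mathlib
import Pool.Agent.Helper95.HofLyap

/-!
The controlled walk and its potential.
-/

namespace Pool.Agent.Helper95.HofSet

open Finset

lemma term_ctrl {h : ℕ → ℕ} {a j n d : ℕ} (ha : 0 < a) (hd : 0 < d)
    (hc : csum h a j * n * 500 ≤ a * 499 * h j * d) {w : ℝ} (hw : 0 ≤ w) :
    (∑ u ∈ range a, (h (a * j - 21 + u) : ℝ) * (w * ((n : ℝ) / d))) / a ≤
      499 / 500 * (h j * w) := by
  have ha' : (0 : ℝ) < a := by exact_mod_cast ha
  have hd' : (0 : ℝ) < d := by exact_mod_cast hd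
  have hc' : (csum h a j : ℝ) * n * 500 ≤ a * 499 * h j * d := by exact_mod_cast hc
  rw [← Finset.sum_mul, ← csum_eq, div_le_iff₀ ha']
  have e1 : (csum h a j : ℝ) * (w * ((n : ℝ) / d)) = ((csum h a j : ℝ) * n * 500) * w / (500 * d) := by
    field_simp
  have e2 : 499 / 500 * ((h j : ℝ) * w) * a = (a * 499 * h j * d) * w / (500 * d) := by
    field_simp
  rw [e1, e2]
  apply div_le_div_of_nonneg_right _ (by positivity)
  exact mul_le_mul_of_nonneg_right hc' hw

lemma term_free {h : ℕ → ℕ} {H : ℕ} (hH : ∀ j, h j ≤ H) {a j : ℕ} (ha : 0 < a) {w c : ℝ}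
    (hw : 0 ≤ w) (hw1 : w ≤ 1) (hc0 : 0 ≤ c) (hc : c ≤ 2) :
    (∑ u ∈ range a, (h (a * j - 21 + u) : ℝ) * (w * c)) / a ≤ 2 * H := by
  have ha' : (0 : ℝ) < a := by exact_mod_cast ha
  rw [div_le_iff₀ ha']
  have h1 : ∀ u ∈ range a, (h (a * j - 21 + u) : ℝ) * (w * c) ≤ 2 * H := by
    intro u _
    have h2 : (h (a * j - 21 + u) : ℝ) ≤ H := by exact_mod_cast hH _
    have h3 : w * c ≤ 2 := by nlinarith
    have h4 : 0 ≤ w * c := by positivity
    have h5 : (0 : ℝ) ≤ H := by positivity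
    nlinarith
  calc ∑ u ∈ range a, (h (a * j - 21 + u) : ℝ) * (w * c) ≤ ∑ u ∈ range a, (2 * H : ℝ) :=
        Finset.sum_le_sum h1
    _ = 2 * H * a := by
        rw [Finset.sum_const, Finset.card_range, nsmul_eq_mul]
        ring

/-- The potential. -/
noncomputable def psi (p q r j : ℕ) : ℝ :=
  (hAp j : ℝ) * z ^ lA p q r + (hAm j : ℝ) * z ^ (-lA p q r) +
    (hBp j : ℝ) * z ^ lB p q r + (hBm j : ℝ) * z ^ (-lB p q r)

lemma psi_nonneg (p q r j : ℕ) : 0 ≤ psi p q r j := by
  unfold psi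
  have := z_pos
  positivity

/-- The letter used by the strategy. -/
def strat (p q r j : ℕ) : ℕ :=
  letter (decide (0 ≤ lA p q r)) (decide (0 ≤ lB p q r)) j

lemma strat_mem {p q r j : ℕ} (hj : j < 21) (hj3 : 3 ≤ j) : strat p q r j ∈ letters :=
  (letter_valid _ _ j hj hj3).1

lemma ratio_bounds {a : ℕ} (ha : a ∈ letters) :
    (0 < nA a ∧ 0 < dA a ∧ 0 < nB a ∧ 0 < dB a) ∧
    (nA a : ℝ) / dA a ≤ 2 ∧ (dA a : ℝ) / nA a ≤ 2 ∧ (nB a : ℝ) / dB a ≤ 2 ∧
      (dB a : ℝ) / nB a ≤ 2 := by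
  rcases letters_cases ha with rfl | rfl | rfl | rfl | rfl <;>
    norm_num [nA, dA, nB, dB]

lemma psi_step (p q r j : ℕ) (hj : j < 21) (hj3 : 3 ≤ j) :
    (∑ u ∈ range (strat p q r j), psi (p + e2 (strat p q r j)) (q + e3 (strat p q r j))
        (r + e5 (strat p q r j)) (strat p q r j * j - 21 + u)) / (strat p q r j : ℕ) ≤
      499 / 500 * psi p q r j + 5000 := by
  have hl := strat_mem (p := p) (q := q) (r := r) hj hj3
  generalize hadef : strat p q r j = a at hl
  have ha : 0 < a := letters_pos hl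
  have hz := z_pos
  have hz1 := z_one
  obtain ⟨⟨hnA, hdA, hnB, hdB⟩, hb1, hb2, hb3, hb4⟩ := ratio_bounds hl
  have hA : z ^ lA (p + e2 a) (q + e3 a) (r + e5 a) = z ^ lA p q r * ((nA a : ℝ) / dA a) := by
    rw [← zA hl, ← zpow_add₀ hz.ne']
    congr 1
    unfold lA
    push_cast
    ring
  have hB : z ^ lB (p + e2 a) (q + e3 a) (r + e5 a) = z ^ lB p q r * ((nB a : ℝ) / dB a) := by
    rw [← zB hl, ← zpow_add₀ hz.ne']
    congr 1
    unfold lB
    push_cast
    ring
  have hA' : z ^ (-lA (p + e2 a) (q + e3 a) (r + e5 a)) =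
      z ^ (-lA p q r) * ((dA a : ℝ) / nA a) := by
    rw [zpow_neg, hA, zpow_neg, mul_inv, inv_div]
  have hB' : z ^ (-lB (p + e2 a) (q + e3 a) (r + e5 a)) =
      z ^ (-lB p q r) * ((dB a : ℝ) / nB a) := by
    rw [zpow_neg, hB, zpow_neg, mul_inv, inv_div]
  have hsplit : (∑ u ∈ range a, psi (p + e2 a) (q + e3 a) (r + e5 a) (a * j - 21 + u)) / (a : ℝ) =
      (∑ u ∈ range a, (hAp (a * j - 21 + u) : ℝ) * (z ^ lA p q r * ((nA a : ℝ) / dA a))) / a +
      (∑ u ∈ range a, (hAm (a * j - 21 + u) : ℝ) * (z ^ (-lA p q r) * ((dA a : ℝ) / nA a))) / a +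
      (∑ u ∈ range a, (hBp (a * j - 21 + u) : ℝ) * (z ^ lB p q r * ((nB a : ℝ) / dB a))) / a +
      (∑ u ∈ range a, (hBm (a * j - 21 + u) : ℝ) * (z ^ (-lB p q r) * ((dB a : ℝ) / nB a))) / a := by
    rw [← add_div, ← add_div, ← add_div, ← Finset.sum_add_distrib, ← Finset.sum_add_distrib,
      ← Finset.sum_add_distrib]
    congr 1
    apply Finset.sum_congr rfl
    intro u _
    unfold psi
    rw [hA, hA', hB, hB']
  rw [hsplit]
  have hp1 : 0 < z ^ lA p q r := by positivity
  have hp2 : 0 < z ^ (-lA p q r) := by positivity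
  have hp3 : 0 < z ^ lB p q r := by positivity
  have hp4 : 0 < z ^ (-lB p q r) := by positivity
  have m1 : 0 ≤ (hAp j : ℝ) * z ^ lA p q r := by positivity
  have m2 : 0 ≤ (hAm j : ℝ) * z ^ (-lA p q r) := by positivity
  have m3 : 0 ≤ (hBp j : ℝ) * z ^ lB p q r := by positivity
  have m4 : 0 ≤ (hBm j : ℝ) * z ^ (-lB p q r) := by positivity
  have t1 : (∑ u ∈ range a, (hAp (a * j - 21 + u) : ℝ) * (z ^ lA p q r * ((nA a : ℝ) / dA a))) / a
      ≤ 499 / 500 * ((hAp j : ℝ) * z ^ lA p q r) + 330 := by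
    by_cases hc : 0 ≤ lA p q r
    · have hck := checkAp (decide (0 ≤ lB p q r)) j hj hj3
      have e : letter true (decide (0 ≤ lB p q r)) j = a := by
        rw [← hadef, strat]
        simp [hc]
      rw [e] at hck
      have := term_ctrl ha hdA hck hp1.le
      linarith
    · have hw : z ^ lA p q r ≤ 1 := by
        apply zpow_le_one_of_nonpos₀ hz1.le
        omega
      have := term_free hAp_le (a := a) (j := j) ha hp1.le hw (by positivity) hb1
      push_cast at this
      linarith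
  have t2 : (∑ u ∈ range a, (hAm (a * j - 21 + u) : ℝ) *
      (z ^ (-lA p q r) * ((dA a : ℝ) / nA a))) / a
      ≤ 499 / 500 * ((hAm j : ℝ) * z ^ (-lA p q r)) + 3552 := by
    by_cases hc : 0 ≤ lA p q r
    · have hw : z ^ (-lA p q r) ≤ 1 := by
        apply zpow_le_one_of_nonpos₀ hz1.le
        omega
      have := term_free hAm_le (a := a) (j := j) ha hp2.le hw (by positivity) hb2
      push_cast at this
      linarith
    · have hck := checkAm (decide (0 ≤ lB p q r)) j hj hj3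
      have e : letter false (decide (0 ≤ lB p q r)) j = a := by
        rw [← hadef, strat]
        simp [hc]
      rw [e] at hck
      have := term_ctrl ha hnA hck hp2.le
      linarith
  have t3 : (∑ u ∈ range a, (hBp (a * j - 21 + u) : ℝ) * (z ^ lB p q r * ((nB a : ℝ) / dB a))) / a
      ≤ 499 / 500 * ((hBp j : ℝ) * z ^ lB p q r) + 90 := by
    by_cases hc : 0 ≤ lB p q r
    · have hck := checkBp (decide (0 ≤ lA p q r)) j hj hj3
      have e : letter (decide (0 ≤ lA p q r)) true j = a := by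
        rw [← hadef, strat]
        simp [hc]
      rw [e] at hck
      have := term_ctrl ha hdB hck hp3.le
      linarith
    · have hw : z ^ lB p q r ≤ 1 := by
        apply zpow_le_one_of_nonpos₀ hz1.le
        omega
      have := term_free hBp_le (a := a) (j := j) ha hp3.le hw (by positivity) hb3
      push_cast at this
      linarith
  have t4 : (∑ u ∈ range a, (hBm (a * j - 21 + u) : ℝ) *
      (z ^ (-lB p q r) * ((dB a : ℝ) / nB a))) / a
      ≤ 499 / 500 * ((hBm j : ℝ) * z ^ (-lB p q r)) + 562 := by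
    by_cases hc : 0 ≤ lB p q r
    · have hw : z ^ (-lB p q r) ≤ 1 := by
        apply zpow_le_one_of_nonpos₀ hz1.le
        omega
      have := term_free hBm_le (a := a) (j := j) ha hp4.le hw (by positivity) hb4
      push_cast at this
      linarith
    · have hck := checkBm (decide (0 ≤ lA p q r)) j hj hj3
      have e : letter (decide (0 ≤ lA p q r)) false j = a := by
        rw [← hadef, strat]
        simp [hc]
      rw [e] at hck
      have := term_ctrl ha hnB hck hp4.le
      linarith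
  have hpsi : psi p q r j = (hAp j : ℝ) * z ^ lA p q r + (hAm j : ℝ) * z ^ (-lA p q r) +
    (hBp j : ℝ) * z ^ lB p q r + (hBm j : ℝ) * z ^ (-lB p q r) := rfl
  rw [hpsi]
  linarith

end Pool.Agent.Helper95.HofSet
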