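import Mathlib
import Pool.Agent.Helper95.HofWalk

/-!
The mass that the walk puts on a given multiplier, and the number of good cells.
-/

namespace Pool.Agent.Helper95.HofSet

open Finset

/-- growth rate in the supermartingale -/
noncomputable def mu : ℝ := 1501 / 1500

/-- The supermartingale. -/
noncomputable def Fm (T p q r j : ℕ) : ℝ :=
  1 / 32000000 * (mu ^ (p + q + r) / mu ^ T) * (psi p q r j - 8000000)

lemma mu_pos : 0 < mu := by unfold mu; norm_num

lemma Fm_step (T p q r j : ℕ) (hj : j < 21) (hj3 : 3 ≤ j) :
    (∑ u ∈ range (strat p q r j), Fm T (p + e2 (strat p q r j)) (q + e3 (strat p q r j))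
        (r + e5 (strat p q r j)) (strat p q r j * j - 21 + u)) / (strat p q r j : ℕ) ≤
      Fm T p q r j := by
  have hps := psi_step p q r j hj hj3
  have hl := strat_mem (p := p) (q := q) (r := r) hj hj3
  generalize strat p q r j = a at hl hps
  have ha : 0 < a := letters_pos hl
  have ha' : (0 : ℝ) < a := by exact_mod_cast ha
  obtain ⟨hg1, hg2⟩ := weight_step hl
  set g := e2 a + e3 a + e5 a with hg
  have hmu := mu_pos
  have hexp : mu ^ (p + e2 a + (q + e3 a) + (r + e5 a)) = mu ^ (p + q + r) * mu ^ g := by
    rw [← pow_add]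
    congr 1
    omega
  have hsum : (∑ u ∈ range a, Fm T (p + e2 a) (q + e3 a) (r + e5 a) (a * j - 21 + u)) / (a : ℝ) =
      1 / 32000000 * (mu ^ (p + q + r) / mu ^ T) * (mu ^ g *
      ((∑ u ∈ range a, psi (p + e2 a) (q + e3 a) (r + e5 a) (a * j - 21 + u)) / (a : ℝ)
        - 8000000)) := by
    unfold Fm
    rw [← Finset.mul_sum, Finset.sum_sub_distrib, hexp]
    rw [Finset.sum_const, Finset.card_range, nsmul_eq_mul]
    field_simp
  rw [hsum]
  have hpos : 0 < 1 / 32000000 * (mu ^ (p + q + r) / mu ^ T) := by positivity
  unfold Fm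
  apply mul_le_mul_of_nonneg_left _ hpos.le
  have hpsi0 := psi_nonneg p q r j
  set X := (∑ u ∈ range a, psi (p + e2 a) (q + e3 a) (r + e5 a) (a * j - 21 + u)) / (a : ℝ) with hX
  have hmug : 0 < mu ^ g := by positivity
  have h1 : mu ^ g * (X - 8000000) ≤ mu ^ g * (499 / 500 * psi p q r j + 5000 - 8000000) := by
    apply mul_le_mul_of_nonneg_left _ hmug.le
    linarith
  refine h1.trans ?_
  have hgc : g = 1 ∨ g = 2 ∨ g = 3 := by omega
  rcases hgc with h | h | h <;> rw [h] <;> unfold mu <;> nlinarith [hpsi0]

/-- The probability that the walk, started from exponents `p, q, r` and cell `j` and stopped when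
the sum of the exponents reaches `T`, stops at the exponents `P, Q, R`. -/
noncomputable def pr (T P Q R : ℕ) : ℕ → ℕ → ℕ → ℕ → ℕ → ℝ
  | 0, p, q, r, _ => if (p, q, r) = (P, Q, R) then 1 else 0
  | n + 1, p, q, r, j =>
    if T ≤ p + q + r then (if (p, q, r) = (P, Q, R) then 1 else 0)
    else (∑ u ∈ range (strat p q r j), pr T P Q R n (p + e2 (strat p q r j))
      (q + e3 (strat p q r j)) (r + e5 (strat p q r j)) (strat p q r j * j - 21 + u)) /
        (strat p q r j : ℕ)

lemma child_valid {p q r j u : ℕ} (hj : j < 21) (hj3 : 3 ≤ j) (hu : u < strat p q r j) :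
    strat p q r j * j - 21 + u < 21 ∧ 3 ≤ strat p q r j * j - 21 + u := by
  obtain ⟨-, h1, h2⟩ := letter_valid (decide (0 ≤ lA p q r)) (decide (0 ≤ lB p q r)) j hj hj3
  have e : letter (decide (0 ≤ lA p q r)) (decide (0 ≤ lB p q r)) j = strat p q r j := rfl
  rw [e] at h1 h2
  have : strat p q r j * (j + 1) = strat p q r j * j + strat p q r j := by ring
  omega

/-- Comparison of the stopped walk with the supermartingale. -/
lemma comparison (T : ℕ) (S : Finset (ℕ × ℕ × ℕ))
    (hterm : ∀ p q r j, T ≤ p + q + r → p + q + r ≤ T + 2 →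
      (1 : ℝ) / 2 ≤ (if (p, q, r) ∈ S then 1 else 0) + Fm T p q r j) :
    ∀ n p q r j, j < 21 → 3 ≤ j → T ≤ p + q + r + n → p + q + r ≤ T + 2 →
      (1 : ℝ) / 2 ≤ ∑ k ∈ S, pr T k.1 k.2.1 k.2.2 n p q r j + Fm T p q r j := by
  have hstop : ∀ p q r, ∑ k ∈ S, (if (p, q, r) = (k.1, k.2.1, k.2.2) then (1 : ℝ) else 0) =
      if (p, q, r) ∈ S then 1 else 0 := by
    intro p q r
    have : ∀ k ∈ S, (if (p, q, r) = (k.1, k.2.1, k.2.2) then (1 : ℝ) else 0) =
        if (p, q, r) = k then 1 else 0 := by
      intro k _
      rfl
    rw [Finset.sum_congr rfl this, Finset.sum_ite_eq]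
  intro n
  induction n with
  | zero =>
    intro p q r j hj hj3 h1 h2
    have := hterm p q r j (by omega) h2
    rw [← hstop] at this
    simpa [pr] using this
  | succ n ih =>
    intro p q r j hj hj3 h1 h2
    by_cases hT : T ≤ p + q + r
    · have := hterm p q r j hT h2
      rw [← hstop] at this
      simpa [pr, hT] using this
    · have hF := Fm_step T p q r j hj hj3
      have hl := strat_mem (p := p) (q := q) (r := r) hj hj3
      have hcv := fun u (hu : u < strat p q r j) => child_valid (p := p) (q := q) (r := r) hj hj3 hu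
      have hpr : ∀ k : ℕ × ℕ × ℕ, pr T k.1 k.2.1 k.2.2 (n + 1) p q r j =
          (∑ u ∈ range (strat p q r j), pr T k.1 k.2.1 k.2.2 n (p + e2 (strat p q r j))
            (q + e3 (strat p q r j)) (r + e5 (strat p q r j)) (strat p q r j * j - 21 + u)) /
            (strat p q r j : ℕ) := by
        intro k
        simp [pr, hT]
      rw [Finset.sum_congr rfl (fun k _ => hpr k)]
      generalize strat p q r j = a at hF hl hcv
      obtain ⟨hg1, hg2⟩ := weight_step hl
      have ha : (0 : ℝ) < a := by exact_mod_cast letters_pos hl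
      have hmain : (1 : ℝ) / 2 ≤ (∑ u ∈ range a, (∑ k ∈ S, pr T k.1 k.2.1 k.2.2 n (p + e2 a)
          (q + e3 a) (r + e5 a) (a * j - 21 + u) +
          Fm T (p + e2 a) (q + e3 a) (r + e5 a) (a * j - 21 + u))) / (a : ℝ) := by
        rw [le_div_iff₀ ha]
        calc (1 : ℝ) / 2 * a = ∑ u ∈ range a, (1 : ℝ) / 2 := by
              rw [Finset.sum_const, Finset.card_range, nsmul_eq_mul]
              ring
          _ ≤ _ := by
              apply Finset.sum_le_sum
              intro u hu
              have hu' := Finset.mem_range.1 hu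
              obtain ⟨h3, h4⟩ := hcv u hu'
              exact ih _ _ _ _ h3 h4 (by omega) (by omega)
      rw [Finset.sum_add_distrib, add_div, Finset.sum_comm, Finset.sum_div] at hmain
      linarith

noncomputable instance goodDecidable (p q r : ℕ) : DecidablePred (Good p q r) :=
  Classical.decPred _

/-- The good cells at the exponents `P, Q, R` inside the cell `y` at the exponents `p, q, r`. -/
noncomputable def cells (P Q R p q r y : ℕ) : Finset ℕ :=
  (range (21 * mult P Q R)).filter fun y' =>
    y * mult P Q R ≤ y' * mult p q r ∧ (y' + 1) * mult p q r ≤ (y + 1) * mult P Q R ∧ Good P Q R y'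

lemma mem_cells {P Q R p q r y y' : ℕ} : y' ∈ cells P Q R p q r y ↔
    y' < 21 * mult P Q R ∧ y * mult P Q R ≤ y' * mult p q r ∧
      (y' + 1) * mult p q r ≤ (y + 1) * mult P Q R ∧ Good P Q R y' := by
  unfold cells
  rw [Finset.mem_filter, Finset.mem_range]

lemma stop_count {P Q R p q r y : ℕ} (hG : Good p q r y) :
    (if (p, q, r) = (P, Q, R) then (1 : ℝ) else 0) * mult P Q R ≤
      mult p q r * (cells P Q R p q r y).card := by
  split_ifs with h
  · simp only [Prod.mk.injEq] at h
    obtain ⟨rfl, rfl, rfl⟩ := h
    have h1 : y ∈ cells p q r p q r y := mem_cells.2 ⟨hG.2.1, le_rfl, le_rfl, hG⟩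
    have h2 : 1 ≤ (cells p q r p q r y).card := Finset.card_pos.2 ⟨y, h1⟩
    have h3 : (1 : ℝ) ≤ (cells p q r p q r y).card := by exact_mod_cast h2
    have h4 : (0 : ℝ) ≤ mult p q r := by positivity
    nlinarith
  · rw [zero_mul]
    positivity

lemma count (T P Q R : ℕ) : ∀ n p q r y, Good p q r y →
    pr T P Q R n p q r (y % 21) * mult P Q R ≤ mult p q r * (cells P Q R p q r y).card := by
  intro n
  induction n with
  | zero =>
    intro p q r y hG
    have := stop_count (P := P) (Q := Q) (R := R) hG
    simpa [pr] using this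
  | succ n ih =>
    intro p q r y hG
    by_cases hT : T ≤ p + q + r
    · have := stop_count (P := P) (Q := Q) (R := R) hG
      simpa [pr, hT] using this
    · have hj : y % 21 < 21 := Nat.mod_lt _ (by norm_num)
      have hl := strat_mem (p := p) (q := q) (r := r) hj hG.1
      have hstep := fun u (hu : u < strat p q r (y % 21)) =>
        good_step hG (decide (0 ≤ lA p q r)) (decide (0 ≤ lB p q r)) (rfl : strat p q r (y % 21) = _) hu
      have hpr : pr T P Q R (n + 1) p q r (y % 21) =
          (∑ u ∈ range (strat p q r (y % 21)), pr T P Q R n (p + e2 (strat p q r (y % 21)))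
            (q + e3 (strat p q r (y % 21))) (r + e5 (strat p q r (y % 21)))
            (strat p q r (y % 21) * (y % 21) - 21 + u)) / (strat p q r (y % 21) : ℕ) := by
        simp [pr, hT]
      rw [hpr]
      generalize strat p q r (y % 21) = a at hl hstep
      have ha : 0 < a := letters_pos hl
      have ha' : (0 : ℝ) < a := by exact_mod_cast ha
      have hm : 0 < mult p q r := mult_pos p q r
      -- children
      have hsub : ∀ u ∈ range a, cells P Q R (p + e2 a) (q + e3 a) (r + e5 a) (a * y + u) ⊆
          cells P Q R p q r y := by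
        intro u hu y' hy'
        have hu' := Finset.mem_range.1 hu
        obtain ⟨h1, h2, h3, h4⟩ := mem_cells.1 hy'
        rw [mult_step hl] at h2 h3
        refine mem_cells.2 ⟨h1, ?_, ?_, h4⟩
        · have h5 : a * (y * mult P Q R) ≤ a * (y' * mult p q r) := by
            calc a * (y * mult P Q R) = a * y * mult P Q R := by ring
              _ ≤ (a * y + u) * mult P Q R := Nat.mul_le_mul_right _ (by omega)
              _ ≤ y' * (a * mult p q r) := h2
              _ = a * (y' * mult p q r) := by ring
          exact Nat.le_of_mul_le_mul_left h5 ha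
        · have h5 : a * ((y' + 1) * mult p q r) ≤ a * ((y + 1) * mult P Q R) := by
            calc a * ((y' + 1) * mult p q r) = (y' + 1) * (a * mult p q r) := by ring
              _ ≤ (a * y + u + 1) * mult P Q R := h3
              _ ≤ (a * (y + 1)) * mult P Q R := by
                  apply Nat.mul_le_mul_right
                  have : a * (y + 1) = a * y + a := by ring
                  omega
              _ = a * ((y + 1) * mult P Q R) := by ring
          exact Nat.le_of_mul_le_mul_left h5 ha
      have hdisj : ∀ u ∈ range a, ∀ v ∈ range a, u ≠ v →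
          Disjoint (cells P Q R (p + e2 a) (q + e3 a) (r + e5 a) (a * y + u))
            (cells P Q R (p + e2 a) (q + e3 a) (r + e5 a) (a * y + v)) := by
        have key : ∀ u v, u < v → ∀ y', y' ∈ cells P Q R (p + e2 a) (q + e3 a) (r + e5 a) (a * y + u) →
            y' ∈ cells P Q R (p + e2 a) (q + e3 a) (r + e5 a) (a * y + v) → False := by
          intro u v huv y' h1 h2
          obtain ⟨-, -, h3, -⟩ := mem_cells.1 h1
          obtain ⟨-, h4, -, -⟩ := mem_cells.1 h2
          rw [mult_step hl] at h3 h4
          have h5 : (a * y + u + 1) * mult P Q R ≤ (a * y + v) * mult P Q R :=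
            Nat.mul_le_mul_right _ (by omega)
          have h6 : (y' + 1) * (a * mult p q r) ≤ y' * (a * mult p q r) := h3.trans (h5.trans h4)
          have h7 : 0 < a * mult p q r := Nat.mul_pos ha hm
          nlinarith
        intro u _ v _ huv
        rw [Finset.disjoint_left]
        intro y' h1 h2
        rcases lt_or_gt_of_ne huv with h | h
        · exact key u v h y' h1 h2
        · exact key v u h y' h2 h1
      have hcard : ∑ u ∈ range a, (cells P Q R (p + e2 a) (q + e3 a) (r + e5 a) (a * y + u)).card ≤
          (cells P Q R p q r y).card := by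
        rw [← Finset.card_biUnion (fun u hu v hv huv => hdisj u hu v hv huv)]
        apply Finset.card_le_card
        intro y' hy'
        obtain ⟨u, hu, hy''⟩ := Finset.mem_biUnion.1 hy'
        exact hsub u hu hy''
      have hih : ∀ u ∈ range a, pr T P Q R n (p + e2 a) (q + e3 a) (r + e5 a)
          (a * (y % 21) - 21 + u) * mult P Q R ≤
          (a * mult p q r : ℝ) * (cells P Q R (p + e2 a) (q + e3 a) (r + e5 a) (a * y + u)).card := by
        intro u hu
        obtain ⟨h1, h2⟩ := hstep u (Finset.mem_range.1 hu)
        have := ih _ _ _ _ h1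
        rw [h2, mult_step hl] at this
        push_cast at this
        exact this
      rw [div_mul_eq_mul_div, div_le_iff₀ ha', Finset.sum_mul]
      calc ∑ u ∈ range a, pr T P Q R n (p + e2 a) (q + e3 a) (r + e5 a)
              (a * (y % 21) - 21 + u) * mult P Q R ≤
            ∑ u ∈ range a, ((a * mult p q r : ℝ) *
              ((cells P Q R (p + e2 a) (q + e3 a) (r + e5 a) (a * y + u)).card : ℝ)) :=
            Finset.sum_le_sum hih
        _ = (a * mult p q r : ℝ) * ((∑ u ∈ range a,
            (cells P Q R (p + e2 a) (q + e3 a) (r + e5 a) (a * y + u)).card : ℕ) : ℝ) := by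
            rw [← Finset.mul_sum]
            push_cast
            rfl
        _ ≤ (a * mult p q r : ℝ) * ((cells P Q R p q r y).card : ℝ) := by
            apply mul_le_mul_of_nonneg_left _ (by positivity)
            exact_mod_cast hcard
        _ = mult p q r * (cells P Q R p q r y).card * a := by ring

end Pool.Agent.Helper95.HofSet
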