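import Pool.Agent.Helper95.QSymm

/-!
The case of an exact system in which the even class is the larger one.
-/

set_option autoImplicit false

namespace Pool.Agent.Helper95.Queens

open Finset

namespace QSys

variable {g : ℕ} {δ : ℤ} {I J P Q : Finset ℤ}

/-- Output of the tight analysis, first case. -/
theorem case1 (S : QSys g δ I J P Q) {y : ℕ} (hy : 0 < y)
    (hIE : (I.filter (fun w => Even w)).card = 2 * (y + 1))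
    (hJE : (J.filter (fun w => Even w)).card = 2 * (y + 1))
    (hIO : (I.filter (fun w => ¬ Even w)).card = 2 * y)
    (hJO : (J.filter (fun w => ¬ Even w)).card = 2 * y)
    (c1 : ((pos P).filter (fun w => ¬ Even w)).card = y)
    (c2 : ((neg P).filter (fun w => ¬ Even w)).card = y)
    (c3 : ((pos Q).filter (fun w => ¬ Even w)).card = y)
    (c4 : ((neg Q).filter (fun w => ¬ Even w)).card = y) :
    ∃ d : ℤ, 0 < d ∧ ¬ Even d ∧ d ∈ pos P ∧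
      (pos P).filter (fun w => ¬ Even w) = (pos Q).filter (fun w => ¬ Even w) ∧
      (neg P).filter (fun w => ¬ Even w) = (pos Q).filter (fun w => ¬ Even w) ∧
      (neg Q).filter (fun w => ¬ Even w) = (pos Q).filter (fun w => ¬ Even w) ∧
      (∀ w ∈ J, ¬ Even w → d ≤ w) ∧
      (∀ w, (w ∈ I ∧ Even w ∧ w ≠ 0 ∧ w ≠ δ) ↔
        ((w - d ∈ pos P ∧ ¬ Even (w - d)) ∨ (δ - d - w ∈ pos P ∧ ¬ Even (δ - d - w)))) ∧
      (∀ w, (w ∈ J ∧ Even w ∧ w ≠ 0 ∧ w ≠ δ) ↔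
        ((w - d ∈ pos P ∧ ¬ Even (w - d)) ∨ (δ - d - w ∈ pos P ∧ ¬ Even (δ - d - w)))) ∧
      (∀ w, ¬ ((w - d ∈ pos P ∧ ¬ Even (w - d)) ∧ (δ - d - w ∈ pos P ∧ ¬ Even (δ - d - w)))) := by
  classical
  obtain ⟨hδ, -⟩ := S.parity
  -- extremes
  obtain ⟨j₂, hj₂, hj₂m⟩ := exists_max_mem (T := J.filter (fun w => ¬ Even w)) (by omega)
  obtain ⟨j₁, hj₁, hj₁m⟩ := exists_min_mem (T := J.filter (fun w => ¬ Even w)) (by omega)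
  obtain ⟨i₂, hi₂, hi₂m⟩ := exists_max_mem (T := I.filter (fun w => ¬ Even w)) (by omega)
  obtain ⟨i₁, hi₁, hi₁m⟩ := exists_min_mem (T := I.filter (fun w => ¬ Even w)) (by omega)
  rw [mem_filter] at hj₂ hj₁ hi₂ hi₁
  have hj₂m' : ∀ w ∈ J, ¬ Even w → w ≤ j₂ := fun w h1 h2 => hj₂m w (mem_filter.2 ⟨h1, h2⟩)
  have hj₁m' : ∀ w ∈ J, ¬ Even w → j₁ ≤ w := fun w h1 h2 => hj₁m w (mem_filter.2 ⟨h1, h2⟩)
  have hi₂m' : ∀ w ∈ I, ¬ Even w → w ≤ i₂ := fun w h1 h2 => hi₂m w (mem_filter.2 ⟨h1, h2⟩)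
  have hi₁m' : ∀ w ∈ I, ¬ Even w → i₁ ≤ w := fun w h1 h2 => hi₁m w (mem_filter.2 ⟨h1, h2⟩)
  have ev : ∀ w : ℤ, Even (δ - w) ↔ Even w := by
    intro w; rw [Int.even_sub]; simp [hδ]
  -- the four rows
  obtain ⟨-, hT⟩ := S.topRow hIE c1 c3 hj₂.1 hj₂.2 hj₂m'
  obtain ⟨hT1, hT2, hT3, hT4⟩ := hT rfl
  have memref : ∀ {K : Finset ℤ} {a : ℤ}, a ∈ K.image (fun w => δ - w) ↔ δ - a ∈ K := by
    intro K a
    rw [mem_image]
    constructor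
    · rintro ⟨b, hb, rfl⟩
      rw [sub_sub_cancel]; exact hb
    · intro h
      exact ⟨δ - a, h, by ring⟩
  have memneg : ∀ {K : Finset ℤ} {a : ℤ}, a ∈ K.image (fun w => -w) ↔ -a ∈ K := by
    intro K a
    rw [mem_image]
    constructor
    · rintro ⟨b, hb, rfl⟩
      rw [neg_neg]; exact hb
    · intro h
      exact ⟨-a, h, by ring⟩
  obtain ⟨-, hB⟩ := S.reflect.topRow (x := y + 1) (y := y) (j₂ := δ - j₁) hIE
    (by rw [pos_neg_image]; exact c4) (by rw [pos_neg_image]; exact c2)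
    (by rw [memref, sub_sub_cancel]; exact hj₁.1) (by rw [ev]; exact hj₁.2)
    (by
      intro w hw hwo
      rw [memref] at hw
      have := hj₁m' _ hw (by rw [ev]; exact hwo)
      omega)
  obtain ⟨hB1, hB2, hB3, hB4⟩ := hB rfl
  rw [memneg] at hB1 hB2
  simp only [pos_neg_image] at hB3 hB4
  obtain ⟨-, hR⟩ := S.transpose.topRow (x := y + 1) (y := y) (j₂ := i₂) hJE
    (by rw [pos_neg_image]; exact c2) c3 hi₂.1 hi₂.2 hi₂m'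
  obtain ⟨hR1, hR2, hR3, hR4⟩ := hR rfl
  rw [memneg] at hR1
  simp only [pos_neg_image] at hR3 hR4
  obtain ⟨-, hL⟩ := S.transpose.reflect.topRow (x := y + 1) (y := y) (j₂ := δ - i₁) hJE
    (by rw [pos_neg_image]; exact c4) (by rw [pos_neg_image, neg_neg_image]; exact c1)
    (by rw [memref, sub_sub_cancel]; exact hi₁.1) (by rw [ev]; exact hi₁.2)
    (by
      intro w hw hwo
      rw [memref] at hw
      have := hi₁m' _ hw (by rw [ev]; exact hwo)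
      omega)
  obtain ⟨hL1, hL2, hL3, hL4⟩ := hL rfl
  rw [memneg] at hL1
  rw [memneg, memneg] at hL2
  simp only [pos_neg_image, neg_neg_image] at hL3 hL4
  rw [show -(δ - j₁ - δ) = j₁ by ring] at hB1 hB2
  rw [show -(i₂ - δ) = δ - i₂ by ring] at hR1
  rw [show -(δ - i₁ - δ) = i₁ by ring] at hL1 hL2
  have rj₁ := S.Jrange _ hj₁.1
  have rj₂ := S.Jrange _ hj₂.1
  have ri₁ := S.Irange _ hi₁.1
  have ri₂ := S.Irange _ hi₂.1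
  -- i₁ = j₁
  have e1 : j₁ ≤ i₁ := hj₁m' i₁ ((S.right i₁ ri₁.1 ri₁.2).2 (Or.inr hL1)) hi₁.2
  have e2 : i₁ ≤ j₁ := hi₁m' j₁ ((S.top j₁ rj₁.1 rj₁.2).2 (Or.inr hB1)) hj₁.2
  have e3 : j₂ ≤ i₂ := hi₂m' j₂ ((S.bot j₂ rj₂.1 rj₂.2).2 (Or.inr hT2)) hj₂.2
  have e4 : i₂ ≤ j₂ := hj₂m' i₂ ((S.left i₂ ri₂.1 ri₂.2).2 (Or.inr hR2)) hi₂.2
  have e5 : δ - j₁ ≤ i₂ := hi₂m' (δ - j₁) ((S.top (δ - j₁) (by omega) (by omega)).2
    (Or.inl (by rw [sub_sub_cancel]; exact hB2))) (by rw [ev]; exact hj₁.2)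
  have e6 : i₁ ≤ δ - j₂ := hi₁m' (δ - j₂) ((S.bot (δ - j₂) (by omega) (by omega)).2
    (Or.inl (by rw [show -(δ - j₂) = j₂ - δ by ring]; exact hT1))) (by rw [ev]; exact hj₂.2)
  obtain rfl : i₁ = j₁ := le_antisymm e2 e1
  obtain rfl : i₂ = j₂ := le_antisymm e4 e3
  have hi₂e : i₂ = δ - i₁ := by omega
  subst hi₂e
  have hd0 : 0 < i₁ := by
    rcases lt_or_eq_of_le ri₁.1 with h | h
    · exact h
    · exfalso; apply hi₁.2; rw [← h]; simp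
  -- rewriting the four relations
  set A₁ := (pos P).filter (fun w => ¬ Even w) with hA₁
  set A₂ := (neg P).filter (fun w => ¬ Even w) with hA₂
  set B₁ := (pos Q).filter (fun w => ¬ Even w) with hB₁
  set B₂ := (neg Q).filter (fun w => ¬ Even w) with hB₂
  have odd_add : ∀ w : ℤ, w + (δ - i₁) - δ = w - i₁ := fun w => by ring
  have odd_sub : ∀ w : ℤ, δ - i₁ - w = δ - i₁ - w := fun w => rfl
  simp only [odd_add] at hT3 hT4 hB3 hB4 hR3 hR4 hL3 hL4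
  have hT3' : ∀ w, (w ∈ I ∧ Even w ∧ w ≠ 0 ∧ w ≠ δ) ↔ (δ - i₁ - w ∈ A₁ ∨ w - i₁ ∈ B₁) := by
    intro w; rw [hT3 w, hA₁, hB₁, mem_filter, mem_filter]
  have hT4' : ∀ w, ¬ (δ - i₁ - w ∈ A₁ ∧ w - i₁ ∈ B₁) := by
    intro w; rw [hA₁, hB₁, mem_filter, mem_filter]; exact hT4 w
  have hB3' : ∀ w, (w ∈ I ∧ Even w ∧ w ≠ 0 ∧ w ≠ δ) ↔ (δ - i₁ - w ∈ B₂ ∨ w - i₁ ∈ A₂) := by
    intro w; rw [hB3 w, hA₂, hB₂, mem_filter, mem_filter]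
  have hB4' : ∀ w, ¬ (δ - i₁ - w ∈ B₂ ∧ w - i₁ ∈ A₂) := by
    intro w; rw [hA₂, hB₂, mem_filter, mem_filter]; exact hB4 w
  have hR3' : ∀ w, (w ∈ J ∧ Even w ∧ w ≠ 0 ∧ w ≠ δ) ↔ (δ - i₁ - w ∈ A₂ ∨ w - i₁ ∈ B₁) := by
    intro w; rw [hR3 w, hA₂, hB₁, mem_filter, mem_filter]
  have hR4' : ∀ w, ¬ (δ - i₁ - w ∈ A₂ ∧ w - i₁ ∈ B₁) := by
    intro w; rw [hA₂, hB₁, mem_filter, mem_filter]; exact hR4 w
  have hL3' : ∀ w, (w ∈ J ∧ Even w ∧ w ≠ 0 ∧ w ≠ δ) ↔ (δ - i₁ - w ∈ B₂ ∨ w - i₁ ∈ A₁) := by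
    intro w; rw [hL3 w, hA₁, hB₂, mem_filter, mem_filter]
  have hL4' : ∀ w, ¬ (δ - i₁ - w ∈ B₂ ∧ w - i₁ ∈ A₁) := by
    intro w; rw [hA₁, hB₂, mem_filter, mem_filter]; exact hL4 w
  -- odd parts of the basic relations
  have g1 : ∀ w, (w ∈ J ∧ ¬ Even w) ↔ (w ∈ A₁ ∨ δ - w ∈ B₂) := by
    intro w; rw [S.left2 w, hA₁, hB₂, mem_filter, mem_filter, ev]; tauto
  have g1' : ∀ w, ¬ (w ∈ A₁ ∧ δ - w ∈ B₂) := by
    intro w; rw [hA₁, hB₂, mem_filter, mem_filter]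
    exact fun h => S.left2' w ⟨h.1.1, h.2.1⟩
  have g2 : ∀ w, (w ∈ J ∧ ¬ Even w) ↔ (w ∈ B₁ ∨ δ - w ∈ A₂) := by
    intro w; rw [S.right2 w, hB₁, hA₂, mem_filter, mem_filter, ev]; tauto
  have g2' : ∀ w, ¬ (w ∈ B₁ ∧ δ - w ∈ A₂) := by
    intro w; rw [hB₁, hA₂, mem_filter, mem_filter]
    exact fun h => S.right2' w ⟨h.1.1, h.2.1⟩
  have g3 : ∀ w, (w ∈ I ∧ ¬ Even w) ↔ (w ∈ A₂ ∨ δ - w ∈ B₂) := by
    intro w; rw [S.bot2 w, hA₂, hB₂, mem_filter, mem_filter, ev]; tauto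
  have g3' : ∀ w, ¬ (w ∈ A₂ ∧ δ - w ∈ B₂) := by
    intro w; rw [hA₂, hB₂, mem_filter, mem_filter]
    exact fun h => S.bot2' w ⟨h.1.1, h.2.1⟩
  have g4 : ∀ w, (w ∈ I ∧ ¬ Even w) ↔ (w ∈ B₁ ∨ δ - w ∈ A₁) := by
    intro w; rw [S.top2 w, hB₁, hA₁, mem_filter, mem_filter, ev]; tauto
  have g4' : ∀ w, ¬ (w ∈ B₁ ∧ δ - w ∈ A₁) := by
    intro w; rw [hB₁, hA₁, mem_filter, mem_filter]
    exact fun h => S.top2' w ⟨h.1.1, h.2.1⟩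
  have comm1 : ∀ {p q : Prop}, (p ∨ q) ↔ (q ∨ p) := fun {p q} => or_comm
  obtain ⟨r1, r2⟩ := split_shift (A₁ := A₁) (A₂ := A₂) (B₁ := B₁) (B₂ := B₂) (δ := δ) hd0
    (fun w => (g1 w).symm.trans (g2 w)) g1' g2'
    (fun w => by rw [or_comm, or_comm (a := w - i₁ ∈ B₁)]; exact (hL3' w).symm.trans (hR3' w))
    (fun w h => hL4' w ⟨h.2, h.1⟩) (fun w h => hR4' w ⟨h.2, h.1⟩)
  obtain ⟨r3, r4⟩ := split_shift (A₁ := A₂) (A₂ := A₁) (B₁ := B₁) (B₂ := B₂) (δ := δ) hd0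
    (fun w => (g3 w).symm.trans (g4 w)) g3' g4'
    (fun w => by rw [or_comm, or_comm (a := w - i₁ ∈ B₁)]; exact (hB3' w).symm.trans (hT3' w))
    (fun w h => hB4' w ⟨h.2, h.1⟩) (fun w h => hT4' w ⟨h.2, h.1⟩)
  refine ⟨i₁, hd0, hi₁.2, ?_, r1, r3, by rw [← r2, r3], hj₁m', ?_, ?_, ?_⟩
  · exact mem_pos.2 ⟨hB2, ri₁.1⟩
  · intro w
    rw [hT3' w, or_comm, ← r1, hA₁, mem_filter, mem_filter]
  · intro w
    rw [hR3' w, or_comm, r3, ← r1, hA₁, mem_filter, mem_filter]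
  · intro w h
    apply hT4' w
    rw [← r1, hA₁, mem_filter, mem_filter]
    exact ⟨h.2, h.1⟩

end QSys

end Pool.Agent.Helper95.Queens
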