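import Pool.Agent.Helper95.QSymm

/-!
The case of an exact system in which the odd class is the larger one.
-/

set_option autoImplicit false

namespace Pool.Agent.Helper95.Queens

open Finset

namespace QSys

variable {g : ℕ} {δ : ℤ} {I J P Q : Finset ℤ}

theorem colBound (S : QSys g δ I J P Q) {i : ℤ} (hi : i ∈ I) (hio : ¬ Even i)
    (A B : Finset ℤ)
    (hA : ∀ j ∈ J, ¬ Even j → j - i ∈ P → Even (j - i) → j - i ∈ A)
    (hB : ∀ j ∈ J, ¬ Even j → i + j - δ ∈ Q → Even (i + j - δ) → i + j - δ ∈ B) :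
    (J.filter (fun w => ¬ Even w)).card ≤ A.card + B.card := by
  obtain ⟨hδ, -⟩ := S.parity
  have inj1 : Function.Injective (fun s : ℤ => i + s) := add_right_injective i
  have inj2 : Function.Injective (fun t : ℤ => δ + t - i) := by
    intro a b h
    simp only at h
    linarith
  refine (cover_exact (A := A) (B := B) inj1 inj2 ?_).1
  intro j hj
  rw [mem_filter] at hj
  rcases S.dom i hi j hj.1 with h | h
  · left
    refine ⟨j - i, hA j hj.1 hj.2 h ?_, by simp⟩
    rw [Int.even_sub]
    tauto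
  · right
    refine ⟨i + j - δ, hB j hj.1 hj.2 h ?_, by ring⟩
    rw [Int.even_sub, Int.even_add]
    tauto

theorem rowBound (S : QSys g δ I J P Q) {j : ℤ} (hj : j ∈ J) (hjo : ¬ Even j)
    (A B : Finset ℤ)
    (hA : ∀ i ∈ I, ¬ Even i → j - i ∈ P → Even (j - i) → j - i ∈ A)
    (hB : ∀ i ∈ I, ¬ Even i → i + j - δ ∈ Q → Even (i + j - δ) → i + j - δ ∈ B) :
    (I.filter (fun w => ¬ Even w)).card ≤ A.card + B.card := by
  obtain ⟨hδ, -⟩ := S.parity
  have inj1 : Function.Injective (fun s : ℤ => j - s) := sub_right_injective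
  have inj2 : Function.Injective (fun t : ℤ => δ + t - j) := by
    intro a b h
    simp only at h
    linarith
  refine (cover_exact (A := A) (B := B) inj1 inj2 ?_).1
  intro i hi
  rw [mem_filter] at hi
  rcases S.dom i hi.1 j hj with h | h
  · left
    refine ⟨j - i, hA i hi.1 hi.2 h ?_, by simp⟩
    rw [Int.even_sub]
    tauto
  · right
    refine ⟨i + j - δ, hB i hi.1 hi.2 h ?_, by ring⟩
    rw [Int.even_sub, Int.even_add]
    tauto

/-- Output of the tight analysis, second case. -/
theorem case2 (S : QSys g δ I J P Q) {x y : ℕ} (hy : 0 < y)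
    (hIO : (I.filter (fun w => ¬ Even w)).card = 2 * y)
    (hJO : (J.filter (fun w => ¬ Even w)).card = 2 * y)
    (c1 : ((pos P).filter (fun w => Even w)).card = x)
    (c2 : ((neg P).filter (fun w => Even w)).card = x)
    (c3 : ((pos Q).filter (fun w => Even w)).card = x)
    (c4 : ((neg Q).filter (fun w => Even w)).card = x)
    (cP : (P.filter (fun w => Even w)).card + 1 = 2 * x)
    (cQ : (Q.filter (fun w => Even w)).card + 1 = 2 * x) :
    y ≤ x ∧ (x = y → ∃ d : ℤ, 0 < d ∧ ¬ Even d ∧ d ∈ J ∧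
      (pos P).filter (fun w => Even w) = (pos Q).filter (fun w => Even w) ∧
      (neg P).filter (fun w => Even w) = (pos Q).filter (fun w => Even w) ∧
      (neg Q).filter (fun w => Even w) = (pos Q).filter (fun w => Even w) ∧
      (∀ w ∈ J, ¬ Even w → d ≤ w) ∧
      (∀ w, (w ∈ I ∧ ¬ Even w) ↔
        ((w - d ∈ pos P ∧ Even (w - d)) ∨ (δ - d - w ∈ pos P ∧ Even (δ - d - w)))) ∧
      (∀ w, (w ∈ J ∧ ¬ Even w) ↔
        ((w - d ∈ pos P ∧ Even (w - d)) ∨ (δ - d - w ∈ pos P ∧ Even (δ - d - w)))) ∧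
      (∀ w, ¬ ((w - d ∈ pos P ∧ Even (w - d)) ∧ (δ - d - w ∈ pos P ∧ Even (δ - d - w))))) := by
  classical
  obtain ⟨hδ, -⟩ := S.parity
  obtain ⟨j₂, hj₂, hj₂m⟩ := exists_max_mem (T := J.filter (fun w => ¬ Even w)) (by omega)
  obtain ⟨j₁, hj₁, hj₁m⟩ := exists_min_mem (T := J.filter (fun w => ¬ Even w)) (by omega)
  obtain ⟨i₂, hi₂, hi₂m⟩ := exists_max_mem (T := I.filter (fun w => ¬ Even w)) (by omega)
  obtain ⟨i₁, hi₁, hi₁m⟩ := exists_min_mem (T := I.filter (fun w => ¬ Even w)) (by omega)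
  rw [mem_filter] at hj₂ hj₁ hi₂ hi₁
  have hj₂m' : ∀ w ∈ J, ¬ Even w → w ≤ j₂ := fun w h1 h2 => hj₂m w (mem_filter.2 ⟨h1, h2⟩)
  have hj₁m' : ∀ w ∈ J, ¬ Even w → j₁ ≤ w := fun w h1 h2 => hj₁m w (mem_filter.2 ⟨h1, h2⟩)
  have hi₂m' : ∀ w ∈ I, ¬ Even w → w ≤ i₂ := fun w h1 h2 => hi₂m w (mem_filter.2 ⟨h1, h2⟩)
  have hi₁m' : ∀ w ∈ I, ¬ Even w → i₁ ≤ w := fun w h1 h2 => hi₁m w (mem_filter.2 ⟨h1, h2⟩)
  have ev : ∀ w : ℤ, Even (δ - w) ↔ Even w := by
    intro w; rw [Int.even_sub]; simp [hδ]
  -- complementary threshold counts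
  have thr : ∀ (T : Finset ℤ) (c : ℤ),
      (T.filter (fun s => c ≤ s)).card + (T.filter (fun s => s < c)).card = T.card := by
    intro T c
    have := card_filter_add_card_filter_not (s := T) (fun s : ℤ => c ≤ s)
    simp only [not_le] at this
    exact this
  have thr2 : ∀ (T : Finset ℤ) (c : ℤ),
      (T.filter (fun s => c ≤ s)).card + (T.filter (fun s => s ≤ c)).card
        = T.card + (if c ∈ T then 1 else 0) := by
    intro T c
    have h1 := thr T c
    have h2 : (T.filter (fun s => s ≤ c)).card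
        = (T.filter (fun s => s < c)).card + (if c ∈ T then 1 else 0) := by
      have h3 : T.filter (fun s => s ≤ c) = T.filter (fun s => s < c) ∪
          (if c ∈ T then {c} else ∅) := by
        ext w
        split_ifs with hc
        · simp only [mem_filter, mem_union, mem_singleton]
          constructor
          · rintro ⟨h4, h5⟩
            rcases lt_or_eq_of_le h5 with h6 | h6
            · exact Or.inl ⟨h4, h6⟩
            · exact Or.inr h6
          · rintro (h4 | rfl)
            · exact ⟨h4.1, h4.2.le⟩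
            · exact ⟨hc, le_rfl⟩
        · simp only [mem_filter, union_empty]
          constructor
          · rintro ⟨h4, h5⟩
            refine ⟨h4, lt_of_le_of_ne h5 ?_⟩
            rintro rfl
            exact hc h4
          · rintro ⟨h4, h5⟩
            exact ⟨h4, h5.le⟩
      rw [h3, card_union_of_disjoint]
      · split_ifs <;> simp
      · split_ifs
        · rw [disjoint_singleton_right, mem_filter]
          rintro ⟨_, h⟩
          omega
        · exact disjoint_empty_right _
    omega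
  set Pe := P.filter (fun w => Even w) with hPe
  set Qe := Q.filter (fun w => Even w) with hQe
  rcases lt_trichotomy (i₂ - i₁) (j₂ - j₁) with hlt | heq | hgt
  · -- rows
    have a1 := S.rowBound hj₁.1 hj₁.2 (Pe.filter (fun s => s < j₂ - i₂))
      (Qe.filter (fun t => t < i₁ + j₂ - δ))
      (by
        intro i hi hio hp he
        have := hi₁m' i hi hio
        rw [mem_filter, hPe, mem_filter]
        exact ⟨⟨hp, he⟩, by omega⟩)
      (by
        intro i hi hio hp he
        have := hi₂m' i hi hio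
        rw [mem_filter, hQe, mem_filter]
        exact ⟨⟨hp, he⟩, by omega⟩)
    have a2 := S.rowBound hj₂.1 hj₂.2 (Pe.filter (fun s => j₂ - i₂ ≤ s))
      (Qe.filter (fun t => i₁ + j₂ - δ ≤ t))
      (by
        intro i hi hio hp he
        have := hi₂m' i hi hio
        rw [mem_filter, hPe, mem_filter]
        exact ⟨⟨hp, he⟩, by omega⟩)
      (by
        intro i hi hio hp he
        have := hi₁m' i hi hio
        rw [mem_filter, hQe, mem_filter]
        exact ⟨⟨hp, he⟩, by omega⟩)
    have b1 := thr Pe (j₂ - i₂)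
    have b2 := thr Qe (i₁ + j₂ - δ)
    exact ⟨by omega, fun h => by omega⟩
  · -- equal
    have a1 := S.colBound hi₁.1 hi₁.2 (Pe.filter (fun s => j₁ - i₁ ≤ s))
      (Qe.filter (fun t => t ≤ i₁ + j₂ - δ))
      (by
        intro j hj hjo hp he
        have := hj₁m' j hj hjo
        rw [mem_filter, hPe, mem_filter]
        exact ⟨⟨hp, he⟩, by omega⟩)
      (by
        intro j hj hjo hp he
        have := hj₂m' j hj hjo
        rw [mem_filter, hQe, mem_filter]
        exact ⟨⟨hp, he⟩, by omega⟩)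
    have a2 := S.colBound hi₂.1 hi₂.2 (Pe.filter (fun s => s ≤ j₁ - i₁))
      (Qe.filter (fun t => i₁ + j₂ - δ ≤ t))
      (by
        intro j hj hjo hp he
        have := hj₂m' j hj hjo
        rw [mem_filter, hPe, mem_filter]
        exact ⟨⟨hp, he⟩, by omega⟩)
      (by
        intro j hj hjo hp he
        have := hj₁m' j hj hjo
        rw [mem_filter, hQe, mem_filter]
        exact ⟨⟨hp, he⟩, by omega⟩)
    have a3 := S.rowBound hj₁.1 hj₁.2 (Pe.filter (fun s => s ≤ j₁ - i₁))
      (Qe.filter (fun t => t ≤ i₁ + j₂ - δ))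
      (by
        intro i hi hio hp he
        have := hi₁m' i hi hio
        rw [mem_filter, hPe, mem_filter]
        exact ⟨⟨hp, he⟩, by omega⟩)
      (by
        intro i hi hio hp he
        have := hi₂m' i hi hio
        rw [mem_filter, hQe, mem_filter]
        exact ⟨⟨hp, he⟩, by omega⟩)
    have a4 := S.rowBound hj₂.1 hj₂.2 (Pe.filter (fun s => j₁ - i₁ ≤ s))
      (Qe.filter (fun t => i₁ + j₂ - δ ≤ t))
      (by
        intro i hi hio hp he
        have := hi₂m' i hi hio
        rw [mem_filter, hPe, mem_filter]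
        exact ⟨⟨hp, he⟩, by omega⟩)
      (by
        intro i hi hio hp he
        have := hi₁m' i hi hio
        rw [mem_filter, hQe, mem_filter]
        exact ⟨⟨hp, he⟩, by omega⟩)
    have b1 := thr2 Pe (j₁ - i₁)
    have b2 := thr2 Qe (i₁ + j₂ - δ)
    have b3 : (if j₁ - i₁ ∈ Pe then 1 else 0) ≤ 1 := by split_ifs <;> omega
    have b4 : (if i₁ + j₂ - δ ∈ Qe then 1 else 0) ≤ 1 := by split_ifs <;> omega
    refine ⟨by omega, fun hxy => ?_⟩
    -- centring
    have s0le : j₁ - i₁ ≤ 0 := by
      by_contra hc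
      push Not at hc
      have hsub : Pe.filter (fun s => j₁ - i₁ ≤ s) ⊆
          ((pos P).filter (fun w => Even w)).erase 0 := by
        intro s hs
        rw [mem_filter, hPe, mem_filter] at hs
        rw [mem_erase, mem_filter, mem_pos]
        exact ⟨by omega, ⟨hs.1.1, by omega⟩, hs.1.2⟩
      have h0 : (0 : ℤ) ∈ (pos P).filter (fun w => Even w) := by
        rw [mem_filter, mem_pos]; exact ⟨⟨S.P0, le_rfl⟩, Even.zero⟩
      have := card_le_card hsub
      rw [card_erase_of_mem h0] at this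
      omega
    have s0ge : 0 ≤ j₁ - i₁ := by
      by_contra hc
      push Not at hc
      have hsub : (Pe.filter (fun s => s ≤ j₁ - i₁)).image (fun w => -w) ⊆
          ((neg P).filter (fun w => Even w)).erase 0 := by
        intro s hs
        rw [mem_image] at hs
        obtain ⟨s', hs', rfl⟩ := hs
        rw [mem_filter, hPe, mem_filter] at hs'
        rw [mem_erase, mem_filter, mem_neg, neg_neg, even_neg]
        exact ⟨by omega, ⟨hs'.1.1, by omega⟩, hs'.1.2⟩
      have h0 : (0 : ℤ) ∈ (neg P).filter (fun w => Even w) := by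
        rw [mem_filter, mem_neg]; exact ⟨⟨by simpa using S.P0, le_rfl⟩, Even.zero⟩
      have := card_le_card hsub
      rw [card_erase_of_mem h0, card_image_of_injective _ neg_injective] at this
      omega
    have t0le : i₁ + j₂ - δ ≤ 0 := by
      by_contra hc
      push Not at hc
      have hsub : Qe.filter (fun s => i₁ + j₂ - δ ≤ s) ⊆
          ((pos Q).filter (fun w => Even w)).erase 0 := by
        intro s hs
        rw [mem_filter, hQe, mem_filter] at hs
        rw [mem_erase, mem_filter, mem_pos]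
        exact ⟨by omega, ⟨hs.1.1, by omega⟩, hs.1.2⟩
      have h0 : (0 : ℤ) ∈ (pos Q).filter (fun w => Even w) := by
        rw [mem_filter, mem_pos]; exact ⟨⟨S.Q0, le_rfl⟩, Even.zero⟩
      have := card_le_card hsub
      rw [card_erase_of_mem h0] at this
      omega
    have t0ge : 0 ≤ i₁ + j₂ - δ := by
      by_contra hc
      push Not at hc
      have hsub : (Qe.filter (fun s => s ≤ i₁ + j₂ - δ)).image (fun w => -w) ⊆
          ((neg Q).filter (fun w => Even w)).erase 0 := by
        intro s hs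
        rw [mem_image] at hs
        obtain ⟨s', hs', rfl⟩ := hs
        rw [mem_filter, hQe, mem_filter] at hs'
        rw [mem_erase, mem_filter, mem_neg, neg_neg, even_neg]
        exact ⟨by omega, ⟨hs'.1.1, by omega⟩, hs'.1.2⟩
      have h0 : (0 : ℤ) ∈ (neg Q).filter (fun w => Even w) := by
        rw [mem_filter, mem_neg]; exact ⟨⟨by simpa using S.Q0, le_rfl⟩, Even.zero⟩
      have := card_le_card hsub
      rw [card_erase_of_mem h0, card_image_of_injective _ neg_injective] at this
      omega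
    obtain rfl : i₁ = j₁ := by omega
    obtain rfl : i₂ = j₂ := by omega
    have hi₂e : i₂ = δ - i₁ := by omega
    subst hi₂e
    have ri₁ := S.Irange _ hi₁.1
    have hd0 : 0 < i₁ := by
      rcases lt_or_eq_of_le ri₁.1 with h | h
      · exact h
      · exfalso; apply hi₁.2; rw [← h]; simp
    set A₁ := (pos P).filter (fun w => Even w) with hA₁
    set A₂ := (neg P).filter (fun w => Even w) with hA₂
    set B₁ := (pos Q).filter (fun w => Even w) with hB₁
    set B₂ := (neg Q).filter (fun w => Even w) with hB₂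
    have inj1 : Function.Injective (fun s : ℤ => i₁ + s) := add_right_injective i₁
    have inj2 : Function.Injective (fun t : ℤ => δ - i₁ - t) := sub_right_injective
    -- turning exact covers into pointwise statements
    have conv : ∀ {T A B : Finset ℤ},
        (∀ w ∈ T, (∃ a ∈ A, (fun s : ℤ => i₁ + s) a = w) ∨
          (∃ b ∈ B, (fun t : ℤ => δ - i₁ - t) b = w)) → A.card + B.card ≤ T.card →
        (∀ w, w ∈ T ↔ (w - i₁ ∈ A ∨ δ - i₁ - w ∈ B)) ∧
        (∀ w, ¬ (w - i₁ ∈ A ∧ δ - i₁ - w ∈ B)) := by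
      intro T A B hcov hc
      obtain ⟨e1, e2, e3⟩ := (cover_exact inj1 inj2 hcov).2 hc
      constructor
      · intro w
        constructor
        · intro hw
          rcases hcov w hw with ⟨a, ha, haw⟩ | ⟨b, hb, hbw⟩
          · left
            simp only at haw
            have : w - i₁ = a := by omega
            rw [this]; exact ha
          · right
            simp only at hbw
            have : δ - i₁ - w = b := by omega
            rw [this]; exact hb
        · rintro (h | h)
          · have := e1 _ h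
            simp only [add_sub_cancel] at this
            exact this
          · have := e2 _ h
            simp only [sub_sub_cancel] at this
            exact this
      · rintro w ⟨h1, h2⟩
        apply e3 _ h1 _ h2
        ring
    have dJ : ∀ j ∈ J, ¬ Even j → ∀ i ∈ I, ¬ Even i → Even (j - i) ∧ Even (i + j - δ) := by
      intro j _ hj i _ hi
      rw [Int.even_sub, Int.even_sub, Int.even_add]
      tauto
    have hLc : ∀ w ∈ J.filter (fun w => ¬ Even w),
        (∃ a ∈ A₁, (fun s : ℤ => i₁ + s) a = w) ∨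
          (∃ b ∈ B₂, (fun t : ℤ => δ - i₁ - t) b = w) := by
      intro w hw
      rw [mem_filter] at hw
      have m1 := hj₁m' w hw.1 hw.2
      have m2 := hj₂m' w hw.1 hw.2
      obtain ⟨p1, p2⟩ := dJ w hw.1 hw.2 i₁ hi₁.1 hi₁.2
      rcases S.dom i₁ hi₁.1 w hw.1 with h | h
      · left
        refine ⟨w - i₁, ?_, by simp⟩
        rw [hA₁, mem_filter, mem_pos]
        exact ⟨⟨h, by omega⟩, p1⟩
      · right
        refine ⟨δ - i₁ - w, ?_, by simp⟩
        have e : -(δ - i₁ - w) = i₁ + w - δ := by ring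
        rw [hB₂, mem_filter, mem_neg, e]
        refine ⟨⟨h, by omega⟩, ?_⟩
        rw [← even_neg, e]; exact p2
    have hRc : ∀ w ∈ J.filter (fun w => ¬ Even w),
        (∃ a ∈ B₁, (fun s : ℤ => i₁ + s) a = w) ∨
          (∃ b ∈ A₂, (fun t : ℤ => δ - i₁ - t) b = w) := by
      intro w hw
      rw [mem_filter] at hw
      have m1 := hj₁m' w hw.1 hw.2
      have m2 := hj₂m' w hw.1 hw.2
      obtain ⟨p1, p2⟩ := dJ w hw.1 hw.2 (δ - i₁) hi₂.1 hi₂.2
      rcases S.dom (δ - i₁) hi₂.1 w hw.1 with h | h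
      · right
        refine ⟨δ - i₁ - w, ?_, by simp⟩
        have e : -(δ - i₁ - w) = w - (δ - i₁) := by ring
        rw [hA₂, mem_filter, mem_neg, e]
        refine ⟨⟨h, by omega⟩, ?_⟩
        rw [← even_neg, e]; exact p1
      · left
        refine ⟨w - i₁, ?_, by simp⟩
        have e : δ - i₁ + w - δ = w - i₁ := by ring
        rw [e] at h p2
        rw [hB₁, mem_filter, mem_pos]
        exact ⟨⟨h, by omega⟩, p2⟩
    have hBc : ∀ w ∈ I.filter (fun w => ¬ Even w),
        (∃ a ∈ A₂, (fun s : ℤ => i₁ + s) a = w) ∨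
          (∃ b ∈ B₂, (fun t : ℤ => δ - i₁ - t) b = w) := by
      intro w hw
      rw [mem_filter] at hw
      have m1 := hi₁m' w hw.1 hw.2
      have m2 := hi₂m' w hw.1 hw.2
      obtain ⟨p1, p2⟩ := dJ i₁ hj₁.1 hj₁.2 w hw.1 hw.2
      rcases S.dom w hw.1 i₁ hj₁.1 with h | h
      · left
        refine ⟨w - i₁, ?_, by simp⟩
        have e : -(w - i₁) = i₁ - w := by ring
        rw [hA₂, mem_filter, mem_neg, e]
        refine ⟨⟨h, by omega⟩, ?_⟩
        rw [← even_neg, e]; exact p1
      · right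
        refine ⟨δ - i₁ - w, ?_, by simp⟩
        have e : -(δ - i₁ - w) = w + i₁ - δ := by ring
        rw [hB₂, mem_filter, mem_neg, e]
        refine ⟨⟨h, by omega⟩, ?_⟩
        rw [← even_neg, e]; exact p2
    have hTc : ∀ w ∈ I.filter (fun w => ¬ Even w),
        (∃ a ∈ B₁, (fun s : ℤ => i₁ + s) a = w) ∨
          (∃ b ∈ A₁, (fun t : ℤ => δ - i₁ - t) b = w) := by
      intro w hw
      rw [mem_filter] at hw
      have m1 := hi₁m' w hw.1 hw.2
      have m2 := hi₂m' w hw.1 hw.2
      obtain ⟨p1, p2⟩ := dJ (δ - i₁) hj₂.1 hj₂.2 w hw.1 hw.2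
      rcases S.dom w hw.1 (δ - i₁) hj₂.1 with h | h
      · right
        refine ⟨δ - i₁ - w, ?_, by simp⟩
        rw [hA₁, mem_filter, mem_pos]
        exact ⟨⟨h, by omega⟩, p1⟩
      · left
        refine ⟨w - i₁, ?_, by simp⟩
        have e : w + (δ - i₁) - δ = w - i₁ := by ring
        rw [e] at h p2
        rw [hB₁, mem_filter, mem_pos]
        exact ⟨⟨h, by omega⟩, p2⟩
    obtain ⟨L1, L2⟩ := conv hLc (by omega)
    obtain ⟨R1, R2⟩ := conv hRc (by omega)
    obtain ⟨D1, D2⟩ := conv hBc (by omega)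
    obtain ⟨U1, U2⟩ := conv hTc (by omega)
    have g1 : ∀ w, (w ∈ J ∧ Even w) ↔ (w ∈ A₁ ∨ δ - w ∈ B₂) := by
      intro w; rw [S.left2 w, hA₁, hB₂, mem_filter, mem_filter, ev]; tauto
    have g1' : ∀ w, ¬ (w ∈ A₁ ∧ δ - w ∈ B₂) := by
      intro w; rw [hA₁, hB₂, mem_filter, mem_filter]
      exact fun h => S.left2' w ⟨h.1.1, h.2.1⟩
    have g2 : ∀ w, (w ∈ J ∧ Even w) ↔ (w ∈ B₁ ∨ δ - w ∈ A₂) := by
      intro w; rw [S.right2 w, hB₁, hA₂, mem_filter, mem_filter, ev]; tauto
    have g2' : ∀ w, ¬ (w ∈ B₁ ∧ δ - w ∈ A₂) := by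
      intro w; rw [hB₁, hA₂, mem_filter, mem_filter]
      exact fun h => S.right2' w ⟨h.1.1, h.2.1⟩
    have g3 : ∀ w, (w ∈ I ∧ Even w) ↔ (w ∈ A₂ ∨ δ - w ∈ B₂) := by
      intro w; rw [S.bot2 w, hA₂, hB₂, mem_filter, mem_filter, ev]; tauto
    have g3' : ∀ w, ¬ (w ∈ A₂ ∧ δ - w ∈ B₂) := by
      intro w; rw [hA₂, hB₂, mem_filter, mem_filter]
      exact fun h => S.bot2' w ⟨h.1.1, h.2.1⟩
    have g4 : ∀ w, (w ∈ I ∧ Even w) ↔ (w ∈ B₁ ∨ δ - w ∈ A₁) := by
      intro w; rw [S.top2 w, hB₁, hA₁, mem_filter, mem_filter, ev]; tauto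
    have g4' : ∀ w, ¬ (w ∈ B₁ ∧ δ - w ∈ A₁) := by
      intro w; rw [hB₁, hA₁, mem_filter, mem_filter]
      exact fun h => S.top2' w ⟨h.1.1, h.2.1⟩
    obtain ⟨r1, r2⟩ := split_shift (A₁ := A₁) (A₂ := A₂) (B₁ := B₁) (B₂ := B₂) (δ := δ) hd0
      (fun w => (g1 w).symm.trans (g2 w)) g1' g2'
      (fun w => (L1 w).symm.trans (R1 w)) L2 R2
    obtain ⟨r3, r4⟩ := split_shift (A₁ := A₂) (A₂ := A₁) (B₁ := B₁) (B₂ := B₂) (δ := δ) hd0
      (fun w => (g3 w).symm.trans (g4 w)) g3' g4'
      (fun w => (D1 w).symm.trans (U1 w)) D2 U2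
    refine ⟨i₁, hd0, hi₁.2, hj₁.1, r1, r3, by rw [← r2, r3], hj₁m', ?_, ?_, ?_⟩
    · intro w
      have := U1 w
      rw [mem_filter, ← r1, hA₁, mem_filter, mem_filter] at this
      exact this
    · intro w
      have := L1 w
      rw [mem_filter, ← r2, r3, ← r1, hA₁, mem_filter, mem_filter] at this
      exact this
    · intro w h
      apply U2 w
      rw [← r1, hA₁, mem_filter, mem_filter]
      exact h
  · -- columns
    have a1 := S.colBound hi₁.1 hi₁.2 (Pe.filter (fun s => j₁ - i₁ ≤ s))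
      (Qe.filter (fun t => t < i₂ + j₁ - δ))
      (by
        intro j hj hjo hp he
        have := hj₁m' j hj hjo
        rw [mem_filter, hPe, mem_filter]
        exact ⟨⟨hp, he⟩, by omega⟩)
      (by
        intro j hj hjo hp he
        have := hj₂m' j hj hjo
        rw [mem_filter, hQe, mem_filter]
        exact ⟨⟨hp, he⟩, by omega⟩)
    have a2 := S.colBound hi₂.1 hi₂.2 (Pe.filter (fun s => s < j₁ - i₁))
      (Qe.filter (fun t => i₂ + j₁ - δ ≤ t))
      (by
        intro j hj hjo hp he
        have := hj₂m' j hj hjo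
        rw [mem_filter, hPe, mem_filter]
        exact ⟨⟨hp, he⟩, by omega⟩)
      (by
        intro j hj hjo hp he
        have := hj₁m' j hj hjo
        rw [mem_filter, hQe, mem_filter]
        exact ⟨⟨hp, he⟩, by omega⟩)
    have b1 := thr Pe (j₁ - i₁)
    have b2 := thr Qe (i₂ + j₁ - δ)
    exact ⟨by omega, fun h => by omega⟩

end QSys

end Pool.Agent.Helper95.Queens
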