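import Pool.Agent.Helper95.QXeqZ
import Pool.Agent.Helper95.QData

/-!
Queen data of an exact system in symmetric form.
-/

set_option autoImplicit false

namespace Pool.Agent.Helper95.Queens

open Finset

theorem mem_iff_abs_pos {P : Finset ℤ} (hP : neg P = pos P) (s : ℤ) : s ∈ P ↔ |s| ∈ pos P := by
  rcases abs_cases s with ⟨e, hw⟩ | ⟨e, hw⟩
  · rw [e, mem_pos]
    constructor
    · intro h'; exact ⟨h', hw⟩
    · exact fun h' => h'.1
  · rw [e, ← hP, mem_neg, neg_neg]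
    constructor
    · intro h'; exact ⟨h', by omega⟩
    · exact fun h' => h'.1

/-- The symmetric form of the data. -/
theorem glue {g : ℕ} {δ a c : ℤ} {D : Finset (ℤ × ℤ)} {I J P Q : Finset ℤ}
    (H : QData g δ a c D I J P Q) :
    ∃ N : ℕ, g + 1 = 2 * N ∧ Even δ ∧ 0 < δ ∧ δ ≤ 4 * (N : ℤ) - 2 ∧ I = J ∧ P = Q ∧
      (∀ s, s ∈ P ↔ |s| ∈ pos P) ∧ (∀ s ∈ P, -s ∈ P) ∧ (pos P).card = N ∧ (0 : ℤ) ∈ pos P ∧
      (∀ u ∈ pos P, 0 ≤ u ∧ u < δ) ∧
      (∀ w, w ∈ J ↔ (w ∈ pos P ∨ δ - w ∈ pos P)) ∧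
      (∀ w, ¬ (w ∈ pos P ∧ δ - w ∈ pos P)) ∧
      (∀ u ∈ J, ∀ w ∈ J, |u - w| ∈ pos P ∨ |u + w - δ| ∈ pos P) := by
  obtain ⟨k, h, hk, hh, hIJ, hP, hQ, S, -⟩ := H.sys.reduce
  have hXZ := S.XeqZ
  have hPQ : P = Q := by
    ext s
    rw [mem_iff_abs_pos hP s, mem_iff_abs_pos hQ s, hXZ]
  have hc : ∀ u ∈ J, ∀ w ∈ J, |u - w| ∈ pos P ∨ |u + w - δ| ∈ pos P := by
    intro u hu w hw
    have := S.S1 u hu w hw
    rw [← hXZ, ← hh] at this
    exact this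
  have h1 : ∀ w, w ∈ J ↔ (w ∈ pos P ∨ δ - w ∈ pos P) := by
    intro w
    have := S.XZ w
    rw [← hXZ, ← hh] at this
    exact this
  have h2 : ∀ w, ¬ (w ∈ pos P ∧ δ - w ∈ pos P) := by
    intro w
    have := S.XZ' w
    rw [← hXZ, ← hh] at this
    exact this
  refine ⟨k, hk, ⟨h, by rw [hh]; ring⟩, H.sys.δpos, ?_, hIJ, hPQ, mem_iff_abs_pos hP, ?_,
    S.Xcard, S.X0, ?_, h1, h2, hc⟩
  · have := S.hle
    omega
  · intro s hs
    rw [mem_iff_abs_pos hP] at hs ⊢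
    rwa [abs_neg]
  · intro u hu
    have := mem_pos.1 hu
    exact ⟨this.2, (H.sys.Prange u this.1).2⟩

/-- The empty lines are exactly the even ones as soon as they are all even and `δ = 2g`. -/
theorem evens_of {g : ℕ} {δ a c : ℤ} {D : Finset (ℤ × ℤ)} {I J P Q : Finset ℤ}
    (H : QData g δ a c D I J P Q) (hδ : δ = 2 * (g : ℤ)) (hJ : ∀ w ∈ J, Even w) :
    ∀ w, w ∈ J ↔ 0 ≤ w ∧ w ≤ δ ∧ Even w := by
  classical
  have hcard : ((Finset.range (g + 1)).image (fun n : ℕ => 2 * (n : ℤ))).card = g + 1 := by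
    rw [card_image_of_injective _ (by
      intro a b hab
      simp only at hab
      omega), card_range]
  have hsub : J ⊆ (Finset.range (g + 1)).image (fun n : ℕ => 2 * (n : ℤ)) := by
    intro w hw
    obtain ⟨c, hc⟩ := hJ w hw
    have := H.sys.Jrange w hw
    rw [mem_image]
    refine ⟨c.toNat, ?_, ?_⟩
    · rw [mem_range]; omega
    · omega
  have hJeq := eq_of_subset_of_card_le hsub (by rw [hcard, H.sys.Jcard])
  intro w
  rw [hJeq, mem_image]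
  constructor
  · rintro ⟨n, hn, rfl⟩
    rw [mem_range] at hn
    exact ⟨by omega, by omega, ⟨n, by ring⟩⟩
  · rintro ⟨h0, h1, ⟨c, hc⟩⟩
    exact ⟨c.toNat, by rw [mem_range]; omega, by omega⟩

end Pool.Agent.Helper95.Queens
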