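import Pool.Agent.Helper95.QGlue
import Pool.Agent.Helper69.QueensA2
import Pool.Agent.Helper69.QueensD
import Pool.Agent.Helper69.QueensSQ
import Pool.Agent.Helper59.QueensMain

/-!
Assembly: `(n-1)/2` queens dominate the `n × n` board only for `n = 3` and `n = 11`.
-/

set_option autoImplicit false

namespace Pool.Agent.Helper95.Queens

open Finset

theorem size_of_qdata {g : ℕ} {δ a c : ℤ} {D : Finset (ℤ × ℤ)} {I J P Q : Finset ℤ}
    (H : QData g δ a c D I J P Q) : g = 1 ∨ g = 5 := by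
  obtain ⟨N, hN, hev, h0, h4, hIJ, hPQ, hmem, hsym, hcard, hz, hrange, hJ, hdisj, hcov⟩ := glue H
  have hnP : neg P = pos P := by
    ext w
    rw [mem_neg, mem_pos]
    constructor
    · rintro ⟨h1, h2⟩
      exact ⟨by simpa using hsym _ h1, h2⟩
    · rintro ⟨h1, h2⟩
      exact ⟨hsym _ h1, h2⟩
  obtain ⟨n1, n2, n3, n4, n5, n6, n7, n8, n9, n10⟩ :=
    Helper69.Queens.glue H hIJ hnP (by rw [← hPQ]; exact hnP) (by rw [hPQ]) N hcard hev
  rcases Helper59.QC.classify N δ (pos P) hz hrange hcard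
    (fun u hu hu' => hdisj u ⟨hu, hu'⟩)
    (fun u w _ _ _ _ hu hw => hcov u ((hJ u).2 hu) w ((hJ w).2 hw)) hev n3 n4 n5 n6 n7
    with h | h | ⟨h, h'⟩
  · left; omega
  · right; omega
  · have hd : δ = 2 * (g : ℤ) := by omega
    have hE := evens_of H hd (fun w hw => h' w (H.sys.Jrange w hw).1 (H.sys.Jrange w hw).2
      ((hJ w).1 hw))
    exact Helper69.Queens.alt H hd hE (by rw [hIJ]; exact hE) n9 n10

end Pool.Agent.Helper95.Queens
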