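import Pool.Agent.Helper95.QCase1
import Pool.Agent.Helper95.QCase2

/-!
Symmetric exact systems, and the reduction of exact systems to them.
-/

set_option autoImplicit false

namespace Pool.Agent.Helper95.Queens

open Finset

/-- A symmetric exact system: `E` is the set of empty lines (the same for rows and columns,
stable under reflection), `X` and `Z` are the absolute values of the occupied diagonals. -/
structure QSym (k : ℕ) (h : ℤ) (E X Z : Finset ℤ) : Prop where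
  hpos : 0 < h
  hle : h ≤ 2 * (k : ℤ) - 1
  E0 : (0 : ℤ) ∈ E
  Esym : ∀ w, w ∈ E ↔ 2 * h - w ∈ E
  Erange : ∀ w ∈ E, 0 ≤ w ∧ w ≤ 2 * h
  Ecard : E.card = 2 * k
  X0 : (0 : ℤ) ∈ X
  Z0 : (0 : ℤ) ∈ Z
  Xcard : X.card = k
  Zcard : Z.card = k
  XZ : ∀ w, w ∈ E ↔ (w ∈ X ∨ 2 * h - w ∈ Z)
  XZ' : ∀ w, ¬ (w ∈ X ∧ 2 * h - w ∈ Z)
  ZX : ∀ w, w ∈ E ↔ (w ∈ Z ∨ 2 * h - w ∈ X)
  ZX' : ∀ w, ¬ (w ∈ Z ∧ 2 * h - w ∈ X)
  S1 : ∀ a ∈ E, ∀ b ∈ E, |a - b| ∈ X ∨ |a + b - 2 * h| ∈ Z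
  S2 : ∀ a ∈ E, ∀ b ∈ E, |a - b| ∈ Z ∨ |a + b - 2 * h| ∈ X

/-- The extra information when the even class is the larger one. -/
structure TightOdd (h d : ℤ) (E X Z : Finset ℤ) : Prop where
  dpos : 0 < d
  dodd : ¬ Even d
  dX : d ∈ X
  dmin : ∀ w ∈ E, ¬ Even w → d ≤ w
  eq : ∀ w, ¬ Even w → (w ∈ X ↔ w ∈ Z)
  ev : ∀ w, (w ∈ E ∧ Even w ∧ w ≠ 0 ∧ w ≠ 2 * h) ↔
        ((w - d ∈ X ∧ ¬ Even (w - d)) ∨ (2 * h - d - w ∈ X ∧ ¬ Even (2 * h - d - w)))
  ev' : ∀ w, ¬ ((w - d ∈ X ∧ ¬ Even (w - d)) ∧ (2 * h - d - w ∈ X ∧ ¬ Even (2 * h - d - w)))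

/-- The extra information when the odd class is the larger one. -/
structure TightEven (h d : ℤ) (E X Z : Finset ℤ) : Prop where
  dpos : 0 < d
  dodd : ¬ Even d
  dE : d ∈ E
  dmin : ∀ w ∈ E, ¬ Even w → d ≤ w
  eq : ∀ w, Even w → (w ∈ X ↔ w ∈ Z)
  od : ∀ w, (w ∈ E ∧ ¬ Even w) ↔
        ((w - d ∈ X ∧ Even (w - d)) ∨ (2 * h - d - w ∈ X ∧ Even (2 * h - d - w)))
  od' : ∀ w, ¬ ((w - d ∈ X ∧ Even (w - d)) ∧ (2 * h - d - w ∈ X ∧ Even (2 * h - d - w)))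

theorem filter_ext_of {A B : Finset ℤ} {p : ℤ → Prop} [DecidablePred p]
    (h : A.filter p = B.filter p) (w : ℤ) (hw : p w) : w ∈ A ↔ w ∈ B := by
  have := congrArg (fun T => w ∈ T) h
  simp only [mem_filter, eq_iff_iff] at this
  tauto

theorem eq_of_filters {A B : Finset ℤ} {p : ℤ → Prop} [DecidablePred p]
    (h : ∀ w, p w → (w ∈ A ↔ w ∈ B)) (h' : ∀ w, ¬ p w → (w ∈ A ↔ w ∈ B)) : A = B := by
  ext w
  by_cases hw : p w
  · exact h w hw
  · exact h' w hw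

namespace QSys

variable {g : ℕ} {δ : ℤ} {I J P Q : Finset ℤ}

/-- Symmetric exact systems from symmetric data. -/
theorem toSym (S : QSys g δ I J P Q) {k : ℕ} {h : ℤ} (hk : g + 1 = 2 * k) (hh : δ = 2 * h)
    (hIJ : I = J) (hJs : ∀ w, w ∈ J ↔ δ - w ∈ J) (hP : neg P = pos P) (hQ : neg Q = pos Q)
    (hXc : (pos P).card = k) (hZc : (pos Q).card = k) :
    QSym k h J (pos P) (pos Q) := by
  subst hIJ
  subst hh
  have memP : ∀ w, w ∈ P ↔ |w| ∈ pos P := by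
    intro w
    rcases abs_cases w with ⟨e, hw⟩ | ⟨e, hw⟩
    · rw [e, mem_pos]; tauto
    · rw [e, ← hP, mem_neg, neg_neg]
      constructor
      · intro h'; exact ⟨h', by omega⟩
      · exact fun h' => h'.1
  have memQ : ∀ w, w ∈ Q ↔ |w| ∈ pos Q := by
    intro w
    rcases abs_cases w with ⟨e, hw⟩ | ⟨e, hw⟩
    · rw [e, mem_pos]; tauto
    · rw [e, ← hQ, mem_neg, neg_neg]
      constructor
      · intro h'; exact ⟨h', by omega⟩
      · exact fun h' => h'.1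
  have XZ : ∀ w, w ∈ I ↔ (w ∈ pos P ∨ 2 * h - w ∈ pos Q) := by
    intro w; rw [S.left2 w, hQ]
  have XZ' : ∀ w, ¬ (w ∈ pos P ∧ 2 * h - w ∈ pos Q) := by
    intro w; rw [← hQ]; exact S.left2' w
  have ZX : ∀ w, w ∈ I ↔ (w ∈ pos Q ∨ 2 * h - w ∈ pos P) := S.top2
  have ZX' : ∀ w, ¬ (w ∈ pos Q ∧ 2 * h - w ∈ pos P) := S.top2'
  have S1 : ∀ a ∈ I, ∀ b ∈ I, |a - b| ∈ pos P ∨ |a + b - 2 * h| ∈ pos Q := by
    intro a ha b hb
    rcases S.dom b hb a ha with h' | h'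
    · left; exact (memP _).1 h'
    · right; rw [add_comm b a] at h'; exact (memQ _).1 h'
  refine ⟨?_, ?_, S.J0, hJs, S.Jrange, ?_, ?_, ?_, hXc, hZc, XZ, XZ', ZX, ZX', S1, ?_⟩
  · have := S.δpos; omega
  · have := S.δle; omega
  · rw [S.Jcard]; omega
  · exact mem_pos.2 ⟨S.P0, le_rfl⟩
  · exact mem_pos.2 ⟨S.Q0, le_rfl⟩
  · intro a ha b hb
    rcases S1 (2 * h - a) ((hJs a).1 ha) b hb with h' | h'
    · right
      rw [← abs_neg]
      convert h' using 2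
      ring
    · left
      rw [← abs_neg]
      convert h' using 2
      ring

theorem aux1 {j p n q : Prop} (a1 : j ↔ (p ∨ q)) (a2 : j ↔ (n ∨ q)) (a3 : ¬ (p ∧ q))
    (a4 : ¬ (n ∧ q)) : n ↔ p := by tauto

theorem aux2 {j j' p n q : Prop} (a0 : j ↔ j') (a1 : j' ↔ (p ∨ n)) (a2 : j ↔ (q ∨ p))
    (a3 : ¬ (p ∧ n)) (a4 : ¬ (q ∧ p)) : n ↔ q := by tauto

theorem symP (S : QSys g δ I J P Q) (hIJ : I = J) : neg P = pos P := by
  ext w
  exact aux1 (S.left2 w) (by have := S.bot2 w; rwa [hIJ] at this) (S.left2' w) (S.bot2' w)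

theorem symQ (S : QSys g δ I J P Q) (hIJ : I = J) (hJs : ∀ w, w ∈ J ↔ δ - w ∈ J) :
    neg Q = pos Q := by
  ext w
  have a1 := S.left2 (δ - w)
  have a3 := S.left2' (δ - w)
  rw [sub_sub_cancel] at a1 a3
  exact aux2 (hJs w) a1 (by have := S.top2 w; rwa [hIJ] at this) a3 (S.top2' w)

/-- No odd empty line: every even line of the board is empty. -/
theorem branch0 (S : QSys g δ I J P Q) {x : ℕ} {h : ℤ} (hxy : g + 1 = 2 * x) (hh2 : δ = 2 * h)
    (JE : ∀ w ∈ J, Even w) (IE : ∀ w ∈ I, Even w)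
    (c1 : (pos P).card = x) (c3 : (pos Q).card = x) :
    I = J ∧ neg P = pos P ∧ neg Q = pos Q ∧ QSym x h J (pos P) (pos Q) ∧
      h = 2 * (x : ℤ) - 1 := by
  classical
  have hpos := S.δpos
  have hle := S.δle
  have hcard : ((Finset.range (h.toNat + 1)).image (fun n : ℕ => 2 * (n : ℤ))).card
      = h.toNat + 1 := by
    rw [card_image_of_injective _ (by
      intro a b hab
      simp only at hab
      omega), card_range]
  have hsub : ∀ {T : Finset ℤ}, (∀ w ∈ T, 0 ≤ w ∧ w ≤ δ) → (∀ w ∈ T, Even w) →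
      T ⊆ (Finset.range (h.toNat + 1)).image (fun n : ℕ => 2 * (n : ℤ)) := by
    intro T h1 h2 w hw
    obtain ⟨c, hc⟩ := h2 w hw
    have := h1 w hw
    rw [mem_image]
    refine ⟨c.toNat, ?_, ?_⟩
    · rw [mem_range]; omega
    · omega
  have hJsub := hsub S.Jrange JE
  have hIsub := hsub S.Irange IE
  have hJc := S.Jcard
  have hIc := S.Icard
  have hJeq := eq_of_subset_of_card_le hJsub (by rw [hcard]; omega)
  have hIeq := eq_of_subset_of_card_le hIsub (by rw [hcard]; omega)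
  have hcl := card_le_card hJsub
  rw [hcard] at hcl
  have hIJ : I = J := by rw [hIeq, hJeq]
  have hJs : ∀ w, w ∈ J ↔ δ - w ∈ J := by
    intro w
    rw [hJeq, mem_image, mem_image]
    constructor
    · rintro ⟨n, hn, rfl⟩
      rw [mem_range] at hn
      exact ⟨h.toNat - n, by rw [mem_range]; omega, by omega⟩
    · rintro ⟨n, hn, hn'⟩
      rw [mem_range] at hn
      exact ⟨h.toNat - n, by rw [mem_range]; omega, by omega⟩
  exact ⟨hIJ, S.symP hIJ, S.symQ hIJ hJs,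
    S.toSym hxy hh2 hIJ hJs (S.symP hIJ) (S.symQ hIJ hJs) c1 c3, by omega⟩

theorem aux3 {i j e z d : Prop} {r : Prop} (h0 : z → (i ∧ j)) (h1 : d → (i ∧ j)) (he : e)
    (a1 : (i ∧ e ∧ ¬ z ∧ ¬ d) ↔ r) (a2 : (j ∧ e ∧ ¬ z ∧ ¬ d) ↔ r) : i ↔ j := by tauto

theorem aux4 {i j e : Prop} {r : Prop} (he : ¬ e)
    (a1 : (i ∧ ¬ e) ↔ r) (a2 : (j ∧ ¬ e) ↔ r) : i ↔ j := by tauto

theorem aux5 {j j' e z d a b : Prop} (h0 : z → (j ∧ j')) (h1 : d → (j ∧ j')) (he : e)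
    (a1 : (j ∧ e ∧ ¬ z ∧ ¬ d) ↔ (a ∨ b)) (a2 : (j' ∧ e ∧ ¬ d ∧ ¬ z) ↔ (b ∨ a)) :
    j ↔ j' := by tauto

theorem aux6 {j j' e a b : Prop} (he : ¬ e)
    (a1 : (j ∧ ¬ e) ↔ (a ∨ b)) (a2 : (j' ∧ ¬ e) ↔ (b ∨ a)) : j ↔ j' := by tauto

/-- The reduction in the first tight case. -/
theorem branch1 (S : QSys g δ I J P Q) {y : ℕ} {h : ℤ} (hxy : g + 1 = 2 * (y + 1 + y))
    (hh2 : δ = 2 * h) (hy : 0 < y)
    (iE : (I.filter (fun w => Even w)).card = 2 * (y + 1))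
    (jE : (J.filter (fun w => Even w)).card = 2 * (y + 1))
    (iO : (I.filter (fun w => ¬ Even w)).card = 2 * y)
    (jO : (J.filter (fun w => ¬ Even w)).card = 2 * y)
    (o1 : ((pos P).filter (fun w => ¬ Even w)).card = y)
    (o2 : ((neg P).filter (fun w => ¬ Even w)).card = y)
    (o3 : ((pos Q).filter (fun w => ¬ Even w)).card = y)
    (o4 : ((neg Q).filter (fun w => ¬ Even w)).card = y)
    (t1 : (pos P).card = y + 1 + y) (t3 : (pos Q).card = y + 1 + y) :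
    I = J ∧ neg P = pos P ∧ neg Q = pos Q ∧ QSym (y + 1 + y) h J (pos P) (pos Q) ∧
      (∃ d, TightOdd h d J (pos P) (pos Q)) := by
  obtain ⟨d, d0, dodd, dP, q1, q2, q3, dmin, evI, evJ, ev'⟩ :=
    S.case1 hy iE jE iO jO o1 o2 o3 o4
  have ev : ∀ w : ℤ, Even (δ - w) ↔ Even w := by
    intro w; rw [Int.even_sub]; simp [hh2]
  have k1 : ∀ w, ¬ Even w → (w ∈ pos P ↔ w ∈ pos Q) := fun w hw => filter_ext_of q1 w hw
  have k2 : ∀ w, ¬ Even w → (w ∈ neg P ↔ w ∈ pos Q) := fun w hw => filter_ext_of q2 w hw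
  have k3 : ∀ w, ¬ Even w → (w ∈ neg Q ↔ w ∈ pos Q) := fun w hw => filter_ext_of q3 w hw
  have hIJe : ∀ w, Even w → (w ∈ I ↔ w ∈ J) := fun w hw =>
    aux3 (z := w = 0) (d := w = δ) (by rintro rfl; exact ⟨S.I0, S.J0⟩)
      (by rintro rfl; exact ⟨S.Iδ, S.Jδ⟩) hw (evI w) (evJ w)
  have hIJo : ∀ w, ¬ Even w → (w ∈ I ↔ w ∈ J) := by
    intro w hw
    rw [S.left2 w, S.bot2 w, k1 w hw, k2 w hw]
  have hIJ : I = J := eq_of_filters hIJe hIJo
  have hJs : ∀ w, w ∈ J ↔ δ - w ∈ J := by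
    intro w
    by_cases hw : Even w
    · have a2 := evJ (δ - w)
      rw [show δ - w - d = δ - d - w by ring, show δ - d - (δ - w) = w - d by ring, ev] at a2
      have z1 : (δ - w = 0) ↔ (w = δ) := ⟨fun h => by omega, fun h => by omega⟩
      have z2 : (δ - w = δ) ↔ (w = 0) := ⟨fun h => by omega, fun h => by omega⟩
      rw [Ne, Ne, z1, z2] at a2
      exact aux5 (z := w = 0) (d := w = δ)
        (by rintro rfl; exact ⟨S.J0, by simpa using S.Jδ⟩)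
        (by rintro rfl; exact ⟨S.Jδ, by simpa using S.J0⟩) hw (evJ w) a2
    · have hw' : ¬ Even (δ - w) := by rw [ev]; exact hw
      rw [S.left2 w, S.right2 (δ - w), sub_sub_cancel, k1 w hw, k2 w hw, k3 (δ - w) hw']
      exact or_comm
  have hP := S.symP hIJ
  have hQ := S.symQ hIJ hJs
  refine ⟨hIJ, hP, hQ, S.toSym hxy hh2 hIJ hJs hP hQ t1 t3, d, d0, dodd, dP, dmin, k1, ?_, ?_⟩
  · rw [← hh2]; exact evJ
  · rw [← hh2]; exact ev'

/-- The reduction in the second tight case. -/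
theorem branch2 (S : QSys g δ I J P Q) {y : ℕ} {h : ℤ} (hxy : g + 1 = 2 * (y + y))
    (hh2 : δ = 2 * h) (hy : 0 < y)
    (iO : (I.filter (fun w => ¬ Even w)).card = 2 * y)
    (jO : (J.filter (fun w => ¬ Even w)).card = 2 * y)
    (c1 : ((pos P).filter (fun w => Even w)).card = y)
    (c2 : ((neg P).filter (fun w => Even w)).card = y)
    (c3 : ((pos Q).filter (fun w => Even w)).card = y)
    (c4 : ((neg Q).filter (fun w => Even w)).card = y)
    (cP : (P.filter (fun w => Even w)).card + 1 = 2 * y)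
    (cQ : (Q.filter (fun w => Even w)).card + 1 = 2 * y)
    (t1 : (pos P).card = y + y) (t3 : (pos Q).card = y + y) :
    I = J ∧ neg P = pos P ∧ neg Q = pos Q ∧ QSym (y + y) h J (pos P) (pos Q) ∧
      (∃ d, TightEven h d J (pos P) (pos Q)) := by
  obtain ⟨d, d0, dodd, dJ, q1, q2, q3, dmin, odI, odJ, od'⟩ :=
    (S.case2 hy iO jO c1 c2 c3 c4 cP cQ).2 rfl
  have ev : ∀ w : ℤ, Even (δ - w) ↔ Even w := by
    intro w; rw [Int.even_sub]; simp [hh2]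
  have k1 : ∀ w, Even w → (w ∈ pos P ↔ w ∈ pos Q) := fun w hw => filter_ext_of q1 w hw
  have k2 : ∀ w, Even w → (w ∈ neg P ↔ w ∈ pos Q) := fun w hw => filter_ext_of q2 w hw
  have k3 : ∀ w, Even w → (w ∈ neg Q ↔ w ∈ pos Q) := fun w hw => filter_ext_of q3 w hw
  have hIJo : ∀ w, ¬ Even w → (w ∈ I ↔ w ∈ J) := fun w hw => aux4 hw (odI w) (odJ w)
  have hIJe : ∀ w, Even w → (w ∈ I ↔ w ∈ J) := by
    intro w hw
    rw [S.left2 w, S.bot2 w, k1 w hw, k2 w hw]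
  have hIJ : I = J := eq_of_filters hIJe hIJo
  have hJs : ∀ w, w ∈ J ↔ δ - w ∈ J := by
    intro w
    by_cases hw : Even w
    · have hw' : Even (δ - w) := by rw [ev]; exact hw
      rw [S.left2 w, S.right2 (δ - w), sub_sub_cancel, k1 w hw, k2 w hw, k3 (δ - w) hw']
      exact or_comm
    · have a2 := odJ (δ - w)
      rw [show δ - w - d = δ - d - w by ring, show δ - d - (δ - w) = w - d by ring, ev] at a2
      exact aux6 hw (odJ w) a2
  have hP := S.symP hIJ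
  have hQ := S.symQ hIJ hJs
  refine ⟨hIJ, hP, hQ, S.toSym hxy hh2 hIJ hJs hP hQ t1 t3, d, d0, dodd, dJ, dmin, k1, ?_, ?_⟩
  · rw [← hh2]; exact odJ
  · rw [← hh2]; exact od'

/-- The reduction of an exact system. -/
theorem reduce (S : QSys g δ I J P Q) : ∃ (k : ℕ) (h : ℤ), g + 1 = 2 * k ∧ δ = 2 * h ∧
    I = J ∧ neg P = pos P ∧ neg Q = pos Q ∧ QSym k h J (pos P) (pos Q) ∧
    ((h = 2 * (k : ℤ) - 1 ∧ ∀ w ∈ J, Even w) ∨
      (∃ d, TightOdd h d J (pos P) (pos Q)) ∨ (∃ d, TightEven h d J (pos P) (pos Q))) := by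
  classical
  obtain ⟨hδ, x, y, hxy, e1, e2, e3, e4, o1, o2, o3, o4, iE, jE, iO, jO, pE, qE, pO, qO⟩ :=
    S.parity
  obtain ⟨h, hh⟩ := hδ
  have hh2 : δ = 2 * h := by rw [hh]; ring
  have tot : ∀ T : Finset ℤ, (T.filter (fun w => Even w)).card
      + (T.filter (fun w => ¬ Even w)).card = T.card := fun T =>
    card_filter_add_card_filter_not (s := T) (fun w : ℤ => Even w)
  have tP := tot (pos P)
  have tQ := tot (pos Q)
  rw [e1, o1] at tP
  rw [e3, o3] at tQ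
  rcases Nat.eq_zero_or_pos y with hy | hy
  · subst hy
    have allE : ∀ {T : Finset ℤ}, (T.filter (fun w => ¬ Even w)).card = 2 * 0 →
        ∀ w ∈ T, Even w := by
      intro T hT w hw
      rw [mul_zero, card_eq_zero] at hT
      by_contra hc
      have : w ∈ T.filter (fun w => ¬ Even w) := mem_filter.2 ⟨hw, hc⟩
      rw [hT] at this
      exact absurd this (notMem_empty _)
    obtain ⟨r1, r2, r3, r4, r5⟩ := S.branch0 hxy hh2 (allE jO) (allE iO) tP.symm tQ.symm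
    exact ⟨x, h, hxy, hh2, r1, r2, r3, r4, Or.inl ⟨r5, allE jO⟩⟩
  · obtain ⟨m, hm, hmm⟩ := exists_max_mem (T := J.filter (fun w => ¬ Even w))
      (by rw [jO]; omega)
    rw [mem_filter] at hm
    have hle := (S.topRow iE o1 o3 hm.1 hm.2
      (fun w h1 h2 => hmm w (mem_filter.2 ⟨h1, h2⟩))).1
    have hge := (S.case2 hy iO jO e1 e2 e3 e4 pE qE).1
    rcases Nat.lt_or_eq_of_le hge with hlt | heq
    · have hx : x = y + 1 := by omega
      subst hx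
      obtain ⟨r1, r2, r3, r4, r5⟩ := S.branch1 hxy hh2 hy iE jE iO jO o1 o2 o3 o4 tP.symm tQ.symm
      exact ⟨y + 1 + y, h, hxy, hh2, r1, r2, r3, r4, Or.inr (Or.inl r5)⟩
    · subst heq
      obtain ⟨r1, r2, r3, r4, r5⟩ := S.branch2 hxy hh2 hy iO jO e1 e2 e3 e4 pE qE tP.symm tQ.symm
      exact ⟨y + y, h, hxy, hh2, r1, r2, r3, r4, Or.inr (Or.inr r5)⟩

end QSys

end Pool.Agent.Helper95.Queens
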