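import Pool.Agent.Helper95.QSys

/-!
Symmetry of exact systems.
-/

set_option autoImplicit false

namespace Pool.Agent.Helper95.Queens

open Finset

namespace QSys

variable {g : ℕ} {δ : ℤ} {I J P Q : Finset ℤ}

/-- The top odd empty row against the even empty columns. -/
theorem topRow (S : QSys g δ I J P Q) {x y : ℕ}
    (hI : (I.filter (fun w => Even w)).card = 2 * x)
    (hP : ((pos P).filter (fun w => ¬ Even w)).card = y)
    (hQ : ((pos Q).filter (fun w => ¬ Even w)).card = y)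
    {j₂ : ℤ} (hj : j₂ ∈ J) (hodd : ¬ Even j₂) (hmax : ∀ j ∈ J, ¬ Even j → j ≤ j₂) :
    x ≤ y + 1 ∧ (x = y + 1 → j₂ - δ ∈ P ∧ j₂ - δ ∈ Q ∧
      (∀ w, (w ∈ I ∧ Even w ∧ w ≠ 0 ∧ w ≠ δ) ↔
        ((j₂ - w ∈ pos P ∧ ¬ Even (j₂ - w)) ∨ (w + j₂ - δ ∈ pos Q ∧ ¬ Even (w + j₂ - δ)))) ∧
      (∀ w, ¬ ((j₂ - w ∈ pos P ∧ ¬ Even (j₂ - w)) ∧
        (w + j₂ - δ ∈ pos Q ∧ ¬ Even (w + j₂ - δ))))) := by
  classical
  obtain ⟨hδ, -⟩ := S.parity
  have hjr := S.Jrange j₂ hj
  have hjne : j₂ ≠ δ := by rintro rfl; exact hodd hδ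
  have hjlt : j₂ < δ := lt_of_le_of_ne hjr.2 hjne
  set A : Finset ℤ := (pos P).filter (fun w => ¬ Even w) ∪
    (if j₂ - δ ∈ P then {j₂ - δ} else ∅) with hA
  set B : Finset ℤ := (pos Q).filter (fun w => ¬ Even w) ∪
    (if j₂ - δ ∈ Q then {j₂ - δ} else ∅) with hB
  have oddsub : ∀ w : ℤ, Even w → ¬ Even (j₂ - w) := by
    intro w hw h
    apply hodd
    have := h.add hw
    simpa using this
  have oddadd : ∀ w : ℤ, Even w → ¬ Even (w + j₂ - δ) := by
    intro w hw h
    apply hodd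
    have := (h.add hδ).sub hw
    have e : w + j₂ - δ + δ - w = j₂ := by ring
    rwa [e] at this
  have inj1 : Function.Injective (fun s : ℤ => j₂ - s) := sub_right_injective
  have inj2 : Function.Injective (fun t : ℤ => δ + t - j₂) := by
    intro a b h
    simp only at h
    linarith
  have hcov : ∀ w ∈ I.filter (fun w => Even w),
      (∃ a ∈ A, (fun s : ℤ => j₂ - s) a = w) ∨ (∃ b ∈ B, (fun t : ℤ => δ + t - j₂) b = w) := by
    intro w hw
    rw [mem_filter] at hw
    have hwr := S.Irange w hw.1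
    rcases S.dom w hw.1 j₂ hj with h | h
    · left
      refine ⟨j₂ - w, ?_, by simp⟩
      rw [hA, mem_union]
      by_cases h0 : 0 ≤ j₂ - w
      · left
        rw [mem_filter, mem_pos]
        exact ⟨⟨h, h0⟩, oddsub w hw.2⟩
      · right
        push Not at h0
        have hr := (S.Prange _ h).1
        have hJ : δ + (j₂ - w) ∈ J := by
          rw [S.right _ (by omega) (by omega)]
          left
          have e : δ + (j₂ - w) - δ = j₂ - w := by ring
          rwa [e]
        have hle := hmax _ hJ (by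
          intro hE
          apply oddsub w hw.2
          have := hE.sub hδ
          have e : δ + (j₂ - w) - δ = j₂ - w := by ring
          rwa [e] at this)
        have hw' : w = δ := by omega
        subst hw'
        rw [if_pos h]
        simp
    · right
      refine ⟨w + j₂ - δ, ?_, by simp only; ring⟩
      rw [hB, mem_union]
      by_cases h0 : 0 ≤ w + j₂ - δ
      · left
        rw [mem_filter, mem_pos]
        exact ⟨⟨h, h0⟩, oddadd w hw.2⟩
      · right
        push Not at h0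
        have hr := (S.Qrange _ h).1
        have hJ : w + j₂ ∈ J := by
          rw [S.left _ (by omega) (by omega)]
          right
          exact h
        have hle := hmax _ hJ (by
          intro hE
          apply oddadd w hw.2
          exact hE.sub hδ)
        have hw' : w = 0 := by omega
        subst hw'
        rw [zero_add] at h ⊢
        rw [if_pos h]
        simp
  have hdisjA : Disjoint ((pos P).filter (fun w => ¬ Even w))
      (if j₂ - δ ∈ P then {j₂ - δ} else ∅) := by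
    split_ifs
    · rw [disjoint_singleton_right, mem_filter, mem_pos]
      rintro ⟨⟨_, h⟩, _⟩
      omega
    · exact disjoint_empty_right _
  have hdisjB : Disjoint ((pos Q).filter (fun w => ¬ Even w))
      (if j₂ - δ ∈ Q then {j₂ - δ} else ∅) := by
    split_ifs
    · rw [disjoint_singleton_right, mem_filter, mem_pos]
      rintro ⟨⟨_, h⟩, _⟩
      omega
    · exact disjoint_empty_right _
  have cA : A.card = y + (if j₂ - δ ∈ P then 1 else 0) := by
    rw [hA, card_union_of_disjoint hdisjA, hP]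
    split_ifs <;> simp
  have cB : B.card = y + (if j₂ - δ ∈ Q then 1 else 0) := by
    rw [hB, card_union_of_disjoint hdisjB, hQ]
    split_ifs <;> simp
  obtain ⟨hle, hex⟩ := cover_exact inj1 inj2 hcov
  have hA1 : A.card ≤ y + 1 := by rw [cA]; split_ifs <;> omega
  have hB1 : B.card ≤ y + 1 := by rw [cB]; split_ifs <;> omega
  refine ⟨by omega, fun hxy => ?_⟩
  have hPm : j₂ - δ ∈ P := by
    by_contra hc
    rw [if_neg hc] at cA
    omega
  have hQm : j₂ - δ ∈ Q := by
    by_contra hc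
    rw [if_neg hc] at cB
    omega
  obtain ⟨e1, e2, e3⟩ := hex (by omega)
  have hmA : j₂ - δ ∈ A := by
    rw [hA, mem_union, if_pos hPm]; simp
  have hmB : j₂ - δ ∈ B := by
    rw [hB, mem_union, if_pos hQm]; simp
  refine ⟨hPm, hQm, fun w => ⟨?_, ?_⟩, ?_⟩
  · rintro ⟨hw, hwe, hw0, hwδ⟩
    rcases hcov w (mem_filter.2 ⟨hw, hwe⟩) with ⟨a, ha, haw⟩ | ⟨b, hb, hbw⟩
    · left
      simp only at haw
      have hae : a = j₂ - w := by omega
      rw [hA, mem_union, if_pos hPm, mem_singleton] at ha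
      rcases ha with ha | ha
      · rw [mem_filter] at ha
        rw [← hae]
        exact ha
      · omega
    · right
      simp only at hbw
      have hbe : b = w + j₂ - δ := by omega
      rw [hB, mem_union, if_pos hQm, mem_singleton] at hb
      rcases hb with hb | hb
      · rw [mem_filter] at hb
        rw [← hbe]
        exact hb
      · omega
  · rintro (⟨h1, h2⟩ | ⟨h1, h2⟩)
    · have hmem : j₂ - w ∈ A := by
        rw [hA, mem_union, mem_filter]
        exact Or.inl ⟨h1, h2⟩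
      have hT := e1 _ hmem
      simp only [sub_sub_cancel] at hT
      rw [mem_filter] at hT
      have h0 := (mem_pos.1 h1).2
      refine ⟨hT.1, hT.2, ?_, by omega⟩
      rintro rfl
      apply e3 _ hmem _ hmB
      ring
    · have hmem : w + j₂ - δ ∈ B := by
        rw [hB, mem_union, mem_filter]
        exact Or.inl ⟨h1, h2⟩
      have hT := e2 _ hmem
      have e : δ + (w + j₂ - δ) - j₂ = w := by ring
      simp only [e] at hT
      rw [mem_filter] at hT
      have h0 := (mem_pos.1 h1).2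
      refine ⟨hT.1, hT.2, by omega, ?_⟩
      rintro rfl
      apply e3 _ hmA _ hmem
      ring
  · rintro w ⟨⟨h1, h2⟩, ⟨h3, h4⟩⟩
    have hmem : j₂ - w ∈ A := by
      rw [hA, mem_union, mem_filter]
      exact Or.inl ⟨h1, h2⟩
    have hmem' : w + j₂ - δ ∈ B := by
      rw [hB, mem_union, mem_filter]
      exact Or.inl ⟨h3, h4⟩
    apply e3 _ hmem _ hmem'
    ring

end QSys

/-- A finitely supported periodic function vanishes. -/
theorem eq_zero_of_periodic {f : ℤ → ℤ} {c M : ℤ} (hc : 0 < c) (hf : ∀ w, f w = f (w + c))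
    (hM : ∀ w, M < w → f w = 0) (w : ℤ) : f w = 0 := by
  have h : ∀ n : ℕ, f w = f (w + n * c) := by
    intro n
    induction n with
    | zero => simp
    | succ n ih =>
      rw [ih, hf (w + n * c)]
      congr 1
      push_cast
      ring
  obtain ⟨n, hn⟩ : ∃ n : ℕ, M < w + n * c := by
    refine ⟨(M - w).toNat + 1, ?_⟩
    have h1 : M - w ≤ ((M - w).toNat : ℤ) := Int.self_le_toNat _
    push_cast
    nlinarith
  rw [h n]
  exact hM _ hn

theorem exists_bound (A : Finset ℤ) : ∃ M : ℤ, ∀ w, M < w → w ∉ A := by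
  obtain ⟨M, hM⟩ := A.bddAbove
  exact ⟨M, fun w hw h => absurd (hM h) (not_le.2 hw)⟩

theorem ind_aux {p q r t : Prop} [Decidable p] [Decidable q] [Decidable r] [Decidable t]
    (a : (p ∨ t) ↔ (q ∨ r)) (b : ¬ (p ∧ t)) (c : ¬ (q ∧ r)) :
    (if p then (1 : ℤ) else 0) - (if q then 1 else 0)
      = (if r then 1 else 0) - (if t then 1 else 0) := by
  by_cases hp : p <;> by_cases hq : q <;> by_cases hr : r <;> by_cases ht : t <;>
    simp [hp, hq, hr, ht] at a b c ⊢

/-- Two ways of splitting, compared at two shifts, force equality of the pieces. -/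
theorem split_shift {A₁ A₂ B₁ B₂ : Finset ℤ} {δ d : ℤ} (hd : 0 < d)
    (h1 : ∀ w, (w ∈ A₁ ∨ δ - w ∈ B₂) ↔ (w ∈ B₁ ∨ δ - w ∈ A₂))
    (x1 : ∀ w, ¬ (w ∈ A₁ ∧ δ - w ∈ B₂)) (x1' : ∀ w, ¬ (w ∈ B₁ ∧ δ - w ∈ A₂))
    (h2 : ∀ w, (w - d ∈ A₁ ∨ δ - d - w ∈ B₂) ↔ (w - d ∈ B₁ ∨ δ - d - w ∈ A₂))
    (x2 : ∀ w, ¬ (w - d ∈ A₁ ∧ δ - d - w ∈ B₂))
    (x2' : ∀ w, ¬ (w - d ∈ B₁ ∧ δ - d - w ∈ A₂)) :
    A₁ = B₁ ∧ A₂ = B₂ := by
  classical
  set ι : Finset ℤ → ℤ → ℤ := fun T w => if w ∈ T then 1 else 0 with hι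
  have k1 : ∀ w, ι A₁ w - ι B₁ w = ι A₂ (δ - w) - ι B₂ (δ - w) := by
    intro w
    exact ind_aux (h1 w) (x1 w) (x1' w)
  have k2 : ∀ w, ι A₁ w - ι B₁ w = ι A₂ (δ - 2 * d - w) - ι B₂ (δ - 2 * d - w) := by
    intro w
    have a := h2 (w + d)
    have b := x2 (w + d)
    have c := x2' (w + d)
    rw [add_sub_cancel_right, show δ - d - (w + d) = δ - 2 * d - w by ring] at a b c
    exact ind_aux a b c
  set f : ℤ → ℤ := fun w => ι A₁ w - ι B₁ w with hf
  have hper : ∀ w, f w = f (w + 2 * d) := by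
    intro w
    simp only [hf]
    rw [k2 w, k1 (w + 2 * d)]
    rw [show δ - (w + 2 * d) = δ - 2 * d - w by ring]
  obtain ⟨M1, hM1⟩ := exists_bound A₁
  obtain ⟨M2, hM2⟩ := exists_bound B₁
  have hz : ∀ w, f w = 0 := eq_zero_of_periodic (M := max M1 M2) (by omega) hper (by
    intro w hw
    simp only [hf, hι]
    rw [if_neg (hM1 w (lt_of_le_of_lt (le_max_left _ _) hw)),
      if_neg (hM2 w (lt_of_le_of_lt (le_max_right _ _) hw))]
    rfl)
  constructor
  · ext w
    have h3 := hz w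
    simp only [hf, hι] at h3
    by_cases p : w ∈ A₁ <;> by_cases q : w ∈ B₁ <;> simp [p, q] at h3 ⊢
  · ext w
    have h3 := hz (δ - w)
    have h4 := k1 (δ - w)
    rw [sub_sub_cancel] at h4
    simp only [hf] at h3
    rw [h3] at h4
    simp only [hι] at h4
    by_cases p : w ∈ A₂ <;> by_cases q : w ∈ B₂ <;> simp [p, q] at h4 ⊢

theorem exists_max_mem {T : Finset ℤ} (h : 0 < T.card) : ∃ m ∈ T, ∀ w ∈ T, w ≤ m := by
  obtain ⟨m, hm, hmax⟩ := exists_max_image T id (card_pos.1 h)
  exact ⟨m, hm, hmax⟩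

theorem exists_min_mem {T : Finset ℤ} (h : 0 < T.card) : ∃ m ∈ T, ∀ w ∈ T, m ≤ w := by
  obtain ⟨m, hm, hmin⟩ := exists_min_image T id (card_pos.1 h)
  exact ⟨m, hm, hmin⟩

end Pool.Agent.Helper95.Queens
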