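import Mathlib

/-!
Set-level exact systems attached to a set of `(n-1)/2` queens dominating the `n × n` board.
-/

set_option autoImplicit false

namespace Pool.Agent.Helper95.Queens

open Finset

/-- Set-level exact system extracted from a dominating set of size `g` on the board of side
`2g+1`. `I`, `J` are the empty columns and rows, `P`, `Q` the occupied difference and sum
diagonals (`y - x` and `x + y - δ`), in coordinates where the box spanned by the empty lines
is `[0,δ]²`. -/
structure QSys (g : ℕ) (δ : ℤ) (I J P Q : Finset ℤ) : Prop where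
  δpos : 0 < δ
  δle : δ ≤ 2 * (g : ℤ)
  I0 : (0 : ℤ) ∈ I
  J0 : (0 : ℤ) ∈ J
  Iδ : δ ∈ I
  Jδ : δ ∈ J
  Irange : ∀ i ∈ I, 0 ≤ i ∧ i ≤ δ
  Jrange : ∀ j ∈ J, 0 ≤ j ∧ j ≤ δ
  Prange : ∀ s ∈ P, -δ < s ∧ s < δ
  Qrange : ∀ t ∈ Q, -δ < t ∧ t < δ
  Icard : I.card = g + 1
  Jcard : J.card = g + 1
  Pcard : P.card = g
  Qcard : Q.card = g
  left : ∀ j, 0 ≤ j → j ≤ δ → (j ∈ J ↔ (j ∈ P ∨ j - δ ∈ Q))
  left' : ∀ j, 0 ≤ j → j ≤ δ → ¬ (j ∈ P ∧ j - δ ∈ Q)
  right : ∀ j, 0 ≤ j → j ≤ δ → (j ∈ J ↔ (j - δ ∈ P ∨ j ∈ Q))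
  right' : ∀ j, 0 ≤ j → j ≤ δ → ¬ (j - δ ∈ P ∧ j ∈ Q)
  bot : ∀ i, 0 ≤ i → i ≤ δ → (i ∈ I ↔ (-i ∈ P ∨ i - δ ∈ Q))
  bot' : ∀ i, 0 ≤ i → i ≤ δ → ¬ (-i ∈ P ∧ i - δ ∈ Q)
  top : ∀ i, 0 ≤ i → i ≤ δ → (i ∈ I ↔ (δ - i ∈ P ∨ i ∈ Q))
  top' : ∀ i, 0 ≤ i → i ≤ δ → ¬ (δ - i ∈ P ∧ i ∈ Q)
  dom : ∀ i ∈ I, ∀ j ∈ J, j - i ∈ P ∨ i + j - δ ∈ Q
  col : (P.filter (fun s => Even s)).card = (Q.filter (fun t => Even (t + δ))).card

/-- The nonnegative part of a set of integers. -/
def pos (S : Finset ℤ) : Finset ℤ := S.filter (fun w => 0 ≤ w)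

/-- The nonnegative part of the negative of a set of integers. -/
def neg (S : Finset ℤ) : Finset ℤ := (S.filter (fun w => w ≤ 0)).image (fun w => -w)

theorem mem_pos {S : Finset ℤ} {w : ℤ} : w ∈ pos S ↔ w ∈ S ∧ 0 ≤ w := by
  simp [pos]

theorem mem_neg {S : Finset ℤ} {w : ℤ} : w ∈ neg S ↔ -w ∈ S ∧ 0 ≤ w := by
  simp only [neg, mem_image, mem_filter]
  constructor
  · rintro ⟨a, ⟨h1, h2⟩, rfl⟩
    exact ⟨by simpa using h1, by omega⟩
  · rintro ⟨h1, h2⟩
    exact ⟨-w, ⟨h1, by omega⟩, by ring⟩

/-- Counting a disjoint union `J = A ⊔ (δ - B)` restricted to a predicate. -/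
theorem card_split {δ : ℤ} {J A B : Finset ℤ}
    (h1 : ∀ j, j ∈ J ↔ (j ∈ A ∨ δ - j ∈ B))
    (h2 : ∀ j, ¬ (j ∈ A ∧ δ - j ∈ B)) (p : ℤ → Prop) [DecidablePred p] :
    (J.filter p).card = (A.filter p).card + (B.filter (fun w => p (δ - w))).card := by
  have hJ : J.filter p = A.filter p ∪ (B.filter (fun w => p (δ - w))).image (fun w => δ - w) := by
    ext j
    simp only [mem_filter, mem_union, mem_image]
    constructor
    · rintro ⟨hj, hp⟩
      rcases (h1 j).1 hj with h | h
      · exact Or.inl ⟨h, hp⟩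
      · refine Or.inr ⟨δ - j, ⟨h, ?_⟩, by ring⟩
        have : δ - (δ - j) = j := by ring
        rw [this]; exact hp
    · rintro (⟨h, hp⟩ | ⟨w, ⟨hw, hp⟩, rfl⟩)
      · exact ⟨(h1 j).2 (Or.inl h), hp⟩
      · refine ⟨(h1 _).2 (Or.inr ?_), hp⟩
        have : δ - (δ - w) = w := by ring
        rw [this]; exact hw
  rw [hJ, card_union_of_disjoint, card_image_of_injective]
  · intro a b hab
    simp only at hab
    linarith
  · rw [disjoint_left]
    intro j hj hj'
    simp only [mem_filter, mem_image] at hj hj'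
    obtain ⟨w, ⟨hw, _⟩, rfl⟩ := hj'
    apply h2 (δ - w)
    refine ⟨hj.1, ?_⟩
    have : δ - (δ - w) = w := by ring
    rw [this]; exact hw

/-- Counting a set of integers containing `0` through its two nonnegative halves. -/
theorem card_halves {P : Finset ℤ} (h0 : (0 : ℤ) ∈ P) (p : ℤ → Prop) [DecidablePred p]
    (hp : ∀ w, p (-w) ↔ p w) :
    ((pos P).filter p).card + ((neg P).filter p).card
      = (P.filter p).card + (if p 0 then 1 else 0) := by
  have e1 : ((neg P).filter p).card = ((P.filter (fun w => w ≤ 0)).filter p).card := by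
    rw [neg, filter_image, card_image_of_injective]
    · congr 1
      ext w
      simp only [mem_filter]
      rw [hp]
    · intro a b hab
      simp only at hab
      linarith
  rw [e1]
  have hu : (pos P).filter p ∪ (P.filter (fun w => w ≤ 0)).filter p = P.filter p := by
    ext w
    simp only [mem_union, mem_filter, mem_pos]
    constructor
    · rintro (⟨⟨h, _⟩, hp⟩ | ⟨⟨h, _⟩, hp⟩) <;> exact ⟨h, hp⟩
    · rintro ⟨h, hp⟩
      rcases le_total 0 w with h' | h'
      · exact Or.inl ⟨⟨h, h'⟩, hp⟩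
      · exact Or.inr ⟨⟨h, h'⟩, hp⟩
  have hi : (pos P).filter p ∩ (P.filter (fun w => w ≤ 0)).filter p
      = if p 0 then {0} else ∅ := by
    split_ifs with hp0
    · ext w
      simp only [mem_inter, mem_filter, mem_pos, mem_singleton]
      constructor
      · rintro ⟨⟨⟨_, h1⟩, _⟩, ⟨⟨_, h2⟩, _⟩⟩
        omega
      · rintro rfl
        exact ⟨⟨⟨h0, le_refl _⟩, hp0⟩, ⟨⟨h0, le_refl _⟩, hp0⟩⟩
    · ext w
      simp only [mem_inter, mem_filter, mem_pos, notMem_empty, iff_false]
      rintro ⟨⟨⟨_, h1⟩, hpw⟩, ⟨⟨_, h2⟩, _⟩⟩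
      have : w = 0 := by omega
      subst this
      exact hp0 hpw
  have := card_union_add_card_inter ((pos P).filter p) ((P.filter (fun w => w ≤ 0)).filter p)
  rw [hu, hi] at this
  rw [← this]
  split_ifs <;> simp

namespace QSys

variable {g : ℕ} {δ : ℤ} {I J P Q : Finset ℤ}

theorem P0 (S : QSys g δ I J P Q) : (0 : ℤ) ∈ P := by
  rcases (S.left 0 le_rfl S.δpos.le).1 S.J0 with h | h
  · exact h
  · have := (S.Qrange _ h).1
    omega

theorem Q0 (S : QSys g δ I J P Q) : (0 : ℤ) ∈ Q := by
  rcases (S.right 0 le_rfl S.δpos.le).1 S.J0 with h | h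
  · have := (S.Prange _ h).1
    omega
  · exact h

theorem left2 (S : QSys g δ I J P Q) (j : ℤ) : j ∈ J ↔ (j ∈ pos P ∨ δ - j ∈ neg Q) := by
  rw [mem_pos, mem_neg]
  by_cases h : 0 ≤ j ∧ j ≤ δ
  · rw [S.left j h.1 h.2]
    have e : -(δ - j) = j - δ := by ring
    rw [e]
    constructor
    · rintro (h1 | h1)
      · exact Or.inl ⟨h1, h.1⟩
      · exact Or.inr ⟨h1, by omega⟩
    · rintro (h1 | h1)
      · exact Or.inl h1.1
      · exact Or.inr h1.1
  · constructor
    · intro hj
      exact absurd (S.Jrange j hj) h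
    · rintro (h1 | h1)
      · have := (S.Prange _ h1.1).2
        omega
      · have := (S.Qrange _ h1.1).1
        omega

theorem left2' (S : QSys g δ I J P Q) (j : ℤ) : ¬ (j ∈ pos P ∧ δ - j ∈ neg Q) := by
  rw [mem_pos, mem_neg]
  rintro ⟨h1, h2⟩
  have e : -(δ - j) = j - δ := by ring
  rw [e] at h2
  exact S.left' j h1.2 (by omega) ⟨h1.1, h2.1⟩

theorem right2 (S : QSys g δ I J P Q) (j : ℤ) : j ∈ J ↔ (j ∈ pos Q ∨ δ - j ∈ neg P) := by
  rw [mem_pos, mem_neg]
  by_cases h : 0 ≤ j ∧ j ≤ δ
  · rw [S.right j h.1 h.2]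
    have e : -(δ - j) = j - δ := by ring
    rw [e]
    constructor
    · rintro (h1 | h1)
      · exact Or.inr ⟨h1, by omega⟩
      · exact Or.inl ⟨h1, h.1⟩
    · rintro (h1 | h1)
      · exact Or.inr h1.1
      · exact Or.inl h1.1
  · constructor
    · intro hj
      exact absurd (S.Jrange j hj) h
    · rintro (h1 | h1)
      · have := (S.Qrange _ h1.1).2
        omega
      · have := (S.Prange _ h1.1).1
        omega

theorem right2' (S : QSys g δ I J P Q) (j : ℤ) : ¬ (j ∈ pos Q ∧ δ - j ∈ neg P) := by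
  rw [mem_pos, mem_neg]
  rintro ⟨h1, h2⟩
  have e : -(δ - j) = j - δ := by ring
  rw [e] at h2
  exact S.right' j h1.2 (by omega) ⟨h2.1, h1.1⟩

theorem bot2 (S : QSys g δ I J P Q) (i : ℤ) : i ∈ I ↔ (i ∈ neg P ∨ δ - i ∈ neg Q) := by
  rw [mem_neg, mem_neg]
  by_cases h : 0 ≤ i ∧ i ≤ δ
  · rw [S.bot i h.1 h.2]
    have e : -(δ - i) = i - δ := by ring
    rw [e]
    constructor
    · rintro (h1 | h1)
      · exact Or.inl ⟨h1, h.1⟩
      · exact Or.inr ⟨h1, by omega⟩
    · rintro (h1 | h1)
      · exact Or.inl h1.1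
      · exact Or.inr h1.1
  · constructor
    · intro hj
      exact absurd (S.Irange i hj) h
    · rintro (h1 | h1)
      · have := (S.Prange _ h1.1).1
        omega
      · have := (S.Qrange _ h1.1).1
        omega

theorem bot2' (S : QSys g δ I J P Q) (i : ℤ) : ¬ (i ∈ neg P ∧ δ - i ∈ neg Q) := by
  rw [mem_neg, mem_neg]
  rintro ⟨h1, h2⟩
  have e : -(δ - i) = i - δ := by ring
  rw [e] at h2
  exact S.bot' i h1.2 (by omega) ⟨h1.1, h2.1⟩

theorem top2 (S : QSys g δ I J P Q) (i : ℤ) : i ∈ I ↔ (i ∈ pos Q ∨ δ - i ∈ pos P) := by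
  rw [mem_pos, mem_pos]
  by_cases h : 0 ≤ i ∧ i ≤ δ
  · rw [S.top i h.1 h.2]
    constructor
    · rintro (h1 | h1)
      · exact Or.inr ⟨h1, by omega⟩
      · exact Or.inl ⟨h1, h.1⟩
    · rintro (h1 | h1)
      · exact Or.inr h1.1
      · exact Or.inl h1.1
  · constructor
    · intro hj
      exact absurd (S.Irange i hj) h
    · rintro (h1 | h1)
      · have := (S.Qrange _ h1.1).2
        omega
      · have := (S.Prange _ h1.1).2
        omega

theorem top2' (S : QSys g δ I J P Q) (i : ℤ) : ¬ (i ∈ pos Q ∧ δ - i ∈ pos P) := by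
  rw [mem_pos, mem_pos]
  rintro ⟨h1, h2⟩
  exact S.top' i h1.2 (by omega) ⟨h2.1, h1.1⟩

/-- All parity counts. -/
theorem parity (S : QSys g δ I J P Q) : Even δ ∧ ∃ x y : ℕ, g + 1 = 2 * (x + y) ∧
    ((pos P).filter (fun w => Even w)).card = x ∧ ((neg P).filter (fun w => Even w)).card = x ∧
    ((pos Q).filter (fun w => Even w)).card = x ∧ ((neg Q).filter (fun w => Even w)).card = x ∧
    ((pos P).filter (fun w => ¬ Even w)).card = y ∧
    ((neg P).filter (fun w => ¬ Even w)).card = y ∧
    ((pos Q).filter (fun w => ¬ Even w)).card = y ∧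
    ((neg Q).filter (fun w => ¬ Even w)).card = y ∧
    (I.filter (fun w => Even w)).card = 2 * x ∧ (J.filter (fun w => Even w)).card = 2 * x ∧
    (I.filter (fun w => ¬ Even w)).card = 2 * y ∧ (J.filter (fun w => ¬ Even w)).card = 2 * y ∧
    (P.filter (fun w => Even w)).card + 1 = 2 * x ∧
    (Q.filter (fun w => Even w)).card + 1 = 2 * x ∧
    (P.filter (fun w => ¬ Even w)).card = 2 * y ∧
    (Q.filter (fun w => ¬ Even w)).card = 2 * y := by
  classical
  have hPE := card_halves S.P0 (fun w => Even w) (fun w => by simp)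
  have hPO := card_halves S.P0 (fun w => ¬ Even w) (fun w => by simp)
  have hQE := card_halves S.Q0 (fun w => Even w) (fun w => by simp)
  have hQO := card_halves S.Q0 (fun w => ¬ Even w) (fun w => by simp)
  have tot : ∀ T : Finset ℤ, (T.filter (fun w => Even w)).card
      + (T.filter (fun w => ¬ Even w)).card = T.card := fun T =>
    card_filter_add_card_filter_not (s := T) (fun w : ℤ => Even w)
  have tP := tot P
  have tQ := tot Q
  have tI := tot I
  have tJ := tot J
  have cP := S.Pcard
  have cQ := S.Qcard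
  have cI := S.Icard
  have cJ := S.Jcard
  simp only [Even.zero, if_true, not_true_eq_false, if_false, add_zero] at hPE hPO hQE hQO
  rcases Int.even_or_odd δ with hδ | hδ
  · refine ⟨hδ, ?_⟩
    have ev : ∀ w : ℤ, Even (δ - w) ↔ Even w := by
      intro w; rw [Int.even_sub]; simp [hδ]
    have ev2 : ∀ w : ℤ, Even (w + δ) ↔ Even w := by
      intro w; rw [Int.even_add]; simp [hδ]
    have JE := card_split S.left2 S.left2' (fun w => Even w)
    have JE2 := card_split S.right2 S.right2' (fun w => Even w)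
    have IE := card_split S.bot2 S.bot2' (fun w => Even w)
    have IE2 := card_split S.top2 S.top2' (fun w => Even w)
    have JO := card_split S.left2 S.left2' (fun w => ¬ Even w)
    have JO2 := card_split S.right2 S.right2' (fun w => ¬ Even w)
    have IO := card_split S.bot2 S.bot2' (fun w => ¬ Even w)
    have IO2 := card_split S.top2 S.top2' (fun w => ¬ Even w)
    simp only [ev] at JE JE2 IE IE2 JO JO2 IO IO2
    have hc := S.col
    simp only [ev2] at hc
    refine ⟨((pos P).filter (fun w => Even w)).card,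
      ((pos P).filter (fun w => ¬ Even w)).card, ?_⟩
    omega
  · exfalso
    have hδ' : ¬ Even δ := Int.not_even_iff_odd.2 hδ
    have ev : ∀ w : ℤ, Even (δ - w) ↔ ¬ Even w := by
      intro w; rw [Int.even_sub]; simp [hδ']
    have ev2 : ∀ w : ℤ, Even (w + δ) ↔ ¬ Even w := by
      intro w; rw [Int.even_add]; simp [hδ']
    have JE := card_split S.left2 S.left2' (fun w => Even w)
    have JE2 := card_split S.right2 S.right2' (fun w => Even w)
    have IE := card_split S.bot2 S.bot2' (fun w => Even w)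
    have IE2 := card_split S.top2 S.top2' (fun w => Even w)
    have JO := card_split S.left2 S.left2' (fun w => ¬ Even w)
    have JO2 := card_split S.right2 S.right2' (fun w => ¬ Even w)
    have IO := card_split S.bot2 S.bot2' (fun w => ¬ Even w)
    have IO2 := card_split S.top2 S.top2' (fun w => ¬ Even w)
    simp only [ev, not_not] at JE JE2 IE IE2 JO JO2 IO IO2
    have hc := S.col
    simp only [ev2] at hc
    omega

/-- Transposition of the board. -/
theorem transpose (S : QSys g δ I J P Q) : QSys g δ J I (P.image (fun w => -w)) Q where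
  δpos := S.δpos
  δle := S.δle
  I0 := S.J0
  J0 := S.I0
  Iδ := S.Jδ
  Jδ := S.Iδ
  Irange := S.Jrange
  Jrange := S.Irange
  Prange := by
    intro s hs
    obtain ⟨a, ha, rfl⟩ := mem_image.1 hs
    have := S.Prange a ha
    constructor <;> omega
  Qrange := S.Qrange
  Icard := S.Jcard
  Jcard := S.Icard
  Pcard := by
    rw [card_image_of_injective _ neg_injective]
    exact S.Pcard
  Qcard := S.Qcard
  left := by
    intro j h1 h2
    rw [S.bot j h1 h2]
    simp [neg_eq_iff_eq_neg]
  left' := by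
    intro j h1 h2
    have := S.bot' j h1 h2
    simpa [neg_eq_iff_eq_neg] using this
  right := by
    intro j h1 h2
    rw [S.top j h1 h2]
    simp [neg_eq_iff_eq_neg]
  right' := by
    intro j h1 h2
    have := S.top' j h1 h2
    simpa [neg_eq_iff_eq_neg] using this
  bot := by
    intro j h1 h2
    rw [S.left j h1 h2]
    simp [neg_eq_iff_eq_neg]
  bot' := by
    intro j h1 h2
    have := S.left' j h1 h2
    simpa [neg_eq_iff_eq_neg] using this
  top := by
    intro j h1 h2
    rw [S.right j h1 h2]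
    simp [neg_eq_iff_eq_neg]
  top' := by
    intro j h1 h2
    have := S.right' j h1 h2
    simpa [neg_eq_iff_eq_neg] using this
  dom := by
    intro i hi j hj
    rcases S.dom j hj i hi with h | h
    · left
      rw [mem_image]
      exact ⟨i - j, h, by ring⟩
    · right
      rwa [add_comm i j]
  col := by
    have h := S.col
    rw [filter_image, card_image_of_injective _ neg_injective]
    simpa using h

/-- Reflection of the board exchanging bottom and top. -/
theorem reflect (S : QSys g δ I J P Q) :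
    QSys g δ I (J.image (fun w => δ - w)) (Q.image (fun w => -w)) (P.image (fun w => -w)) where
  δpos := S.δpos
  δle := S.δle
  I0 := S.I0
  J0 := by
    rw [mem_image]; exact ⟨δ, S.Jδ, by ring⟩
  Iδ := S.Iδ
  Jδ := by
    rw [mem_image]; exact ⟨0, S.J0, by ring⟩
  Irange := S.Irange
  Jrange := by
    intro j hj
    obtain ⟨a, ha, rfl⟩ := mem_image.1 hj
    have := S.Jrange a ha
    constructor <;> omega
  Prange := by
    intro s hs
    obtain ⟨a, ha, rfl⟩ := mem_image.1 hs
    have := S.Qrange a ha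
    constructor <;> omega
  Qrange := by
    intro s hs
    obtain ⟨a, ha, rfl⟩ := mem_image.1 hs
    have := S.Prange a ha
    constructor <;> omega
  Icard := S.Icard
  Jcard := by
    rw [card_image_of_injective _ sub_right_injective]
    exact S.Jcard
  Pcard := by
    rw [card_image_of_injective _ neg_injective]
    exact S.Qcard
  Qcard := by
    rw [card_image_of_injective _ neg_injective]
    exact S.Pcard
  left := by
    intro j h1 h2
    have h := S.left (δ - j) (by omega) (by omega)
    have e : δ - j - δ = -j := by ring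
    rw [e] at h
    simp only [mem_image, neg_eq_iff_eq_neg, exists_eq_right, neg_sub]
    constructor
    · rintro ⟨a, ha, rfl⟩
      rw [show δ - (δ - a) = a by ring] at h
      rcases h.1 ha with h | h
      · right; convert h using 1; ring
      · left; exact h
    · rintro (h' | h')
      · exact ⟨δ - j, h.2 (Or.inr h'), by ring⟩
      · exact ⟨δ - j, h.2 (Or.inl h'), by ring⟩
  left' := by
    intro j h1 h2
    have h := S.left' (δ - j) (by omega) (by omega)
    have e : δ - j - δ = -j := by ring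
    rw [e] at h
    simp only [mem_image, neg_eq_iff_eq_neg, exists_eq_right, neg_sub]
    tauto
  right := by
    intro j h1 h2
    have h := S.right (δ - j) (by omega) (by omega)
    have e : δ - j - δ = -j := by ring
    rw [e] at h
    simp only [mem_image, neg_eq_iff_eq_neg, exists_eq_right, neg_sub]
    constructor
    · rintro ⟨a, ha, rfl⟩
      rw [show δ - (δ - a) = a by ring] at h
      rcases h.1 ha with h | h
      · right; exact h
      · left; convert h using 1; ring
    · rintro (h' | h')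
      · exact ⟨δ - j, h.2 (Or.inr h'), by ring⟩
      · exact ⟨δ - j, h.2 (Or.inl h'), by ring⟩
  right' := by
    intro j h1 h2
    have h := S.right' (δ - j) (by omega) (by omega)
    have e : δ - j - δ = -j := by ring
    rw [e] at h
    simp only [mem_image, neg_eq_iff_eq_neg, exists_eq_right, neg_sub]
    tauto
  bot := by
    intro i h1 h2
    have h := S.top i h1 h2
    simp only [mem_image, neg_eq_iff_eq_neg, exists_eq_right, neg_sub, neg_neg]
    tauto
  bot' := by
    intro i h1 h2
    have h := S.top' i h1 h2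
    simp only [mem_image, neg_eq_iff_eq_neg, exists_eq_right, neg_sub, neg_neg]
    tauto
  top := by
    intro i h1 h2
    have h := S.bot i h1 h2
    simp only [mem_image, neg_eq_iff_eq_neg, exists_eq_right, neg_sub, neg_neg]
    tauto
  top' := by
    intro i h1 h2
    have h := S.bot' i h1 h2
    simp only [mem_image, neg_eq_iff_eq_neg, exists_eq_right, neg_sub, neg_neg]
    tauto
  dom := by
    intro i hi j hj
    obtain ⟨a, ha, rfl⟩ := mem_image.1 hj
    rcases S.dom i hi a ha with h | h
    · right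
      rw [mem_image]
      exact ⟨a - i, h, by ring⟩
    · left
      rw [mem_image]
      exact ⟨i + a - δ, h, by ring⟩
  col := by
    have h := S.col
    rw [filter_image, filter_image, card_image_of_injective _ neg_injective,
      card_image_of_injective _ neg_injective]
    have ev : ∀ w : ℤ, Even (-w + δ) ↔ Even (w + δ) := by
      intro w
      rw [Int.even_add, Int.even_add, even_neg]
    simp only [ev, even_neg]
    obtain ⟨hδ, -⟩ := S.parity
    have ev2 : ∀ w : ℤ, Even (w + δ) ↔ Even w := by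
      intro w; rw [Int.even_add]; simp [hδ]
    simp only [ev2] at h ⊢
    exact h.symm

end QSys

theorem pos_neg_image (P : Finset ℤ) : pos (P.image (fun w => -w)) = neg P := by
  ext w
  rw [mem_pos, mem_neg, mem_image]
  constructor
  · rintro ⟨⟨a, ha, rfl⟩, h⟩
    exact ⟨by simpa using ha, h⟩
  · rintro ⟨h1, h2⟩
    exact ⟨⟨-w, h1, by ring⟩, h2⟩

theorem neg_neg_image (P : Finset ℤ) : neg (P.image (fun w => -w)) = pos P := by
  ext w
  rw [mem_pos, mem_neg, mem_image]
  constructor
  · rintro ⟨⟨a, ha, hw⟩, h⟩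
    have : a = w := by linarith
    rw [← this]
    rw [← this] at h
    exact ⟨ha, h⟩
  · rintro ⟨h1, h2⟩
    exact ⟨⟨w, h1, rfl⟩, h2⟩

/-- Exactness forced by a covering with the right number of members. -/
theorem cover_exact {T A B : Finset ℤ} {f₁ f₂ : ℤ → ℤ} (h1 : Function.Injective f₁)
    (h2 : Function.Injective f₂)
    (hcov : ∀ x ∈ T, (∃ a ∈ A, f₁ a = x) ∨ (∃ b ∈ B, f₂ b = x)) :
    T.card ≤ A.card + B.card ∧ (A.card + B.card ≤ T.card →
      (∀ a ∈ A, f₁ a ∈ T) ∧ (∀ b ∈ B, f₂ b ∈ T) ∧ (∀ a ∈ A, ∀ b ∈ B, f₁ a ≠ f₂ b)) := by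
  classical
  have hsub : T ⊆ A.image f₁ ∪ B.image f₂ := by
    intro x hx
    rcases hcov x hx with ⟨a, ha, rfl⟩ | ⟨b, hb, rfl⟩
    · exact mem_union_left _ (mem_image_of_mem _ ha)
    · exact mem_union_right _ (mem_image_of_mem _ hb)
  have hA : (A.image f₁).card = A.card := card_image_of_injective _ h1
  have hB : (B.image f₂).card = B.card := card_image_of_injective _ h2
  have hle := card_le_card hsub
  have hui := card_union_add_card_inter (A.image f₁) (B.image f₂)
  refine ⟨by omega, fun h => ?_⟩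
  have heq : T = A.image f₁ ∪ B.image f₂ := eq_of_subset_of_card_le hsub (by omega)
  have hint : (A.image f₁ ∩ B.image f₂).card = 0 := by
    rw [← heq] at hui
    omega
  rw [card_eq_zero] at hint
  refine ⟨fun a ha => ?_, fun b hb => ?_, fun a ha b hb hab => ?_⟩
  · rw [heq]; exact mem_union_left _ (mem_image_of_mem _ ha)
  · rw [heq]; exact mem_union_right _ (mem_image_of_mem _ hb)
  · have : f₁ a ∈ A.image f₁ ∩ B.image f₂ := by
      rw [mem_inter]
      exact ⟨mem_image_of_mem _ ha, by rw [hab]; exact mem_image_of_mem _ hb⟩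
    rw [hint] at this
    exact absurd this (notMem_empty _)

end Pool.Agent.Helper95.Queens
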