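import Pool.Agent.Helper95.QSym

/-!
In a symmetric exact system the two families of diagonals occupy the same set.
-/

set_option autoImplicit false

namespace Pool.Agent.Helper95.Queens

open Finset

theorem chain_form {U : Finset ℤ} {e : ℤ} (he : 0 < e) (hU : ∀ x ∈ U, x = e ∨ x - e ∈ U) :
    ∀ x ∈ U, ∃ l : ℕ, x = ((l : ℤ) + 1) * e ∧ ∀ m : ℕ, m ≤ l → ((m : ℤ) + 1) * e ∈ U := by
  obtain ⟨B, hB⟩ := U.bddBelow
  have key : ∀ n : ℕ, ∀ x ∈ U, (x - B).toNat ≤ n →
      ∃ l : ℕ, x = ((l : ℤ) + 1) * e ∧ ∀ m : ℕ, m ≤ l → ((m : ℤ) + 1) * e ∈ U := by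
    intro n
    induction n with
    | zero =>
      intro x hx hn
      have h1 : B ≤ x := hB hx
      rcases hU x hx with h | h
      · refine ⟨0, by rw [h]; push_cast; ring, ?_⟩
        intro m hm
        have : m = 0 := by omega
        subst this
        rw [h] at hx
        push_cast
        rw [one_mul]
        exact hx
      · have h2 : B ≤ x - e := hB h
        omega
    | succ n ih =>
      intro x hx hn
      rcases hU x hx with h | h
      · refine ⟨0, by rw [h]; push_cast; ring, ?_⟩
        intro m hm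
        have : m = 0 := by omega
        subst this
        rw [h] at hx
        push_cast
        rw [one_mul]
        exact hx
      · have h2 : B ≤ x - e := hB h
        obtain ⟨l, hl, hl'⟩ := ih (x - e) h (by omega)
        refine ⟨l + 1, by push_cast; linarith, ?_⟩
        intro m hm
        rcases Nat.lt_or_eq_of_le hm with h3 | h3
        · exact hl' m (by omega)
        · rw [h3]
          have : (((l + 1 : ℕ) : ℤ) + 1) * e = x := by push_cast; linarith
          rw [this]
          exact hx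
  intro x hx
  exact key _ x hx le_rfl

theorem chain_eq {U W : Finset ℤ} {e : ℤ} (he : 0 < e) (hU : ∀ x ∈ U, x = e ∨ x - e ∈ U)
    (hW : ∀ x ∈ W, x = e ∨ x - e ∈ W) (hc : U.card = W.card) : U = W := by
  by_contra hne
  have h1 : ¬ U ⊆ W := fun h => hne (eq_of_subset_of_card_le h hc.ge)
  have h2 : ¬ W ⊆ U := fun h => hne (eq_of_subset_of_card_le h hc.le).symm
  rw [not_subset] at h1 h2
  obtain ⟨x, hx, hx'⟩ := h1
  obtain ⟨y, hy, hy'⟩ := h2
  obtain ⟨l, hl, hl2⟩ := chain_form he hU x hx
  obtain ⟨m, hm, hm2⟩ := chain_form he hW y hy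
  rcases le_total l m with h | h
  · exact hx' (hl ▸ hm2 l h)
  · exact hy' (hm ▸ hl2 m h)

theorem ind_zero {p q : Prop} [Decidable p] [Decidable q]
    (h : (if p then (1 : ℤ) else 0) - (if q then 1 else 0) = 0) : p ↔ q := by
  by_cases hp : p <;> by_cases hq : q <;> simp [hp, hq] at h ⊢

theorem ind_aux2 {a a' b b' s t : Prop} [Decidable a] [Decidable a'] [Decidable b]
    [Decidable b'] [Decidable s] [Decidable t] {E : Prop}
    (h1 : (a' ∧ ¬ t) ↔ (b' ∧ ¬ s)) (h2 : (s ∧ ¬ b') ↔ (t ∧ ¬ a'))
    (h3 : E ↔ (a ∨ t)) (h3' : ¬ (a ∧ t)) (h4 : E ↔ (b ∨ s)) (h4' : ¬ (b ∧ s)) :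
    (if a then (1 : ℤ) else 0) - (if b then 1 else 0)
      = -((if a' then (1 : ℤ) else 0) - (if b' then 1 else 0)) := by
  by_cases ha : a <;> by_cases ha' : a' <;> by_cases hb : b <;> by_cases hb' : b' <;>
    by_cases hs : s <;> by_cases ht : t <;> simp [ha, ha', hb, hb', hs, ht] at h1 h2 h3 h3' h4 h4' ⊢
    <;> (first | (exact absurd h3 h4) | (exact absurd h4 h3))

namespace QSym

variable {k : ℕ} {h : ℤ} {E X Z : Finset ℤ}

theorem swap (S : QSym k h E X Z) : QSym k h E Z X :=
  ⟨S.hpos, S.hle, S.E0, S.Esym, S.Erange, S.Ecard, S.Z0, S.X0, S.Zcard, S.Xcard, S.ZX, S.ZX',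
    S.XZ, S.XZ', S.S2, S.S1⟩

theorem XsubE (S : QSym k h E X Z) {x : ℤ} (hx : x ∈ X) : x ∈ E := (S.XZ x).2 (Or.inl hx)

theorem ZsubE (S : QSym k h E X Z) {x : ℤ} (hx : x ∈ Z) : x ∈ E := (S.ZX x).2 (Or.inl hx)

theorem hE (S : QSym k h E X Z) : 2 * h ∈ E := by
  rw [S.Esym]; simpa using S.E0

theorem hX (S : QSym k h E X Z) : 2 * h ∉ X := by
  intro hx
  apply S.XZ' (2 * h)
  refine ⟨hx, ?_⟩
  rw [sub_self]; exact S.Z0

/-- The chain property of the defect set. -/
theorem chain (S : QSym k h E X Z) {e : ℤ} (heE : e ∈ E)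
    (hmin : ∀ w ∈ E, 0 < w → e ≤ w) {x : ℤ} (hx : x - e ∈ X) (hx' : 2 * h - x ∉ Z)
    (hne : x ≠ e) : x - e - e ∈ X ∧ 2 * h - (x - e) ∉ Z := by
  have h1 := S.Erange _ (S.XsubE hx)
  have h2 : e ≤ x - e := hmin _ (S.XsubE hx) (by omega)
  have h3 : x - e ≠ 2 * h := fun h => S.hX (h ▸ hx)
  have h4 : e ≤ 2 * h - (x - e) :=
    hmin _ ((S.Esym _).1 (S.XsubE hx)) (by omega)
  refine ⟨?_, fun hz => S.XZ' _ ⟨hx, hz⟩⟩
  rcases S.S1 (x - e) (S.XsubE hx) e heE with h5 | h5
  · rwa [abs_of_nonneg (by omega)] at h5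
  · exfalso
    apply hx'
    rw [show x - e + e - 2 * h = -(2 * h - x) by ring, abs_neg, abs_of_nonneg (by omega)] at h5
    exact h5

theorem XeqZ (S : QSym k h E X Z) : X = Z := by
  classical
  by_cases hk : ∃ w ∈ E, 0 < w ∧ w < 2 * h
  · obtain ⟨w0, hw0, hw0p, hw0l⟩ := hk
    obtain ⟨e, he, hemin⟩ := exists_min_mem (T := E.filter (fun w => 0 < w))
      (card_pos.2 ⟨w0, mem_filter.2 ⟨hw0, hw0p⟩⟩)
    rw [mem_filter] at he
    have hmin : ∀ w ∈ E, 0 < w → e ≤ w := fun w h1 h2 => hemin w (mem_filter.2 ⟨h1, h2⟩)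
    set δ : ℤ := 2 * h with hδ
    have memadd : ∀ {T : Finset ℤ} {x : ℤ}, x ∈ T.image (fun w => w + e) ↔ x - e ∈ T := by
      intro T x
      rw [mem_image]
      constructor
      · rintro ⟨b, hb, rfl⟩; rw [add_sub_cancel_right]; exact hb
      · intro h'; exact ⟨x - e, h', by ring⟩
    have memref : ∀ {T : Finset ℤ} {x : ℤ}, x ∈ T.image (fun w => δ - w) ↔ δ - x ∈ T := by
      intro T x
      rw [mem_image]
      constructor
      · rintro ⟨b, hb, rfl⟩; rw [sub_sub_cancel]; exact hb
      · intro h'; exact ⟨δ - x, h', by ring⟩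
    set U : Finset ℤ := X.image (fun w => w + e) \ Z.image (fun w => δ - w) with hU
    set W : Finset ℤ := Z.image (fun w => w + e) \ X.image (fun w => δ - w) with hW
    have memU : ∀ x, x ∈ U ↔ (x - e ∈ X ∧ δ - x ∉ Z) := by
      intro x; rw [hU, mem_sdiff, memadd, memref]
    have memW : ∀ x, x ∈ W ↔ (x - e ∈ Z ∧ δ - x ∉ X) := by
      intro x; rw [hW, mem_sdiff, memadd, memref]
    have injadd : Function.Injective (fun w : ℤ => w + e) := add_left_injective e
    have injref : Function.Injective (fun w : ℤ => δ - w) := sub_right_injective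
    have hcU : U.card + (X.image (fun w => w + e) ∩ Z.image (fun w => δ - w)).card = k := by
      rw [hU, card_sdiff_add_card_inter, card_image_of_injective _ injadd, S.Xcard]
    have hcW : W.card + (Z.image (fun w => w + e) ∩ X.image (fun w => δ - w)).card = k := by
      rw [hW, card_sdiff_add_card_inter, card_image_of_injective _ injadd, S.Zcard]
    have hci : (X.image (fun w => w + e) ∩ Z.image (fun w => δ - w)).card
        = (Z.image (fun w => w + e) ∩ X.image (fun w => δ - w)).card := by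
      have injr : Function.Injective (fun w : ℤ => δ + e - w) := sub_right_injective
      rw [← card_image_of_injective (X.image (fun w => w + e) ∩ Z.image (fun w => δ - w)) injr]
      congr 1
      ext x
      rw [mem_image, mem_inter, memadd, memref]
      constructor
      · rintro ⟨y, hy, rfl⟩
        rw [mem_inter, memadd, memref] at hy
        rw [show δ + e - y - e = δ - y by ring, show δ - (δ + e - y) = y - e by ring]
        exact ⟨hy.2, hy.1⟩
      · rintro ⟨h1, h2⟩
        refine ⟨δ + e - x, ?_, by ring⟩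
        rw [mem_inter, memadd, memref, show δ + e - x - e = δ - x by ring,
          show δ - (δ + e - x) = x - e by ring]
        exact ⟨h2, h1⟩
    have hUW : U = W := by
      apply chain_eq he.2
      · intro x hx
        rw [memU] at hx
        by_cases hxe : x = e
        · exact Or.inl hxe
        · right
          rw [memU]
          exact S.chain he.1 hmin hx.1 hx.2 hxe
      · intro x hx
        rw [memW] at hx
        by_cases hxe : x = e
        · exact Or.inl hxe
        · right
          rw [memW]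
          exact S.swap.chain he.1 hmin hx.1 hx.2 hxe
      · omega
    have star : ∀ x, (x - e ∈ X ∧ δ - x ∉ Z) ↔ (x - e ∈ Z ∧ δ - x ∉ X) := by
      intro x; rw [← memU, ← memW, hUW]
    have star2 : ∀ x, (δ - x ∈ X ∧ x - e ∉ Z) ↔ (δ - x ∈ Z ∧ x - e ∉ X) := by
      intro x
      have := star (δ + e - x)
      rwa [show δ + e - x - e = δ - x by ring, show δ - (δ + e - x) = x - e by ring] at this
    set f : ℤ → ℤ := fun x => (if x ∈ X then (1 : ℤ) else 0) - (if x ∈ Z then 1 else 0) with hf
    have hstep : ∀ x, f x = - f (x - e) := by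
      intro x
      exact ind_aux2 (star x) (star2 x) (S.XZ x) (S.XZ' x) (S.ZX x) (S.ZX' x)
    have hper : ∀ x, f x = f (x + 2 * e) := by
      intro x
      rw [hstep (x + 2 * e), show x + 2 * e - e = x + e by ring, hstep (x + e),
        add_sub_cancel_right, neg_neg]
    have hz : ∀ x, f x = 0 := eq_zero_of_periodic (M := δ) (by omega) hper (by
      intro w hw
      simp only [hf]
      have hwE : w ∉ E := fun hh => by
        have := (S.Erange w hh).2
        omega
      rw [if_neg (fun hh => hwE (S.XsubE hh)), if_neg (fun hh => hwE (S.ZsubE hh))]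
      rfl)
    ext x
    exact ind_zero (hz x)
  · push Not at hk
    have hx : ∀ x ∈ X, x = 0 := by
      intro x hx
      have h1 := S.Erange x (S.XsubE hx)
      have h2 : x ≠ 2 * h := fun h => S.hX (h ▸ hx)
      by_contra h0
      have := hk x (S.XsubE hx) (by omega)
      omega
    have hz : ∀ x ∈ Z, x = 0 := by
      intro x hx
      have h1 := S.Erange x (S.ZsubE hx)
      have h2 : x ≠ 2 * h := fun h => S.swap.hX (h ▸ hx)
      by_contra h0
      have := hk x (S.ZsubE hx) (by omega)
      omega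
    ext x
    constructor
    · intro h'; rw [hx x h']; exact S.Z0
    · intro h'; rw [hz x h']; exact S.X0

end QSym

end Pool.Agent.Helper95.Queens
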